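import Pool.Agent.N110.Step

/-!
The growth of mixed products: the abstract plateau theorem.
-/

set_option autoImplicit false

open Multiset Filter Topology

namespace Pool.Agent.N110

variable {α : Type*}

/-- the growth is at most `L ^ l` for the products with at least `i` elements `M` -/
def Gr (n : ℕ) (t : Multiset α → ℝ) (f : Equiv.Perm α) (H : α) (m : ℕ → ℝ)
    (M : ℕ → ℕ → α) (ν i : ℕ) (L : ℝ) : Prop :=
  ∃ A : ℝ, 0 < A ∧ ∀ l i' p, i ≤ i' → i' ≤ ν → i' + p ≤ n → Bd n t f H m M l i' p (A * L ^ l)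

namespace Data

variable {n : ℕ} {t : Multiset α → ℝ} {f : Equiv.Perm α} {H : α} {m : ℕ → ℝ}
  {M : ℕ → ℕ → α} {D : ℕ → ℕ → ℕ → α} {ν : ℕ} {c β ε : ℝ}

theorem growth_step (h : Data n t f H m M D ν c β ε) {i : ℕ} (hi : i < ν) {L L' : ℝ} (hL : 0 < L)
    (hlt : L < L') (hG : Gr n t f H m M ν (i + 1) L) : Gr n t f H m M ν i L' := by
  classical
  obtain ⟨A, hA, hG⟩ := hG
  have hL' : 0 < L' := hL.trans hlt
  have hε := h.hε
  have hc := h.hc
  have hβ := h.hβ
  obtain ⟨C, hC⟩ : ∃ C : ℝ, C = 4 ^ (n * n + n) / ε := ⟨_, rfl⟩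
  have hCp : 0 < C := by rw [hC]; positivity
  obtain ⟨θ, hθ⟩ : ∃ θ : ℝ, θ = L' / L := ⟨_, rfl⟩
  have hθ1 : 1 < θ := by rw [hθ, lt_div_iff₀ hL, one_mul]; exact hlt
  obtain ⟨L0, hL0⟩ := pow_unbounded_of_one_lt (4 * C * A) hθ1
  have hH : 0 < t (replicate n H) := h.pos _ (card_replicate _ _)
  obtain ⟨A', hA'⟩ : ∃ A' : ℝ, A' = A + ∑ l ∈ Finset.range (2 * L0 + 2), ∑ p ∈ Finset.range (n + 1),
      c ^ i * ((β ^ l) ^ p * t (replicate n H)) / L' ^ l := ⟨_, rfl⟩
  have hsum0 : 0 ≤ ∑ l ∈ Finset.range (2 * L0 + 2), ∑ p ∈ Finset.range (n + 1),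
      c ^ i * ((β ^ l) ^ p * t (replicate n H)) / L' ^ l :=
    Finset.sum_nonneg fun l _ => Finset.sum_nonneg fun p _ => by positivity
  have hAA' : A ≤ A' := by rw [hA']; linarith
  have hA'0 : 0 < A' := hA.trans_le hAA'
  have hmain : ∀ l p, i + p ≤ n → Bd n t f H m M l i p (A' * L' ^ l) := by
    intro l
    induction l using Nat.strong_induction_on with
    | _ l ih =>
      intro p hp
      by_cases hl : l < 2 * L0 + 2
      · refine h.bd_mono (h.bd_exists hp) ?_
        rw [← div_le_iff₀ (by positivity)]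
        have h1 : c ^ i * ((β ^ l) ^ p * t (replicate n H)) / L' ^ l ≤
            ∑ p ∈ Finset.range (n + 1), c ^ i * ((β ^ l) ^ p * t (replicate n H)) / L' ^ l :=
          Finset.single_le_sum (f := fun p => c ^ i * ((β ^ l) ^ p * t (replicate n H)) / L' ^ l)
            (fun _ _ => by positivity) (Finset.mem_range.2 (by omega))
        have h2 : ∑ p ∈ Finset.range (n + 1), c ^ i * ((β ^ l) ^ p * t (replicate n H)) / L' ^ l ≤
            ∑ l ∈ Finset.range (2 * L0 + 2), ∑ p ∈ Finset.range (n + 1),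
              c ^ i * ((β ^ l) ^ p * t (replicate n H)) / L' ^ l :=
          Finset.single_le_sum (f := fun l => ∑ p ∈ Finset.range (n + 1),
            c ^ i * ((β ^ l) ^ p * t (replicate n H)) / L' ^ l)
            (fun _ _ => Finset.sum_nonneg fun p _ => by positivity) (Finset.mem_range.2 hl)
        rw [hA']
        linarith
      · obtain ⟨l1, hl1⟩ : ∃ l1, l1 = l / 2 := ⟨_, rfl⟩
        obtain ⟨l2, hl2⟩ : ∃ l2, l2 = l - l1 := ⟨_, rfl⟩
        have e12 : l1 + l2 = l := by omega
        have hl12 : l1 ≤ l2 := by omega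
        have hL01 : L0 ≤ l1 := by omega
        obtain ⟨z, hz⟩ : ∃ z : ℝ, z = A' * L' ^ l2 / (A * L ^ l2) := ⟨_, rfl⟩
        have hz' : z = A' / A * θ ^ l2 := by
          rw [hz, hθ, div_pow, mul_div_mul_comm]
        have hz1 : 1 ≤ z := by
          rw [hz', ← one_mul (1 : ℝ)]
          refine mul_le_mul ?_ (one_le_pow₀ hθ1.le) zero_le_one (by positivity)
          rwa [le_div_iff₀ hA, one_mul]
        have hst := h.step hi hz1 (l := l1) (k := l2) (bl := A' * L' ^ l1) (bk := A' * L' ^ l2)
          (gl := A * L ^ l1) (gk := A * L ^ l2) (by positivity) (by positivity) (by positivity)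
          (by positivity) (ih l1 (by omega)) (ih l2 (by omega))
          (fun i' p h1 h2 h3 => hG l1 i' p h1 h2 h3) (fun i' p h1 h2 h3 => hG l2 i' p h1 h2 h3)
          p hp
        rw [e12, ← hC] at hst
        refine h.bd_mono hst ?_
        have hz0 : 0 < z := by linarith
        have e1 : z * (A * L ^ l2) = A' * L' ^ l2 := by
          rw [hz]
          field_simp
        have e2 : A' * L' ^ l1 ≤ z * (A * L ^ l1) := by
          have h1 : A' * L' ^ l1 = A' / A * θ ^ l1 * (A * L ^ l1) := by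
            rw [hθ, div_pow]
            field_simp
          rw [h1]
          refine mul_le_mul_of_nonneg_right ?_ (by positivity)
          rw [hz']
          exact mul_le_mul_of_nonneg_left (pow_le_pow_right₀ hθ1.le hl12) (by positivity)
        rw [e1]
        have e3 : (A' * L' ^ l2 + A' * L' ^ l2) * (A' * L' ^ l1 + z * (A * L ^ l1)) / z ≤
            4 * (A' * L' ^ l2) * (A * L ^ l1) := by
          rw [div_le_iff₀ hz0]
          have h2 : (A' * L' ^ l2 + A' * L' ^ l2) * (A' * L' ^ l1 + z * (A * L ^ l1)) ≤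
              (A' * L' ^ l2 + A' * L' ^ l2) * (z * (A * L ^ l1) + z * (A * L ^ l1)) := by
            refine mul_le_mul_of_nonneg_left ?_ (by positivity)
            linarith
          refine h2.trans (le_of_eq ?_)
          ring
        calc C * ((A' * L' ^ l2 + A' * L' ^ l2) * (A' * L' ^ l1 + z * (A * L ^ l1)) / z)
            ≤ C * (4 * (A' * L' ^ l2) * (A * L ^ l1)) := mul_le_mul_of_nonneg_left e3 hCp.le
          _ = A' * L' ^ l2 * ((4 * C * A) * L ^ l1) := by ring
          _ ≤ A' * L' ^ l2 * (θ ^ l1 * L ^ l1) := by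
            refine mul_le_mul_of_nonneg_left (mul_le_mul_of_nonneg_right ?_ (by positivity))
              (by positivity)
            exact hL0.le.trans (pow_le_pow_right₀ hθ1.le hL01)
          _ = A' * L' ^ l := by
            rw [← e12, pow_add, hθ, div_pow]
            field_simp
  refine ⟨A', hA'0, fun l i' p h1 h2 h3 => ?_⟩
  rcases Nat.eq_or_lt_of_le h1 with rfl | h4
  · exact hmain l p h3
  · refine h.bd_mono (hG l i' p h4 h2 h3) ?_
    exact mul_le_mul hAA' (pow_le_pow_left₀ hL.le hlt.le l) (by positivity) hA'0.le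

theorem growth_all (h : Data n t f H m M D ν c β ε) (k : ℕ) : ∀ {L L' : ℝ}, 0 < L → L < L' →
    k ≤ ν → Gr n t f H m M ν ν L → Gr n t f H m M ν (ν - k) L' := by
  induction k with
  | zero =>
    intro L L' hL hlt _ hG
    obtain ⟨A, hA, hG⟩ := hG
    refine ⟨A, hA, fun l i' p h1 h2 h3 => h.bd_mono (hG l i' p h1 h2 h3) ?_⟩
    exact mul_le_mul_of_nonneg_left (pow_le_pow_left₀ hL.le hlt.le l) hA.le
  | succ k ih =>
    intro L L' hL hlt hk hG
    have h1 := ih (L := L) (L' := (L + L') / 2) hL (by linarith) (by omega) hG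
    have e1 : ν - k = (ν - (k + 1)) + 1 := by omega
    rw [e1] at h1
    exact h.growth_step (by omega) (by linarith) (by linarith) h1

/-- the products with `ν` elements `M` -/
theorem growth_top (h : Data n t f H m M D ν c β ε) {L : ℝ} (hL : 0 < L)
    (hyp : ∀ j, j + ν ≤ n → ∃ i ≤ ν, ∃ A : ℝ, ∀ l, t (replicate (j + i)
      ((f ^ l : Equiv.Perm α) H) + replicate (n - (j + i)) H) ≤ A * L ^ l) :
    Gr n t f H m M ν ν L := by
  classical
  have hc := h.hc
  choose i hi A hA using hyp
  obtain ⟨B, hB⟩ : ∃ B : ℝ, B = 1 + ∑ j ∈ Finset.range (n + 1),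
      if hj : j + ν ≤ n then c ^ ν * |A j hj| else 0 := ⟨_, rfl⟩
  have hsum0 : 0 ≤ ∑ j ∈ Finset.range (n + 1), if hj : j + ν ≤ n then c ^ ν * |A j hj| else 0 :=
    Finset.sum_nonneg fun j _ => by
      split_ifs
      · positivity
      · exact le_rfl
  refine ⟨B, by rw [hB]; linarith, ?_⟩
  intro l i' p h1 h2 h3
  obtain rfl : i' = ν := le_antisymm h2 h1
  have hp : p + i' ≤ n := by omega
  have hle : c ^ i' * |A p hp| ≤ B := by
    rw [hB]
    have h4 := Finset.single_le_sum (s := Finset.range (n + 1))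
      (f := fun j => if hj : j + i' ≤ n then c ^ i' * |A j hj| else 0) (fun j _ => by
        split_ifs
        · positivity
        · exact le_rfl) (a := p) (Finset.mem_range.2 (by omega))
    simp only [dif_pos hp] at h4
    linarith
  have hi1 := hi p hp
  have hA1 := hA p hp l
  refine h.bd_mono (B := c ^ i' * (|A p hp| * L ^ l)) ?_ ?_
  swap
  · rw [← mul_assoc]
    exact mul_le_mul_of_nonneg_right hle (by positivity)
  intro r
  filter_upwards [h.M_le r, h.M_le_F l r] with q hq hq2
  have hm := h.m_pos q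
  obtain ⟨a, ha⟩ : ∃ a, a = i p hp := ⟨_, rfl⟩
  rw [← ha] at hi1 hA1
  have g1 := hq2.rep (mul_pos hc hm).le a (replicate (i' - a) (M r q) +
    (replicate p ((f ^ l : Equiv.Perm α) H) + replicate (n - i' - p) H))
    (by simp only [card_add, card_replicate]; omega)
  have g2 := hq.rep (mul_pos hc hm).le (i' - a) (replicate a ((f ^ l : Equiv.Perm α) H) +
    (replicate p ((f ^ l : Equiv.Perm α) H) + replicate (n - i' - p) H))
    (by simp only [card_add, card_replicate]; omega)
  have e1 : replicate a (M r q) + (replicate (i' - a) (M r q) +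
      (replicate p ((f ^ l : Equiv.Perm α) H) + replicate (n - i' - p) H)) =
      replicate i' (M r q) + (replicate p ((f ^ l : Equiv.Perm α) H) +
        replicate (n - i' - p) H) := by
    rw [← add_assoc, ← replicate_add]
    congr 2
    omega
  have e2 : replicate a ((f ^ l : Equiv.Perm α) H) + (replicate (i' - a) (M r q) +
      (replicate p ((f ^ l : Equiv.Perm α) H) + replicate (n - i' - p) H)) =
      replicate (i' - a) (M r q) + (replicate a ((f ^ l : Equiv.Perm α) H) +
      (replicate p ((f ^ l : Equiv.Perm α) H) + replicate (n - i' - p) H)) := by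
    rw [add_left_comm]
  have e3 : replicate (i' - a) H + (replicate a ((f ^ l : Equiv.Perm α) H) +
      (replicate p ((f ^ l : Equiv.Perm α) H) + replicate (n - i' - p) H)) =
      replicate (p + a) ((f ^ l : Equiv.Perm α) H) + replicate (n - (p + a)) H := by
    have e4 : n - (p + a) = (i' - a) + (n - i' - p) := by omega
    rw [e4, replicate_add, replicate_add]
    abel
  rw [e1, e2] at g1
  rw [e3] at g2
  have g3 : t (replicate (p + a) ((f ^ l : Equiv.Perm α) H) + replicate (n - (p + a)) H) ≤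
      |A p hp| * L ^ l :=
    hA1.trans (mul_le_mul_of_nonneg_right (le_abs_self _) (by positivity))
  calc _ ≤ (c * m q) ^ a * _ := g1
    _ ≤ (c * m q) ^ a * ((c * m q) ^ (i' - a) * t (replicate (p + a)
      ((f ^ l : Equiv.Perm α) H) + replicate (n - (p + a)) H)) :=
      mul_le_mul_of_nonneg_left g2 (by positivity)
    _ ≤ (c * m q) ^ a * ((c * m q) ^ (i' - a) * (|A p hp| * L ^ l)) := by gcongr
    _ = c ^ i' * (|A p hp| * L ^ l) * m q ^ i' := by
      rw [← mul_assoc, ← pow_add, show a + (i' - a) = i' by omega, mul_pow]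
      ring

/-- **The abstract plateau theorem.** -/
theorem growth (h : Data n t f H m M D ν c β ε) {L L' : ℝ} (hL : 0 < L) (hlt : L < L')
    (hyp : ∀ j, j + ν ≤ n → ∃ i ≤ ν, ∃ A : ℝ, ∀ l, t (replicate (j + i)
      ((f ^ l : Equiv.Perm α) H) + replicate (n - (j + i)) H) ≤ A * L ^ l) :
    ∃ A : ℝ, ∀ l p, p ≤ n → t (replicate p ((f ^ l : Equiv.Perm α) H) +
      replicate (n - p) H) ≤ A * L' ^ l := by
  obtain ⟨A, hA, hG⟩ := h.growth_all ν hL hlt le_rfl (h.growth_top hL hyp)
  refine ⟨A, fun l p hp => ?_⟩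
  have h1 := (hG l 0 p (by omega) (by omega) (by omega) 0).exists
  obtain ⟨q, hq⟩ := h1
  simpa using hq

end Data

end Pool.Agent.N110
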