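import Pool.Agent.N110.Conv
import Pool.Agent.N110.Growth

/-!
The assembly: the growth of the degrees of birational self-maps which preserve `K_X + Δ`.
-/

set_option autoImplicit false
set_option linter.overlappingInstances false
set_option linter.unusedSectionVars false

open FF Module MvPolynomial Pool.Agent.W602.GT Pool.Agent.W603.LV
open Pool.Agent.Y172 Pool.Agent.Y191 Pool.Agent.R887

namespace Pool.Agent.N110

section

variable {K : Type} [Field K] [Algebra ℂ K] {N n : ℕ} {y : Fin (N + 1) → K}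

/-- powers of the space of hyperplane sections -/
noncomputable def hpow (hy : NormalModel y) {i : Fin (N + 1)} (hi : y i ≠ 0) :
    ℕ → Cls ℂ (affS y i)
  | 0 => hcls hy hi
  | k + 1 => mulCls (fin_affS i) (one_affS hi) (hpow hy hi k) (hcls hy hi)

theorem hpow_bnd (hy : NormalModel y) {i : Fin (N + 1)} (hi : y i ≠ 0) (k : ℕ) :
    ∀ v ∈ (hpow hy hi k).V, Bnd ℂ (affS y i) (k + 1) (1 * v) := by
  obtain ⟨μ, hμ⟩ := exists_isMin (k := ℂ) (fin_affS (y := y) i) ⟨1, one_affS hi, one_ne_zero⟩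
  have key : ∀ k, ∀ v ∈ (hpow hy hi k).V, ∀ P : Place ℂ K, Ge P (((k + 1 : ℕ) : ℤ) * μ P) v := by
    intro k
    induction k with
    | zero =>
      intro v hv P
      have := ge_span hμ hv P
      rwa [zero_add, Nat.cast_one, one_mul]
    | succ k ih =>
      intro v hv P
      induction hv using Submodule.mul_induction_on' with
      | mem_mul_mem u hu w hw =>
        have h1 := (ih u hu P).mul (ge_span hμ hw P)
        refine h1.mono ?_
        push_cast
        linarith
      | add u _ w _ h1 h2 => exact h1.add h2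
  intro v hv
  rw [one_mul]
  exact bnd_of_ge hμ (one_affS hi) (key k v hv)

theorem hpow_pow (hy : NormalModel y) {i : Fin (N + 1)} (hi : y i ≠ 0) (k : ℕ) :
    ∀ v ∈ (hcls hy hi).V, v ^ (k + 1) ∈ (hpow hy hi k).V := by
  intro v hv
  induction k with
  | zero => rwa [zero_add, pow_one]
  | succ k ih =>
    rw [pow_succ]
    exact Submodule.mul_mem_mul ih hv

theorem Lsp_mono {c : Place ℂ K → ℤ} {m b b' : ℕ} {Δ A A' : Place ℂ K → ℚ} (hbb : b ≤ b')
    (hA : ∀ P, IsPrimeDivisor y P → 0 ≤ A P) (h : ∀ P, IsPrimeDivisor y P → A P ≤ A' P) :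
    Lsp y c m (m • Δ + b • A) ≤ Lsp y c m (m • Δ + b' • A') := by
  intro g hg P hP
  refine (hg P hP).imp_right fun h1 => le_trans ?_ h1
  rw [Pi.add_apply, Pi.add_apply, Pi.smul_apply, Pi.smul_apply, Pi.smul_apply, nsmul_eq_mul,
    nsmul_eq_mul, nsmul_eq_mul]
  have h2 := hA P hP
  have h3 := h P hP
  have h4 : (b : ℚ) ≤ b' := by exact_mod_cast hbb
  have h5 : (b : ℚ) * A P ≤ b' * A' P := mul_le_mul h4 h3 h2 (Nat.cast_nonneg _)
  linarith

theorem Effective.add' {A B : Place ℂ K → ℚ} (hA : Effective y A) (hB : Effective y B) :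
    Effective y (A + B) := by
  refine ⟨fun P hP => add_nonneg (hA.1 P hP) (hB.1 P hP), (hA.2.union hB.2).subset ?_⟩
  rintro P ⟨hP, h0⟩
  by_cases h1 : A P = 0
  · right
    refine ⟨hP, fun h2 => h0 ?_⟩
    rw [Pi.add_apply, h1, h2, add_zero]
  · exact Or.inl ⟨hP, h1⟩

/-- multiplication by a hyperplane section -/
theorem mul_hyp (hy : NormalModel y) {i : Fin (N + 1)} {c : Place ℂ K → ℤ} {m b : ℕ}
    {Δ A Hy : Place ℂ K → ℚ} (hA : Effective y A) (hHy : Effective y Hy)
    (hHP : ∀ P l, IsPrimeDivisor y P → Centred y l P → Hy P = P.ord (y i / y l)) (hi : y i ≠ 0)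
    {g : K} (hg : g ∈ Lsp y c m (m • Δ + b • A)) (l : Fin (N + 1)) :
    g * (y l / y i) ∈ Lsp y c m (m • Δ + (b + 1) • (A + Hy)) := by
  intro P hP
  by_cases h0 : g * (y l / y i) = 0
  · exact Or.inl h0
  right
  have hg0 : g ≠ 0 := left_ne_zero_of_mul h0
  have hl0 : y l / y i ≠ 0 := right_ne_zero_of_mul h0
  have hyl : y l ≠ 0 := by
    rintro h
    rw [h, zero_div] at hl0
    exact hl0 rfl
  have h1 := (hg P hP).resolve_left hg0
  obtain ⟨k, hk⟩ := exists_centred hy P
  have h2 := (P.reg_iff (div_ne_zero hyl hk.1)).1 (hk.2 l)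
  have h3 : P.ord (y l / y i) = P.ord (y l / y k) - P.ord (y i / y k) := by
    rw [P.ord_div hyl hi, P.ord_div hyl hk.1, P.ord_div hi hk.1]
    ring
  rw [P.ord_mul hg0 hl0, h3]
  rw [Pi.add_apply, Pi.smul_apply, Pi.smul_apply, nsmul_eq_mul, nsmul_eq_mul] at h1 ⊢
  rw [Pi.add_apply, hHP P k hP hk]
  have h4 := hA.1 P hP
  have h5 := hHy.1 P hP
  rw [hHP P k hP hk] at h5
  have h6 : (0 : ℚ) ≤ P.ord (y l / y k) := by exact_mod_cast h2
  have hb : (0 : ℚ) ≤ b := Nat.cast_nonneg _
  push_cast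
  nlinarith [mul_nonneg hb h5]

/-- **The growth of the degrees.** -/
theorem growth_main (hy : NormalModel y) (hn : Algebra.trdeg ℂ K = n) {i : Fin (N + 1)}
    (hi : y i ≠ 0) {Δ : Place ℂ K → ℚ} (hΔ : {P | IsPrimeDivisor y P ∧ Δ P ≠ 0}.Finite)
    {φ : K ≃ₐ[ℂ] K} (h1 : PullLe φ y n Δ) (h2 : PullLe φ.symm y n Δ) {ν : ℕ} (hν : ν ≤ n)
    (hnum : ¬ NumDimLt y n Δ ν) (hnum' : ν + 1 ≤ n → NumDimLt y n Δ (ν + 1)) {L L' : ℝ}
    (hL : 0 < L) (hlt : L < L')
    (hyp : ∀ j, j + ν ≤ n → ∃ a ≤ ν, ∃ A : ℝ, ∀ l, (I (Multiset.replicate (j + a)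
      (mapCls hy hi (φ ^ l) (hcls hy hi)) + Multiset.replicate (n - (j + a)) (hcls hy hi)) : ℝ) ≤
      A * L ^ l) :
    ∃ A : ℝ, ∀ l p, p ≤ n → (I (Multiset.replicate p (mapCls hy hi (φ ^ l) (hcls hy hi)) +
      Multiset.replicate (n - p) (hcls hy hi)) : ℝ) ≤ A * L' ^ l := by
  classical
  have hess := hy.ess
  have cx := ctx hy hn hi
  obtain ⟨x, E, hx, hE⟩ := exists_crd hn (k := ℂ) (K := K)
  have hfr : IsFrame E := fun F => ⟨fun j => F (x j),
    (Pool.Agent.W73.PG.PULL.expand x hx E hE F).symm⟩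
  obtain ⟨c, hcfin, hc⟩ := exists_ordc hy hn hx hE
  have hc' : IsDisc y E c := hc
  obtain ⟨J, hJ0, hJ⟩ := exists_jac φ hE hfr
  obtain ⟨J', hJ0', hJ'⟩ := exists_jac φ.symm hE hfr
  obtain ⟨Hy, hHy, hHP⟩ := exists_hyp hy hi
  -- the sequence of sections
  unfold NumDimLt at hnum
  push Not at hnum
  obtain ⟨A0, hA0, ε, hε, hseq⟩ := hnum
  have hseq' : ∀ q : ℕ, ∃ m b : ℕ, q + 1 ≤ m ∧ (b : ℝ) ≤ 1 / (q + 1) * m ∧
      ∃ g : Fin (ν + 1) → K, (∀ j, g j ∈ Lsp y c m (m • Δ + b • A0)) ∧ g 0 ≠ 0 ∧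
      ∃ u : Fin (n - ν) → K, (∀ a, IsPencil y (u a)) ∧
        ε * m ^ ν < degreeOver u (fun j : Fin ν => g j.succ / g 0) := by
    intro q
    obtain ⟨m, b, hm, hb, u, hu, ω, E', hω, hω0, hlt⟩ := hseq (1 / ((q : ℝ) + 1))
      (by positivity) (q + 1)
    refine ⟨m, b, hm, hb, fun j => ω j E, fun j => ?_, ?_, u, hu, ?_⟩
    · exact (isSection_iff hc' (hω j).1).1 (hω j)
    · exact (ratio_frame hfr (hω 0).1 (hω 0).1 hω0).1
    · have e1 : (fun j : Fin ν => ω j.succ E / ω 0 E) = fun j : Fin ν => ω j.succ E' / ω 0 E' := by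
        funext j
        exact ((ratio_frame hfr (hω 0).1 (hω j.succ).1 hω0).2).symm
      rw [e1]
      exact hlt
  choose m b hm hb g hg hg0 u hu hdeg using hseq'
  -- the sequence of divisors
  have hnext : ∀ A : {A : Place ℂ K → ℚ // Effective y A}, ∃ A' : {A : Place ℂ K → ℚ //
      Effective y A}, (∀ P, IsPrimeDivisor y P → A.1 P ≤ A'.1 P) ∧
      (∀ m b : ℕ, 1 ≤ m → ∀ g ∈ Lsp y c m (m • Δ + b • A.1),
        J ^ m * φ g ∈ Lsp y c m (m • Δ + b • A'.1)) ∧
      (∀ m b : ℕ, 1 ≤ m → ∀ g ∈ Lsp y c m (m • Δ + b • A.1),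
        J' ^ m * φ.symm g ∈ Lsp y c m (m • Δ + b • A'.1)) := by
    rintro ⟨A, hA⟩
    obtain ⟨B, hB, hB1⟩ := pull_sections hy hA h1 hE hfr hc' hJ
    obtain ⟨B', hB', hB1'⟩ := pull_sections hy hA h2 hE hfr hc' hJ'
    refine ⟨⟨A + B + B', Effective.add' (Effective.add' hA hB) hB'⟩, fun P hP => ?_,
      fun m b hm g hg => ?_, fun m b hm g hg => ?_⟩
    · have e1 := hB.1 P hP
      have e2 := hB'.1 P hP
      change A P ≤ A P + B P + B' P
      linarith
    · refine Lsp_mono le_rfl hB.1 (fun P hP => ?_) (hB1 m b hm g hg)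
      have e1 := hA.1 P hP
      have e2 := hB'.1 P hP
      change B P ≤ A P + B P + B' P
      linarith
    · refine Lsp_mono le_rfl hB'.1 (fun P hP => ?_) (hB1' m b hm g hg)
      have e1 := hA.1 P hP
      have e2 := hB.1 P hP
      change B' P ≤ A P + B P + B' P
      linarith
  choose nx hnx1 hnx2 hnx3 using hnext
  obtain ⟨As, hAs0, hAss⟩ : ∃ As : ℕ → {A : Place ℂ K → ℚ // Effective y A},
      As 0 = ⟨A0 + Hy, Effective.add' hA0 hHy⟩ ∧ ∀ r, As (r + 1) = nx (As r) :=
    ⟨fun r => Nat.rec ⟨A0 + Hy, Effective.add' hA0 hHy⟩ (fun _ A => nx A) r, rfl, fun _ => rfl⟩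
  have hmono : ∀ r P, IsPrimeDivisor y P → (As 0).1 P ≤ (As r).1 P := by
    intro r P hP
    induction r with
    | zero => exact le_rfl
    | succ r ih =>
      rw [hAss]
      exact ih.trans (hnx1 _ P hP)
  have hmem : ∀ r q l, g q 0 * (y l / y i) ∈ Lsp y c (m q) (m q • Δ + (b q + 1) • (As r).1) := by
    intro r q l
    refine Lsp_mono le_rfl (As 0).2.1 (hmono r) ?_
    rw [hAs0]
    exact mul_hyp hy hA0 hHy hHP hi (hg q 0) l
  -- the spaces
  obtain ⟨M, hMV⟩ : ∃ M : ℕ → ℕ → Cls ℂ (affS y i), ∀ r q, M r q =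
      secCls hy hi hcfin hΔ (As r).2 (m q) (b q + 1) (hg0 q) (hmem r q) := ⟨_, fun _ _ => rfl⟩
  have hMmem : ∀ r q v, v ∈ (M r q).V ↔
      g q 0 * v ∈ Lsp y c (m q) (m q • Δ + (b q + 1) • (As r).1) := by
    intro r q v
    rw [hMV]
    rfl
  obtain ⟨D, hDV⟩ : ∃ D : ℕ → ℕ → ℕ → Cls ℂ (affS y i), ∀ r q v, D r q v =
      mulCls (fin_affS i) (one_affS hi) (M r q) (hpow hy hi (v - 1)) := ⟨_, fun _ _ _ => rfl⟩
  obtain ⟨β, f, hf, hdom⟩ := dom_sections hy hi hcfin hΔ
  obtain ⟨β', h, hh, hβ'⟩ := map_dom hy hi φ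
  have hm1 : ∀ q, 1 ≤ m q := fun q => by have := hm q; omega
  obtain ⟨t, ht⟩ : ∃ t : Multiset (Cls ℂ (affS y i)) → ℝ, t = fun s => (I s : ℝ) := ⟨_, rfl⟩
  have data : Data n t (perm hy hi φ) (hcls hy hi) (fun q => (m q : ℝ)) M D ν (β + 1) (β' + 1)
      ε := by
    refine ⟨?_, ?_, ?_, hν, by positivity, by positivity, hε, ?_, ?_, ?_, ?_, ?_, ?_, ?_, ?_, ?_,
      ?_, ?_, ?_⟩
    · -- pos
      intro s hs
      rw [ht]
      beta_reduce
      exact_mod_cast I_pos cx hs
    · -- ex
      rw [ht]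
      exact exch cx
    · -- inv
      intro s hs
      rw [ht]
      beta_reduce
      exact_mod_cast I_map hy hn hi φ hs
    · -- m_pos
      intro q
      exact_mod_cast hm1 q
    · -- m_tend
      refine Filter.tendsto_atTop_mono (fun q => ?_) tendsto_natCast_atTop_atTop
      have := hm q
      exact_mod_cast (by omega : q ≤ m q)
    · -- M_mono
      intro r q s hs
      rw [ht, one_mul]
      refine Nat.cast_le.2 (I_mono cx (g := 1) one_ne_zero (fun v hv => ?_) hs)
      rw [one_mul]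
      rw [hMmem] at hv ⊢
      refine Lsp_mono le_rfl (As r).2.1 (fun P hP => ?_) hv
      rw [hAss]
      exact hnx1 _ P hP
    · -- M_f
      intro r q s hs
      rw [ht, one_mul]
      refine Nat.cast_le.2 (I_mono cx (g := J ^ m q * φ (g q 0) / g q 0)
        (div_ne_zero (mul_ne_zero (pow_ne_zero _ hJ0) (by rw [Ne, map_eq_zero]; exact hg0 q))
          (hg0 q)) ?_ hs)
      rintro _ ⟨v, hv, rfl⟩
      rw [hMmem, hAss]
      have hv' := (hMmem r q v).1 hv
      have e1 := hnx2 (As r) (m q) (b q + 1) (hm1 q) _ hv'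
      have e2 : g q 0 * (J ^ m q * φ (g q 0) / g q 0 * φ.toLinearMap v) =
          J ^ m q * φ (g q 0 * v) := by
        rw [map_mul]
        have := hg0 q
        change g q 0 * (J ^ m q * φ (g q 0) / g q 0 * φ v) = _
        field_simp
      rw [e2]
      exact e1
    · -- M_finv
      intro r q s hs
      rw [ht, one_mul]
      refine Nat.cast_le.2 (I_mono cx (V := mapCls hy hi φ⁻¹ (M r q))
        (g := J' ^ m q * φ.symm (g q 0) / g q 0)
        (div_ne_zero (mul_ne_zero (pow_ne_zero _ hJ0') (by rw [Ne, map_eq_zero]; exact hg0 q))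
          (hg0 q)) ?_ hs)
      rintro _ ⟨v, hv, rfl⟩
      rw [hMmem, hAss]
      have hv' := (hMmem r q v).1 hv
      have e1 := hnx3 (As r) (m q) (b q + 1) (hm1 q) _ hv'
      have e2 : g q 0 * (J' ^ m q * φ.symm (g q 0) / g q 0 * φ⁻¹.toLinearMap v) =
          J' ^ m q * φ.symm (g q 0 * v) := by
        rw [map_mul]
        have := hg0 q
        change g q 0 * (J' ^ m q * φ.symm (g q 0) / g q 0 * φ.symm v) = _
        field_simp
      rw [e2]
      exact e1
    · -- M_le
      intro r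
      obtain ⟨βA, gA, hgA, hdomA⟩ := hdom (As r).1 (As r).2
      filter_upwards [Filter.eventually_ge_atTop (2 * βA)] with q hq s hs
      rw [ht]
      have e1 := I_dom cx (V := M r q) (H := hcls hy hi) (fun v hv => hv)
        (B := m q * β + (b q + 1) * βA) (f := f ^ m q * gA ^ (b q + 1) * g q 0)
        (mul_ne_zero (mul_ne_zero (pow_ne_zero _ hf) (pow_ne_zero _ hgA)) (hg0 q))
        (fun v hv => by
          rw [mul_assoc]
          exact hdomA (m q) (b q + 1) _ ((hMmem r q v).1 hv)) hs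
      have e2 : ((m q * β + (b q + 1) * βA : ℕ) : ℝ) ≤ ((β : ℝ) + 1) * m q := by
        push_cast
        have hmq : ((q : ℝ) + 1) ≤ m q := by exact_mod_cast hm q
        have hbq := hb q
        have hq' : 2 * (βA : ℝ) ≤ q := by exact_mod_cast hq
        have hβ0 : (0 : ℝ) ≤ βA := Nat.cast_nonneg _
        have hm0 : (0 : ℝ) ≤ m q := Nat.cast_nonneg _
        have e3 : (b q : ℝ) * βA ≤ m q / 2 := by
          have e4 : (b q : ℝ) * βA ≤ 1 / ((q : ℝ) + 1) * m q * βA :=
            mul_le_mul_of_nonneg_right hbq hβ0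
          have e5 : 1 / ((q : ℝ) + 1) * m q * βA = m q * (βA / (q + 1)) := by ring
          have e6 : (βA : ℝ) / (q + 1) ≤ 1 / 2 := by
            rw [div_le_div_iff₀ (by positivity) (by norm_num)]
            linarith
          have e7 := mul_le_mul_of_nonneg_left e6 hm0
          linarith
        nlinarith
      calc ((I (M r q ::ₘ s) : ℕ) : ℝ) ≤ ((m q * β + (b q + 1) * βA : ℕ) : ℝ) *
            (I (hcls hy hi ::ₘ s) : ℝ) := by exact_mod_cast e1
        _ ≤ ((β : ℝ) + 1) * m q * (I (hcls hy hi ::ₘ s) : ℝ) :=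
          mul_le_mul_of_nonneg_right e2 (Nat.cast_nonneg _)
    · -- H_f
      intro s hs
      rw [ht]
      have e1 := I_dom cx (V := mapCls hy hi φ (hcls hy hi)) (H := hcls hy hi)
        (fun v hv => hv) (B := β') (f := h) hh (by
          rintro _ ⟨v, hv, rfl⟩
          exact hβ' v hv) hs
      calc ((I (perm hy hi φ (hcls hy hi) ::ₘ s) : ℕ) : ℝ) ≤ (β' : ℝ) *
            (I (hcls hy hi ::ₘ s) : ℝ) := by exact_mod_cast e1
        _ ≤ ((β' : ℝ) + 1) * (I (hcls hy hi ::ₘ s) : ℝ) :=
          mul_le_mul_of_nonneg_right (by linarith) (Nat.cast_nonneg _)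
    · -- D_add
      intro r q v hv s hs
      rw [ht, hDV]
      have e1 := I_add cx (D := mulCls (fin_affS i) (one_affS hi) (M r q) (hpow hy hi (v - 1)))
        (V := M r q) (V' := hpow hy hi (v - 1)) le_rfl hs
      have e2 := I_dom cx (V := hpow hy hi (v - 1)) (H := hcls hy hi) (fun v hv => hv)
        (B := v - 1 + 1) (f := 1) one_ne_zero (hpow_bnd hy hi (v - 1)) hs
      have e3 : v - 1 + 1 = v := by omega
      rw [e3] at e2
      beta_reduce
      exact_mod_cast e1.trans (Nat.add_le_add_left e2 _)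
    · -- D_M
      intro r q v hv s hs
      rw [ht, one_mul, hDV]
      refine Nat.cast_le.2 (I_mono cx (g := 1) one_ne_zero (fun w hw => ?_) hs)
      rw [one_mul]
      have := Submodule.mul_mem_mul hw (hpow hy hi (v - 1)).one
      rwa [mul_one] at this
    · -- D_H
      intro r q v hv s hs
      rw [ht, hDV]
      have e1 := I_pow cx (V := hcls hy hi)
        (D := mulCls (fin_affS i) (one_affS hi) (M r q) (hpow hy hi (v - 1))) (q := v) hv
        (fun w hw => by
          have e2 := hpow_pow hy hi (v - 1) w hw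
          have e3 : v - 1 + 1 = v := by omega
          rw [e3] at e2
          have := Submodule.mul_mem_mul (M r q).one e2
          rwa [one_mul] at this) hs
      beta_reduce
      exact_mod_cast e1
    · -- eps
      intro q
      rw [ht]
      have hcard : (Multiset.replicate ν (M 0 q) + Multiset.replicate (n - ν)
          (hcls hy hi)).card = n := by
        rw [Multiset.card_add, Multiset.card_replicate, Multiset.card_replicate]
        omega
      have e1 : degreeOver (u q) (fun j : Fin ν => g q j.succ / g q 0) =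
          dm ℂ (toM (u q) + toM (fun j : Fin ν => g q j.succ / g q 0)) :=
        deg_dm (toM_set _) (toM_set _)
      obtain ⟨Q', hQ', e2⟩ := replace_pencils' hy hn hi (toM (u q))
        (toM (fun j : Fin ν => g q j.succ / g q 0))
        (by rw [Multiset.card_add, toM_card, toM_card]; omega) (fun z hz => by
          obtain ⟨j, rfl⟩ := mem_toM.1 hz
          exact hu q j)
      rw [toM_card] at hQ'
      have hsel : Sel (toM (fun j : Fin ν => g q j.succ / g q 0))
          (Multiset.replicate ν (M 0 q)) := by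
        rw [sel_rep]
        refine ⟨toM_card _, fun z hz => ?_⟩
        obtain ⟨j, rfl⟩ := mem_toM.1 hz
        rw [hMmem]
        have e3 : g q 0 * (g q j.succ / g q 0) = g q j.succ := mul_div_cancel₀ _ (hg0 q)
        rw [e3, hAs0]
        refine Lsp_mono (Nat.le_succ _) hA0.1 (fun P hP => ?_) (hg q j.succ)
        change A0 P ≤ A0 P + Hy P
        have := hHy.1 P hP
        linarith
      have e3 := le_I cx hcard (sel_add hsel hQ')
      have e4 : degreeOver (u q) (fun j : Fin ν => g q j.succ / g q 0) ≤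
          I (Multiset.replicate ν (M 0 q) + Multiset.replicate (n - ν) (hcls hy hi)) := by
        rw [e1]
        rw [add_comm] at e3
        exact e2.trans e3
      have e5 : ((degreeOver (u q) (fun j : Fin ν => g q j.succ / g q 0) : ℕ) : ℝ) ≤
          (I (Multiset.replicate ν (M 0 q) + Multiset.replicate (n - ν) (hcls hy hi)) : ℝ) :=
        Nat.cast_le.2 e4
      exact (hdeg q).le.trans e5
    · -- zero
      intro hν1 r δ hδ
      obtain ⟨tt, htt, m0, hnd⟩ := hnum' hν1 (As r).1 (As r).2 δ hδ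
      obtain ⟨q0, hq0⟩ := exists_nat_gt (2 / tt)
      filter_upwards [Filter.eventually_ge_atTop (max m0 (q0 + 1))] with q hq
      have hq1 : m0 ≤ q := (le_max_left _ _).trans hq
      have hq2 : q0 + 1 ≤ q := (le_max_right _ _).trans hq
      rw [ht]
      have hcard : (Multiset.replicate (ν + 1) (M r q) + Multiset.replicate (n - (ν + 1))
          (hcls hy hi)).card = n := by
        rw [Multiset.card_add, Multiset.card_replicate, Multiset.card_replicate]
        omega
      obtain ⟨W, hW, e⟩ := exists_max cx hcard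
      obtain ⟨W1, W2, s1, s2, rfl⟩ := sel_add_right hW
      rw [sel_rep] at s1 s2
      obtain ⟨w1, hw1⟩ := exists_fin W1 s1.1
      obtain ⟨w2, hw2⟩ := exists_fin W2 s2.1
      have hw1m : ∀ j, w1 j ∈ (M r q).V := by
        intro j
        have h3 : w1 j ∈ {x | x ∈ W1} := by
          rw [hw1]
          exact ⟨j, rfl⟩
        exact s1.2 _ h3
      have hw2m : ∀ j, w2 j ∈ Submodule.span ℂ (affS y i) := by
        intro j
        have h3 : w2 j ∈ {x | x ∈ W2} := by
          rw [hw2]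
          exact ⟨j, rfl⟩
        exact s2.2 _ h3
      have hbt : ((b q + 1 : ℕ) : ℝ) ≤ tt * m q := by
        push_cast
        have hmq : ((q : ℝ) + 1) ≤ m q := by exact_mod_cast hm q
        have hbq := hb q
        have hq2' : (q0 : ℝ) + 1 ≤ q := by exact_mod_cast hq2
        have e1 : 1 / ((q : ℝ) + 1) ≤ tt / 2 := by
          rw [div_le_div_iff₀ (by positivity) (by norm_num)]
          have e2 : 2 / tt * tt = 2 := by field_simp
          have e3 := mul_lt_mul_of_pos_right hq0 htt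
          rw [e2] at e3
          nlinarith
        have e2 : (1 : ℝ) ≤ 1 / ((q : ℝ) + 1) * m q := by
          rw [one_div, inv_mul_eq_div, le_div_iff₀ (by positivity), one_mul]
          exact hmq
        have e3 : 1 / ((q : ℝ) + 1) * m q ≤ tt / 2 * m q :=
          mul_le_mul_of_nonneg_right e1 (Nat.cast_nonneg _)
        linarith
      have hbd := hnd (m q) (b q + 1) (by have := hm q; omega) hbt w2
        (fun a => pencil_span hi (hw2m a))
        (Fin.cons (frm x (m q) (g q 0)) fun j => frm x (m q) (g q 0 * w1 j)) E (fun j => by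
          refine Fin.cases ?_ (fun j => ?_) j
          · rw [Fin.cons_zero, isSection_iff hc' (frm_pluri x _ _), frm_self hE]
            have := hmem r q i
            rwa [div_self hi, mul_one] at this
          · rw [Fin.cons_succ, isSection_iff hc' (frm_pluri x _ _), frm_self hE]
            exact (hMmem r q _).1 (hw1m j)) (by
          rw [Fin.cons_zero, frm_self hE]
          exact hg0 q)
      have e1 : (fun j : Fin (ν + 1) => (Fin.cons (frm x (m q) (g q 0))
          (fun j => frm x (m q) (g q 0 * w1 j)) : Fin (ν + 1 + 1) → _ → K) j.succ E /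
          (Fin.cons (frm x (m q) (g q 0)) (fun j => frm x (m q) (g q 0 * w1 j)) :
            Fin (ν + 1 + 1) → _ → K) 0 E) = w1 := by
        funext j
        rw [Fin.cons_succ, Fin.cons_zero, frm_self hE, frm_self hE]
        exact mul_div_cancel_left₀ _ (hg0 q)
      rw [e1, deg_dm hw2 hw1, add_comm W2 W1, e] at hbd
      exact hbd
  have hfin := data.growth hL hlt (by
    intro j hj
    obtain ⟨a, ha, A, hA⟩ := hyp j hj
    refine ⟨a, ha, A, fun l => ?_⟩
    rw [perm_pow, ht]
    exact hA l)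
  obtain ⟨A, hA⟩ := hfin
  refine ⟨A, fun l p hp => ?_⟩
  have := hA l p hp
  rw [perm_pow, ht] at this
  exact this

end

end Pool.Agent.N110
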