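import Mathlib

/-!
Reverse Khovanskii-Teissier inequalities for positive forms on multisets with the exchange
property.
-/

set_option autoImplicit false

namespace Pool.Agent.N110

variable {α : Type*}

/-- the exchange property for forms on multisets with `n` elements -/
def Exch (n : ℕ) (t : Multiset α → ℝ) : Prop :=
  ∀ (R : Multiset α), R.card + 2 = n → ∀ a b c d : α,
    t (a ::ₘ b ::ₘ R) * t (c ::ₘ d ::ₘ R) ≤
      2 * (t (a ::ₘ c ::ₘ R) * t (b ::ₘ d ::ₘ R) + t (a ::ₘ d ::ₘ R) * t (b ::ₘ c ::ₘ R))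

variable {n : ℕ} {t : Multiset α → ℝ}

open Multiset

/-- one element is moved -/
theorem rkt1 (hpos : ∀ s : Multiset α, s.card = n → 0 < t s) (hex : Exch n t) (D a : α)
    (Y : Multiset α) : ∀ R : Multiset α, R.card + Y.card + 1 = n →
    t (a ::ₘ (Y + R)) * t (replicate (Y.card + 1) D + R) ≤
      4 ^ Y.card * (t (a ::ₘ (replicate Y.card D + R)) * t (D ::ₘ (Y + R))) := by
  induction Y using Multiset.induction_on with
  | empty => intro R _; simp
  | cons b Y ih =>
    intro R hR
    rw [card_cons] at hR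
    have h1 := hex (Y + R) (by rw [card_add]; omega) a b D D
    have h2 := ih (D ::ₘ R) (by rw [card_cons]; omega)
    have e1 : a ::ₘ (Y + D ::ₘ R) = a ::ₘ D ::ₘ (Y + R) := by
      rw [add_cons]
    have e2 : replicate (Y.card + 1) D + D ::ₘ R = replicate ((b ::ₘ Y).card + 1) D + R := by
      rw [card_cons, add_cons, ← cons_add, ← replicate_succ]
    have e3 : a ::ₘ (replicate Y.card D + D ::ₘ R) = a ::ₘ (replicate (b ::ₘ Y).card D + R) := by
      rw [card_cons, add_cons, ← cons_add, ← replicate_succ]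
    have e4 : D ::ₘ (Y + D ::ₘ R) = D ::ₘ D ::ₘ (Y + R) := by
      rw [add_cons]
    have e5 : a ::ₘ ((b ::ₘ Y) + R) = a ::ₘ b ::ₘ (Y + R) := by rw [cons_add]
    have e6 : D ::ₘ ((b ::ₘ Y) + R) = b ::ₘ D ::ₘ (Y + R) := by rw [cons_add, cons_swap]
    rw [e1, e2, e3, e4] at h2
    rw [e5, e6, card_cons]
    rw [card_cons] at h2
    have p1 : 0 < t (D ::ₘ D ::ₘ (Y + R)) := hpos _ (by simp only [card_cons, card_add]; omega)
    have p2 : 0 < t (a ::ₘ D ::ₘ (Y + R)) := hpos _ (by simp only [card_cons, card_add]; omega)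
    have p3 : 0 < t (a ::ₘ b ::ₘ (Y + R)) := hpos _ (by simp only [card_cons, card_add]; omega)
    have p4 : 0 < t (b ::ₘ D ::ₘ (Y + R)) := hpos _ (by simp only [card_cons, card_add]; omega)
    have p5 : 0 < t (a ::ₘ (replicate (Y.card + 1) D + R)) :=
      hpos _ (by simp only [card_cons, card_add, card_replicate]; omega)
    have p6 : 0 < t (replicate (Y.card + 1 + 1) D + R) :=
      hpos _ (by simp only [card_add, card_replicate]; omega)
    obtain ⟨A, hA⟩ : ∃ A, A = t (a ::ₘ b ::ₘ (Y + R)) := ⟨_, rfl⟩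
    obtain ⟨B, hB⟩ : ∃ B, B = t (D ::ₘ D ::ₘ (Y + R)) := ⟨_, rfl⟩
    obtain ⟨C, hC⟩ : ∃ C, C = t (a ::ₘ D ::ₘ (Y + R)) := ⟨_, rfl⟩
    obtain ⟨E, hE⟩ : ∃ E, E = t (b ::ₘ D ::ₘ (Y + R)) := ⟨_, rfl⟩
    obtain ⟨F, hF⟩ : ∃ F, F = t (replicate (Y.card + 1 + 1) D + R) := ⟨_, rfl⟩
    obtain ⟨G, hG⟩ : ∃ G, G = t (a ::ₘ (replicate (Y.card + 1) D + R)) := ⟨_, rfl⟩
    rw [← hA, ← hB, ← hC, ← hE] at h1
    rw [← hB, ← hC, ← hF, ← hG] at h2
    rw [← hA, ← hE, ← hF, ← hG]
    rw [← hA] at p3
    rw [← hB] at p1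
    rw [← hC] at p2
    rw [← hE] at p4
    rw [← hF] at p6
    rw [← hG] at p5
    have h3 : A * B ≤ 4 * (C * E) := by linarith
    have h4 : (A * B) * (C * F) ≤ (4 * (C * E)) * (4 ^ Y.card * (G * B)) :=
      mul_le_mul h3 h2 (by positivity) (by positivity)
    have h5 : (B * C) * (A * F) ≤ (B * C) * (4 ^ (Y.card + 1) * (G * E)) := by
      rw [pow_succ]
      linarith
    exact le_of_mul_le_mul_left h5 (by positivity)

/-- **The reverse Khovanskii-Teissier inequality.** -/
theorem rkt (hpos : ∀ s : Multiset α, s.card = n → 0 < t s) (hex : Exch n t) (D : α)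
    (X G : Multiset α) : ∀ R : Multiset α, R.card + X.card + G.card = n →
    t (X + (G + R)) * t (replicate (X.card + G.card) D + R) ≤
      4 ^ (n * G.card) * (t (X + (replicate G.card D + R)) * t (G + (replicate X.card D + R))) := by
  induction G using Multiset.induction_on with
  | empty => intro R _; simp
  | cons g G ih =>
    intro R hR
    rw [card_cons] at hR
    have h1 := ih (g ::ₘ R) (by rw [card_cons]; omega)
    have h2 := rkt1 hpos hex D g (X + replicate G.card D) R (by
      rw [card_add, card_replicate]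
      omega)
    have c1 : (X + replicate G.card D).card = X.card + G.card := by
      rw [card_add, card_replicate]
    rw [c1] at h2
    -- the forms
    obtain ⟨A, hA⟩ : ∃ A, A = t (X + ((g ::ₘ G) + R)) := ⟨_, rfl⟩
    obtain ⟨B, hB⟩ : ∃ B, B = t (replicate (X.card + (g ::ₘ G).card) D + R) := ⟨_, rfl⟩
    obtain ⟨C, hC⟩ : ∃ C, C = t (X + (replicate (g ::ₘ G).card D + R)) := ⟨_, rfl⟩
    obtain ⟨E, hE⟩ : ∃ E, E = t ((g ::ₘ G) + (replicate X.card D + R)) := ⟨_, rfl⟩
    obtain ⟨F, hF⟩ : ∃ F, F = t (g ::ₘ (X + (replicate G.card D + R))) := ⟨_, rfl⟩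
    obtain ⟨H, hH⟩ : ∃ H, H = t (g ::ₘ (replicate (X.card + G.card) D + R)) := ⟨_, rfl⟩
    have e1 : X + (G + g ::ₘ R) = X + ((g ::ₘ G) + R) := by
      rw [add_cons, cons_add]
    have e2 : replicate (X.card + G.card) D + g ::ₘ R =
        g ::ₘ (replicate (X.card + G.card) D + R) := by rw [add_cons]
    have e3 : X + (replicate G.card D + g ::ₘ R) = g ::ₘ (X + (replicate G.card D + R)) := by
      rw [add_cons, add_cons]
    have e4 : G + (replicate X.card D + g ::ₘ R) = (g ::ₘ G) + (replicate X.card D + R) := by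
      rw [add_cons, add_cons, cons_add]
    have e5 : g ::ₘ (X + replicate G.card D + R) = g ::ₘ (X + (replicate G.card D + R)) := by
      rw [add_assoc]
    have e6 : replicate (X.card + G.card + 1) D + R =
        replicate (X.card + (g ::ₘ G).card) D + R := by rw [card_cons, add_assoc]
    have e7 : D ::ₘ (X + replicate G.card D + R) = X + (replicate (g ::ₘ G).card D + R) := by
      rw [card_cons, replicate_succ, cons_add, add_cons, add_assoc]
    rw [e1, e2, e3, e4, ← hA, ← hH, ← hF, ← hE] at h1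
    rw [e5, e6, e7, ← hF, ← hB, ← hH, ← hC] at h2
    rw [← hA, ← hB, ← hC, ← hE, card_cons]
    have pF : 0 < F := by
      rw [hF]
      exact hpos _ (by simp only [card_cons, card_add, card_replicate]; omega)
    have pH : 0 < H := by
      rw [hH]
      exact hpos _ (by simp only [card_cons, card_add, card_replicate]; omega)
    have pA : 0 < A := by
      rw [hA]
      exact hpos _ (by simp only [card_cons, card_add]; omega)
    have pB : 0 < B := by
      rw [hB]
      exact hpos _ (by simp only [card_cons, card_add, card_replicate]; omega)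
    have pC : 0 < C := by
      rw [hC]
      exact hpos _ (by simp only [card_cons, card_add, card_replicate]; omega)
    have pE : 0 < E := by
      rw [hE]
      exact hpos _ (by simp only [card_cons, card_add, card_replicate]; omega)
    have h3 : (4 : ℝ) ^ (X.card + G.card) ≤ 4 ^ n := pow_le_pow_right₀ (by norm_num) (by omega)
    have h4 : F * B ≤ 4 ^ n * (H * C) :=
      h2.trans (mul_le_mul_of_nonneg_right h3 (by positivity))
    have h5 : (A * H) * (F * B) ≤ (4 ^ (n * G.card) * (F * E)) * (4 ^ n * (H * C)) :=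
      mul_le_mul h1 h4 (by positivity) (by positivity)
    have h6 : (H * F) * (A * B) ≤ (H * F) * (4 ^ (n * (G.card + 1)) * (C * E)) := by
      rw [mul_add, mul_one, pow_add]
      linarith
    exact le_of_mul_le_mul_left h6 (by positivity)

end Pool.Agent.N110
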