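import Pool.Agent.N110.Pair
import Pool.Agent.N110.Ex

/-!
Spaces of functions and their intersection numbers.
-/

set_option autoImplicit false
set_option linter.overlappingInstances false
set_option linter.unusedSectionVars false

open FF Module IntermediateField Pool.Agent.R887

namespace Pool.Agent.N110

section

variable {k K : Type} [Field k] [Field K] [Algebra k K]

/-- a space of functions which contains `1`, contains sufficiently many algebraically independent
functions, and is bounded by the functions in `S` -/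
structure Cls (k : Type) {K : Type} [Field k] [Field K] [Algebra k K] (S : Set K) where
  V : Submodule k K
  one : (1 : K) ∈ V
  big : Algebra.IsAlgebraic (IntermediateField.adjoin k (V : Set K)) K
  dom : ∃ (B : ℕ) (f : K), f ≠ 0 ∧ ∀ v ∈ V, Bnd k S B (f * v)

variable {S : Set K}

/-- the multiset `W` of functions is chosen in the multiset `s` of spaces -/
def Sel (W : Multiset K) (s : Multiset (Cls k S)) : Prop :=
  Multiset.Rel (fun x (V : Cls k S) => x ∈ V.V) W s

theorem Sel.card {W : Multiset K} {s : Multiset (Cls k S)} (h : Sel W s) : W.card = s.card :=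
  Multiset.card_eq_card_of_rel h

theorem sel_cons {x : K} {V : Cls k S} (hx : x ∈ V.V) {W : Multiset K} {s : Multiset (Cls k S)}
    (h : Sel W s) : Sel (x ::ₘ W) (V ::ₘ s) := Multiset.Rel.cons hx h

theorem sel_cons_right {W : Multiset K} {V : Cls k S} {s : Multiset (Cls k S)}
    (h : Sel W (V ::ₘ s)) : ∃ x W', x ∈ V.V ∧ Sel W' s ∧ W = x ::ₘ W' := by
  unfold Sel at h
  rw [Multiset.rel_cons_right] at h
  exact h

theorem sel_exists (s : Multiset (Cls k S)) : ∃ W, Sel W s := by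
  induction s using Multiset.induction_on with
  | empty => exact ⟨0, Multiset.Rel.zero⟩
  | cons V s ih =>
    obtain ⟨W, hW⟩ := ih
    exact ⟨1 ::ₘ W, sel_cons V.one hW⟩

/-- the intersection number -/
noncomputable def I (s : Multiset (Cls k S)) : ℕ := sSup {d | ∃ W, Sel W s ∧ d = dm k W}

variable [CharZero k] {n : ℕ}

/-- common functions in general position -/
theorem common (hn : Algebra.trdeg k K = n) (R : Multiset (Cls k S)) :
    ∀ (W W' Q Q' : Multiset K), Sel W R → Sel W' R → (W + Q).card = n → (W' + Q').card = n →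
      dm k (W + Q) ≠ 0 → dm k (W' + Q') ≠ 0 →
      ∃ W'', Sel W'' R ∧ dm k (W + Q) ≤ dm k (W'' + Q) ∧ dm k (W' + Q') ≤ dm k (W'' + Q') := by
  classical
  induction R using Multiset.induction_on with
  | empty =>
    intro W W' Q Q' h1 h2 _ _ _ _
    have e1 : W = 0 := Multiset.card_eq_zero.1 (by rw [h1.card]; rfl)
    have e2 : W' = 0 := Multiset.card_eq_zero.1 (by rw [h2.card]; rfl)
    subst e1 e2
    exact ⟨0, h1, le_rfl, le_rfl⟩
  | cons V R ih =>
    intro W W' Q Q' h1 h2 c1 c2 d1 d2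
    obtain ⟨x, W1, hx, hW1, rfl⟩ := sel_cons_right h1
    obtain ⟨x', W1', hx', hW1', rfl⟩ := sel_cons_right h2
    rw [Multiset.cons_add] at c1 c2 d1 d2
    rw [Multiset.card_cons] at c1 c2
    obtain ⟨U, hU1, hU2⟩ := improve hn c1 d1
    obtain ⟨U', hU1', hU2'⟩ := improve hn c2 d2
    obtain ⟨v, hvV, hv⟩ := avoid V.V (U ∪ U') (fun X hX => by
      rcases Finset.mem_union.1 hX with h | h
      · exact ⟨x, hx, hU1 X h⟩
      · exact ⟨x', hx', hU1' X h⟩)
    have i1 := hU2 v fun X hX => hv X (Finset.mem_union_left _ hX)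
    have i2 := hU2' v fun X hX => hv X (Finset.mem_union_right _ hX)
    obtain ⟨W'', hs, j1, j2⟩ := ih W1 W1' (v ::ₘ Q) (v ::ₘ Q') hW1 hW1'
      (by rw [Multiset.add_cons, Multiset.card_cons]; exact c1)
      (by rw [Multiset.add_cons, Multiset.card_cons]; exact c2)
      (by
        rw [Multiset.add_cons]
        exact (Nat.pos_of_ne_zero d1 |>.trans_le i1).ne')
      (by
        rw [Multiset.add_cons]
        exact (Nat.pos_of_ne_zero d2 |>.trans_le i2).ne')
    rw [Multiset.add_cons, Multiset.add_cons] at j1 j2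
    refine ⟨v ::ₘ W'', sel_cons hvV hs, ?_, ?_⟩
    · rw [Multiset.cons_add, Multiset.cons_add]
      exact i1.trans j1
    · rw [Multiset.cons_add, Multiset.cons_add]
      exact i2.trans j2

/-- the standing assumptions -/
structure Ctx (n : ℕ) (k : Type) {K : Type} [Field k] [Field K] [Algebra k K] (S : Set K) :
    Prop where
  hn : Algebra.trdeg k K = n
  ess : Algebra.EssFiniteType k K
  fin : S.Finite
  one : (1 : K) ∈ S
  bez : ∃ C : ℕ, ∀ W : Multiset K, W.card = n → (∀ x ∈ W, x ∈ Submodule.span k S) → dm k W ≤ C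

variable (c : Ctx n k S)

include c

theorem bdd (s : Multiset (Cls k S)) : ∃ C : ℕ, ∀ Q : Multiset K, Q.card + s.card = n →
    (∀ x ∈ Q, x ∈ Submodule.span k S) → ∀ W, Sel W s → dm k (W + Q) ≤ C := by
  induction s using Multiset.induction_on with
  | empty =>
    obtain ⟨C, hC⟩ := c.bez
    refine ⟨C, fun Q hQ hx W hW => ?_⟩
    have e1 : W = 0 := Multiset.card_eq_zero.1 (by rw [hW.card]; rfl)
    subst e1
    rw [zero_add]
    exact hC Q (by simpa using hQ) hx
  | cons V s ih =>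
    obtain ⟨C, hC⟩ := ih
    obtain ⟨B, f, hf, hB⟩ := V.dom
    refine ⟨B * C, fun Q hQ hx W hW => ?_⟩
    obtain ⟨x, W', hxV, hW', rfl⟩ := sel_cons_right hW
    rw [Multiset.card_cons] at hQ
    obtain ⟨v, hv, hle⟩ := repl c.hn c.fin c.one (B := B) (f₀ := f * 1) (f₁ := f * x)
      (by rwa [mul_one]) (hB 1 V.one) (hB x hxV) (W := W' + Q)
      (by rw [Multiset.card_add, hW'.card]; omega)
    rw [mul_div_mul_left _ _ hf, div_one] at hle
    rw [Multiset.cons_add]
    refine hle.trans (Nat.mul_le_mul_left _ ?_)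
    rw [← Multiset.add_cons]
    refine hC (v ::ₘ Q) (by rw [Multiset.card_cons]; omega) ?_ W' hW'
    intro z hz
    rcases Multiset.mem_cons.1 hz with rfl | hz
    · exact hv
    · exact hx z hz

theorem bddAbove {s : Multiset (Cls k S)} (hs : s.card = n) :
    BddAbove {d | ∃ W, Sel W s ∧ d = dm k W} := by
  obtain ⟨C, hC⟩ := bdd c s
  refine ⟨C, ?_⟩
  rintro d ⟨W, hW, rfl⟩
  have := hC 0 (by simpa using hs) (by simp) W hW
  rwa [add_zero] at this

theorem le_I {s : Multiset (Cls k S)} (hs : s.card = n) {W : Multiset K} (hW : Sel W s) :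
    dm k W ≤ I s := le_csSup (bddAbove c hs) ⟨W, hW, rfl⟩

theorem exists_max {s : Multiset (Cls k S)} (hs : s.card = n) :
    ∃ W, Sel W s ∧ dm k W = I s := by
  obtain ⟨W, hW⟩ := sel_exists s
  obtain ⟨W', hW', h⟩ := Nat.sSup_mem (s := {d | ∃ W, Sel W s ∧ d = dm k W})
    ⟨_, W, hW, rfl⟩ (bddAbove c hs)
  exact ⟨W', hW', h.symm⟩

/-- the intersection numbers are positive -/
theorem I_pos {s : Multiset (Cls k S)} (hs : s.card = n) : 0 < I s := by
  have hess := c.ess
  have key : ∀ s : Multiset (Cls k S), s.card ≤ n → ∃ W, Sel W s ∧ Ind n k W ∧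
      n ≤ Algebra.trdeg (gen k W) K + W.card := by
    intro s
    induction s using Multiset.induction_on with
    | empty =>
      intro _
      refine ⟨0, Multiset.Rel.zero, ind_zero c.hn, ?_⟩
      rw [← c.hn]
      exact trdeg_le_gen 0
    | cons V s ih =>
      intro hc
      rw [Multiset.card_cons] at hc
      obtain ⟨W, hW, hi, hl⟩ := ih (by omega)
      have h1 : Algebra.trdeg (gen k W) K ≠ 0 := by
        intro h0
        rw [h0, zero_add, hW.card] at hl
        have : n ≤ s.card := by exact_mod_cast hl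
        omega
      have h2 : Algebra.Transcendental (gen k W) K := _root_.trdeg_ne_zero_iff.1 h1
      obtain ⟨z, hz⟩ := h2.transcendental
      obtain ⟨e, he, hez⟩ := exists_transc V.big hz
      refine ⟨e ::ₘ W, sel_cons he hW, hi.cons hez, ?_⟩
      rw [← c.hn]
      exact trdeg_le_gen _
  obtain ⟨W, hW, hi, -⟩ := key s hs.le
  exact (Nat.pos_of_ne_zero (hi.dm_ne (by rw [hW.card, hs]))).trans_le (le_I c hs hW)

/-- **The exchange inequality.** -/
theorem exch : Exch n (fun s : Multiset (Cls k S) => (I s : ℝ)) := by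
  classical
  have hess := c.ess
  intro R hR a b d e
  have hcard : ∀ x y : Cls k S, (x ::ₘ y ::ₘ R).card = n := fun x y => by
    simp only [Multiset.card_cons]
    omega
  obtain ⟨W0, hW0, e0⟩ := exists_max c (hcard a b)
  obtain ⟨W1, hW1, e1⟩ := exists_max c (hcard d e)
  obtain ⟨x, W0', hx, hW0', rfl⟩ := sel_cons_right hW0
  obtain ⟨y, W, hy, hW, rfl⟩ := sel_cons_right hW0'
  obtain ⟨s, W1', hs, hW1', rfl⟩ := sel_cons_right hW1
  obtain ⟨t, W', ht, hW', rfl⟩ := sel_cons_right hW1'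
  have p0 := I_pos c (hcard a b)
  have p1 := I_pos c (hcard d e)
  rw [← e0] at p0
  rw [← e1] at p1
  have eq1 : ∀ (x y : K) (W : Multiset K), W + (x ::ₘ y ::ₘ 0) = x ::ₘ y ::ₘ W := by
    intro x y W
    rw [Multiset.add_cons, Multiset.add_cons, add_zero]
  have cW : W.card = R.card := hW.card
  have cW' : W'.card = R.card := hW'.card
  obtain ⟨W2, hW2, i0, i1⟩ := common c.hn R W W' (x ::ₘ y ::ₘ 0) (s ::ₘ t ::ₘ 0) hW hW'
    (by rw [eq1]; simp only [Multiset.card_cons]; omega)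
    (by rw [eq1]; simp only [Multiset.card_cons]; omega)
    (by rw [eq1]; exact p0.ne') (by rw [eq1]; exact p1.ne')
  rw [eq1, eq1] at i0 i1
  have cW2 : W2.card = R.card := hW2.card
  have q0 : dm k (x ::ₘ y ::ₘ W2) ≠ 0 := (p0.trans_le i0).ne'
  have q1 : dm k (s ::ₘ t ::ₘ W2) ≠ 0 := (p1.trans_le i1).ne'
  have q0' : dm k (y ::ₘ x ::ₘ W2) ≠ 0 := by rwa [Multiset.cons_swap]
  have hind : Ind n k W2 := ((ind_of_dm q0 (by simp only [Multiset.card_cons]; omega)).tail).tail
  have hxt : Transcendental (gen k (y ::ₘ W2)) x :=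
    transc_of_dm c.hn (by simp only [Multiset.card_cons]; omega) q0
  have hyt : Transcendental (gen k (x ::ₘ W2)) y :=
    transc_of_dm c.hn (by simp only [Multiset.card_cons]; omega) q0'
  -- transcendental over a smaller field
  have small : ∀ (u v : K), Transcendental (gen k (u ::ₘ W2)) v → Transcendental (gen k W2) v := by
    intro u v h
    rw [gen_cons] at h
    exact transc_small h
  -- the choice of `s'`
  obtain ⟨U1, hU1, hU1'⟩ := improve c.hn (z := s) (W := t ::ₘ W2)
    (by simp only [Multiset.card_cons]; omega) q1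
  obtain ⟨s', hs'V, hs'⟩ := avoid d.V (U1 ∪ {algSub (gen k (x ::ₘ W2)), algSub (gen k (y ::ₘ W2))})
    (fun X hX => by
      rcases Finset.mem_union.1 hX with h | h
      · exact ⟨s, hs, hU1 X h⟩
      · rw [Finset.mem_insert, Finset.mem_singleton] at h
        rcases h with rfl | rfl
        · exact exists_transc d.big hyt
        · exact exists_transc d.big hxt)
  have j1 := hU1' s' fun X hX => hs' X (Finset.mem_union_left _ hX)
  have hxs : Transcendental (gen k (x ::ₘ W2)) s' := hs' (algSub (gen k (x ::ₘ W2))) (by simp)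
  have hys : Transcendental (gen k (y ::ₘ W2)) s' := hs' (algSub (gen k (y ::ₘ W2))) (by simp)
  have q2 : dm k (s' ::ₘ t ::ₘ W2) ≠ 0 := ((Nat.pos_of_ne_zero q1).trans_le j1).ne'
  -- the choice of `t'`
  rw [Multiset.cons_swap] at q2
  obtain ⟨U2, hU2, hU2'⟩ := improve c.hn (z := t) (W := s' ::ₘ W2)
    (by simp only [Multiset.card_cons]; omega) q2
  obtain ⟨t', ht'V, ht'⟩ := avoid e.V (U2 ∪ {algSub (gen k (x ::ₘ W2)), algSub (gen k (y ::ₘ W2))})
    (fun X hX => by
      rcases Finset.mem_union.1 hX with h | h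
      · exact ⟨t, ht, hU2 X h⟩
      · rw [Finset.mem_insert, Finset.mem_singleton] at h
        rcases h with rfl | rfl
        · exact exists_transc e.big hyt
        · exact exists_transc e.big hxt)
  have j2 := hU2' t' fun X hX => ht' X (Finset.mem_union_left _ hX)
  have hxt' : Transcendental (gen k (x ::ₘ W2)) t' := ht' (algSub (gen k (x ::ₘ W2))) (by simp)
  have hyt' : Transcendental (gen k (y ::ₘ W2)) t' := ht' (algSub (gen k (y ::ₘ W2))) (by simp)
  have q3 : dm k (t' ::ₘ s' ::ₘ W2) ≠ 0 := ((Nat.pos_of_ne_zero q2).trans_le j2).ne'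
  have hst : Transcendental (gen k (s' ::ₘ W2)) t' :=
    transc_of_dm c.hn (by simp only [Multiset.card_cons]; omega) q3
  have key := exch_elem (by omega : W2.card + 2 = n) hind (small _ _ hxt) hyt (small _ _ hyt)
    (small _ _ hxs) hst hxs hxt' hys hyt'
  -- the bounds
  have b1 : dm k (x ::ₘ s' ::ₘ W2) ≤ I (a ::ₘ d ::ₘ R) :=
    le_I c (hcard _ _) (sel_cons hx (sel_cons hs'V hW2))
  have b2 : dm k (y ::ₘ t' ::ₘ W2) ≤ I (b ::ₘ e ::ₘ R) :=
    le_I c (hcard _ _) (sel_cons hy (sel_cons ht'V hW2))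
  have b3 : dm k (x ::ₘ t' ::ₘ W2) ≤ I (a ::ₘ e ::ₘ R) :=
    le_I c (hcard _ _) (sel_cons hx (sel_cons ht'V hW2))
  have b4 : dm k (y ::ₘ s' ::ₘ W2) ≤ I (b ::ₘ d ::ₘ R) :=
    le_I c (hcard _ _) (sel_cons hy (sel_cons hs'V hW2))
  have l1 : dm k (s ::ₘ t ::ₘ W') ≤ dm k (s' ::ₘ t' ::ₘ W2) := by
    rw [Multiset.cons_swap s' t]at j1
    rw [Multiset.cons_swap s' t']
    exact i1.trans (j1.trans j2)
  have hfin : I (a ::ₘ b ::ₘ R) * I (d ::ₘ e ::ₘ R) ≤
      2 * (I (a ::ₘ d ::ₘ R) * I (b ::ₘ e ::ₘ R) + I (a ::ₘ e ::ₘ R) * I (b ::ₘ d ::ₘ R)) := by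
    rw [← e0, ← e1]
    refine (Nat.mul_le_mul i0 l1).trans (key.trans ?_)
    exact Nat.mul_le_mul_left _ (Nat.add_le_add (Nat.mul_le_mul b1 b2) (Nat.mul_le_mul b3 b4))
  have := (Nat.cast_le (α := ℝ)).2 hfin
  push_cast at this
  exact this

/-- comparison of spaces, up to a factor -/
theorem I_mono {V V' : Cls k S} {g : K} (hg : g ≠ 0) (h : ∀ v ∈ V.V, g * v ∈ V'.V)
    {s : Multiset (Cls k S)} (hs : s.card + 1 = n) : I (V ::ₘ s) ≤ I (V' ::ₘ s) := by
  obtain ⟨W, hW, e⟩ := exists_max c (s := V ::ₘ s) (by rw [Multiset.card_cons]; exact hs)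
  obtain ⟨x, W', hx, hW', rfl⟩ := sel_cons_right hW
  have hgV : g ∈ V'.V := by
    have := h 1 V.one
    rwa [mul_one] at this
  have hbnd : ∀ f ∈ ({1, g, g * x} : Set K), Bnd k ({1, g, g * x} : Set K) 1 f := by
    intro f hf P
    by_cases hf0 : f = 0
    · refine ⟨1, by simp, one_ne_zero, ?_⟩
      rw [hf0, P.ord_one, P.ord_zero]
      simp
    · exact ⟨f, hf, hf0, by simp⟩
  obtain ⟨v, hv, hle⟩ := repl c.hn (S := ({1, g, g * x} : Set K)) (by simp) (by simp) (B := 1)
    (f₀ := g) (f₁ := g * x) hg (hbnd _ (by simp)) (hbnd _ (by simp)) (W := W')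
    (by rw [hW'.card]; exact hs)
  rw [mul_div_cancel_left₀ _ hg, one_mul] at hle
  have hvV : v ∈ V'.V := by
    have h1 : Submodule.span k ({1, g, g * x} : Set K) ≤ V'.V := by
      rw [Submodule.span_le]
      rintro z (rfl | rfl | rfl)
      · exact V'.one
      · exact hgV
      · exact h x hx
    exact h1 hv
  rw [← e]
  exact hle.trans (le_I c (by rw [Multiset.card_cons]; exact hs) (sel_cons hvV hW'))

/-- comparison with the standard space -/
theorem I_dom {V H : Cls k S} (hH : ∀ v ∈ Submodule.span k S, v ∈ H.V) {B : ℕ} {f : K}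
    (hf : f ≠ 0) (hB : ∀ v ∈ V.V, Bnd k S B (f * v)) {s : Multiset (Cls k S)}
    (hs : s.card + 1 = n) : I (V ::ₘ s) ≤ B * I (H ::ₘ s) := by
  obtain ⟨W, hW, e⟩ := exists_max c (s := V ::ₘ s) (by rw [Multiset.card_cons]; exact hs)
  obtain ⟨x, W', hx, hW', rfl⟩ := sel_cons_right hW
  obtain ⟨v, hv, hle⟩ := repl c.hn c.fin c.one (B := B) (f₀ := f * 1) (f₁ := f * x)
      (by rwa [mul_one]) (hB 1 V.one) (hB x hx) (W := W') (by rw [hW'.card]; exact hs)
  rw [mul_div_mul_left _ _ hf, div_one] at hle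
  rw [← e]
  exact hle.trans (Nat.mul_le_mul_left _ (le_I c (by rw [Multiset.card_cons]; exact hs)
    (sel_cons (hH v hv) hW')))

/-- powers -/
theorem I_pow {V D : Cls k S} {q : ℕ} (hq : 1 ≤ q) (h : ∀ v ∈ V.V, v ^ q ∈ D.V)
    {s : Multiset (Cls k S)} (hs : s.card + 1 = n) : q * I (V ::ₘ s) ≤ I (D ::ₘ s) := by
  obtain ⟨W, hW, e⟩ := exists_max c (s := V ::ₘ s) (by rw [Multiset.card_cons]; exact hs)
  obtain ⟨x, W', hx, hW', rfl⟩ := sel_cons_right hW
  rw [← e]
  exact (dm_pow c.hn (by rw [hW'.card]; exact hs) hq).trans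
    (le_I c (by rw [Multiset.card_cons]; exact hs) (sel_cons (h x hx) hW'))

/-- **Products.** -/
theorem I_add {D V V' : Cls k S} (h : D.V ≤ V.V * V'.V) {s : Multiset (Cls k S)}
    (hs : s.card + 1 = n) : I (D ::ₘ s) ≤ I (V ::ₘ s) + I (V' ::ₘ s) := by
  classical
  obtain ⟨W, hW, e⟩ := exists_max c (s := D ::ₘ s) (by rw [Multiset.card_cons]; exact hs)
  obtain ⟨x, W', hx, hW', rfl⟩ := sel_cons_right hW
  have hprod : ∀ z ∈ V.V * V'.V, ∃ S₁ S₂ : Set K, S₁.Finite ∧ S₂.Finite ∧ 1 ∈ S₁ ∧ 1 ∈ S₂ ∧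
      S₁ ⊆ V.V ∧ S₂ ⊆ V'.V ∧ ∀ P : Place k K, z = 0 ∨ ∃ s₁ ∈ S₁, ∃ s₂ ∈ S₂, s₁ ≠ 0 ∧ s₂ ≠ 0 ∧
        P.ord s₁ + P.ord s₂ ≤ P.ord z := by
    intro z hz
    induction hz using Submodule.mul_induction_on' with
    | mem_mul_mem a ha b hb =>
      refine ⟨{1, a}, {1, b}, by simp, by simp, by simp, by simp, ?_, ?_, fun P => ?_⟩
      · rintro z (rfl | rfl)
        · exact V.one
        · exact ha
      · rintro z (rfl | rfl)
        · exact V'.one
        · exact hb
      · by_cases ha0 : a = 0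
        · left
          rw [ha0, zero_mul]
        by_cases hb0 : b = 0
        · left
          rw [hb0, mul_zero]
        right
        exact ⟨a, by simp, b, by simp, ha0, hb0, by rw [P.ord_mul ha0 hb0]⟩
    | add a ha b hb iha ihb =>
      obtain ⟨S₁, S₂, f1, f2, o1, o2, v1, v2, h1⟩ := iha
      obtain ⟨T₁, T₂, f1', f2', o1', o2', v1', v2', h1'⟩ := ihb
      refine ⟨S₁ ∪ T₁, S₂ ∪ T₂, f1.union f1', f2.union f2', Or.inl o1, Or.inl o2,
        Set.union_subset v1 v1', Set.union_subset v2 v2', fun P => ?_⟩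
      by_cases hab : a + b = 0
      · exact Or.inl hab
      right
      rcases h1 P with ha0 | ⟨s₁, hs₁, s₂, hs₂, n1, n2, h2⟩
      · rcases h1' P with hb0 | ⟨s₁, hs₁, s₂, hs₂, n1, n2, h2⟩
        · rw [ha0, hb0, add_zero] at hab
          exact absurd rfl hab
        · exact ⟨s₁, Or.inr hs₁, s₂, Or.inr hs₂, n1, n2, by rwa [ha0, zero_add]⟩
      · rcases h1' P with hb0 | ⟨s₁', hs₁', s₂', hs₂', n1', n2', h2'⟩
        · exact ⟨s₁, Or.inl hs₁, s₂, Or.inl hs₂, n1, n2, by rwa [hb0, add_zero]⟩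
        · by_cases ha0 : a = 0
          · exact ⟨s₁', Or.inr hs₁', s₂', Or.inr hs₂', n1', n2', by rwa [ha0, zero_add]⟩
          by_cases hb0 : b = 0
          · exact ⟨s₁, Or.inl hs₁, s₂, Or.inl hs₂, n1, n2, by rwa [hb0, add_zero]⟩
          have h3 := P.ord_add ha0 hb0 hab
          rcases le_total (P.ord a) (P.ord b) with h4 | h4
          · rw [min_eq_left h4] at h3
            exact ⟨s₁, Or.inl hs₁, s₂, Or.inl hs₂, n1, n2, h2.trans h3⟩
          · rw [min_eq_right h4] at h3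
            exact ⟨s₁', Or.inr hs₁', s₂', Or.inr hs₂', n1', n2', h2'.trans h3⟩
  rw [← e]
  by_cases hx0 : x = 0
  · have h0 : dm k (x ::ₘ W') = 0 := by
      by_contra h0
      have := transc_of_dm c.hn (by rw [hW'.card]; exact hs) h0
      rw [hx0] at this
      exact this isAlgebraic_zero
    rw [h0]
    exact Nat.zero_le _
  obtain ⟨S₁, S₂, f1, f2, o1, o2, v1, v2, h1⟩ := hprod x (h hx)
  obtain ⟨u₁, hu₁, u₂, hu₂, hle⟩ := repl_add c.hn f1 f2 o1 o2
    (fun P => (h1 P).resolve_left hx0) (W := W') (by rw [hW'.card]; exact hs)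
  refine hle.trans (Nat.add_le_add ?_ ?_)
  · exact le_I c (by rw [Multiset.card_cons]; exact hs)
      (sel_cons (Submodule.span_le.2 v1 hu₁) hW')
  · exact le_I c (by rw [Multiset.card_cons]; exact hs)
      (sel_cons (Submodule.span_le.2 v2 hu₂) hW')

end

end Pool.Agent.N110
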