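import Pool.Agent.R887.Kap
import Pool.Agent.R887.Lin
import Pool.Agent.R887.Noe
import Pool.Agent.R887.Nef
import Pool.Agent.R887.Disc2
import Pool.Agent.N110.Cls

/-!
Hyperplane sections as spaces of functions. The proofs of `affine_le`, `dominate` and `ratio_frame`
are taken over from `Pool.Agent.R887`.
-/

set_option autoImplicit false
set_option linter.overlappingInstances false
set_option linter.unusedSectionVars false

open FF Module MvPolynomial Pool.Agent.W602.GT Pool.Agent.W603.LV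
open Pool.Agent.Y172 Pool.Agent.Y191 Pool.Agent.R887

namespace Pool.Agent.N110

section

variable {K : Type} [Field K] [Algebra ℂ K] {N n : ℕ} {y : Fin (N + 1) → K}

/-- affine linear functions of a transcendence basis -/
theorem affine_le {ι : Type} [Finite ι] (hn : Algebra.trdeg ℂ K = Nat.card ι) {U : Fin n → K}
    (hess : Algebra.EssFiniteType ℂ K) (hU : IsTranscendenceBasis ℂ U) (hcard : Nat.card ι = n)
    {v : ι → K} (hv : ∀ i, v i ∈ Submodule.span ℂ (insert (1 : K) (Set.range U))) :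
    dg ℂ v ≤ finrank (IntermediateField.adjoin ℂ (Set.range U)) K := by
  classical
  have : Fintype ι := Fintype.ofFinite ι
  by_cases h0 : dg ℂ v = 0
  · rw [h0]
    exact Nat.zero_le _
  have hbas := basis_of_dg hn h0
  obtain ⟨g, hg⟩ : ∃ g : Option ι → K, g = fun o => o.elim 1 v := ⟨_, rfl⟩
  have hgi : LinearIndependent ℂ g := by
    have h1 : LinearIndependent ℂ (fun o : Option ι =>
        (basisMonomials ι ℂ) (o.elim 0 fun i => Finsupp.single i 1)) := by
      refine (basisMonomials ι ℂ).linearIndependent.comp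
        (fun o : Option ι => (o.elim 0 fun i => Finsupp.single i 1 : ι →₀ ℕ)) ?_
      intro a b hab
      rcases a with _ | a <;> rcases b with _ | b
      · rfl
      · simp only [Option.elim_none, Option.elim_some] at hab
        exact absurd hab.symm (by simp)
      · simp only [Option.elim_none, Option.elim_some] at hab
        exact absurd hab (by simp)
      · simp only [Option.elim_some] at hab
        rw [(Finsupp.single_left_injective one_ne_zero) hab]
    have h2 := h1.map' (aeval v : MvPolynomial ι ℂ →ₐ[ℂ] K).toLinearMap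
      (LinearMap.ker_eq_bot.2 hbas.1)
    have h3 : (fun o => (aeval v : MvPolynomial ι ℂ →ₐ[ℂ] K).toLinearMap
        ((basisMonomials ι ℂ) (o.elim 0 fun i => Finsupp.single i 1))) = g := by
      funext o
      rw [hg, coe_basisMonomials]
      rcases o with _ | i
      · simp only [Option.elim_none, AlgHom.toLinearMap_apply]
        exact map_one _
      · simp only [Option.elim_some, AlgHom.toLinearMap_apply]
        exact aeval_X v i
    rw [← h3]
    exact h2
  obtain ⟨W, hW⟩ : ∃ W, W = Submodule.span ℂ (insert (1 : K) (Set.range U)) := ⟨_, rfl⟩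
  have hWr : insert (1 : K) (Set.range U) = Set.range fun o : Option (Fin n) => o.elim 1 U := by
    ext x
    simp only [Set.mem_insert_iff, Set.mem_range]
    constructor
    · rintro (rfl | ⟨i, rfl⟩)
      · exact ⟨none, rfl⟩
      · exact ⟨some i, rfl⟩
    · rintro ⟨o, rfl⟩
      rcases o with _ | i
      · exact Or.inl rfl
      · exact Or.inr ⟨i, rfl⟩
  have hWf : FiniteDimensional ℂ W := by
    rw [hW, hWr]
    exact FiniteDimensional.span_of_finite _ (Set.finite_range _)
  have hWn : finrank ℂ W ≤ n + 1 := by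
    rw [hW, hWr]
    have h1 := finrank_range_le_card (R := ℂ) (fun o : Option (Fin n) => o.elim (1 : K) U)
    rw [Fintype.card_option, Fintype.card_fin] at h1
    exact h1
  have hgW : Submodule.span ℂ (Set.range g) ≤ W := by
    rw [Submodule.span_le]
    rintro _ ⟨o, rfl⟩
    rw [hg, hW]
    rcases o with _ | i
    · exact Submodule.subset_span (Set.mem_insert _ _)
    · exact hv i
  have heq : Submodule.span ℂ (Set.range g) = W := by
    refine Submodule.eq_of_le_of_finrank_le hgW ?_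
    rw [finrank_span_eq_card hgi, Fintype.card_option, ← Nat.card_eq_fintype_card, hcard]
    exact hWn
  have hle : IntermediateField.adjoin ℂ (Set.range U) ≤
      IntermediateField.adjoin ℂ (Set.range v) := by
    rw [IntermediateField.adjoin_le_iff]
    rintro _ ⟨i, rfl⟩
    have h1 : U i ∈ Submodule.span ℂ (Set.range g) := by
      rw [heq, hW]
      exact Submodule.subset_span (Set.mem_insert_of_mem _ ⟨i, rfl⟩)
    have h2 : Submodule.span ℂ (Set.range g) ≤
        (IntermediateField.adjoin ℂ (Set.range v)).toSubalgebra.toSubmodule := by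
      rw [Submodule.span_le]
      rintro _ ⟨o, rfl⟩
      rw [hg]
      rcases o with _ | i
      · exact one_mem (IntermediateField.adjoin ℂ (Set.range v))
      · exact IntermediateField.subset_adjoin ℂ _ ⟨i, rfl⟩
    exact h2 h1
  have hfin : FiniteDimensional (IntermediateField.adjoin ℂ (Set.range U)) K := fd_basis hU
  exact IntermediateField.finrank_le_of_le_left hle

/-- an effective divisor is dominated by a multiple of a hyperplane section, up to a function -/
theorem dominate (hy : NormalModel y) {A' A : Place ℂ K → ℚ} (hA' : Effective y A')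
    {i : Fin (N + 1)} (hi : y i ≠ 0) (hA : Effective y A)
    (hAP : ∀ P l, IsPrimeDivisor y P → Centred y l P → A P = P.ord (y i / y l)) :
    ∃ (f : K) (s : ℕ), f ≠ 0 ∧ ∀ P, IsPrimeDivisor y P → A' P ≤ P.ord f + s * A P := by
  classical
  obtain ⟨Z, hZ⟩ : ∃ Z : Finset (Place ℂ K), ∀ P, P ∈ Z ↔ IsPrimeDivisor y P ∧ A' P ≠ 0 :=
    ⟨hA'.2.toFinset, fun P => by rw [Set.Finite.mem_toFinset]; rfl⟩
  have hg : ∀ P : Place ℂ K, ∃ g : K, g ≠ 0 ∧ g ∈ chart y i ∧ (IsPrimeDivisor y P →
      Centred y i P → 1 ≤ P.ord g) := by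
    intro P
    by_cases hP : IsPrimeDivisor y P ∧ Centred y i P
    · obtain ⟨hP1, hP2⟩ := hP
      obtain ⟨π, hπ0, hπ⟩ := P.surj
      obtain ⟨a, ha, b, hb, hb0, hbo, hab⟩ := (mem_localRing hP2).1
        (hP1 π (Or.inr (by rw [hπ]; norm_num)))
      refine ⟨a, by rw [← hab]; exact mul_ne_zero hπ0 hb0, ha, fun _ _ => ?_⟩
      rw [← hab, P.ord_mul hπ0 hb0, hπ, hbo]
      norm_num
    · exact ⟨1, one_ne_zero, (chart y i).one_mem, fun h1 h2 => absurd ⟨h1, h2⟩ hP⟩
  choose g hg0 hgc hgo using hg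
  obtain ⟨T, hT⟩ : ∃ T : ℕ, ∀ P, IsPrimeDivisor y P → A' P ≤ T := by
    obtain ⟨T, hT⟩ : ∃ T : ℕ, T = ∑ P ∈ Z, ⌈A' P⌉.toNat := ⟨_, rfl⟩
    refine ⟨T, fun P hP => ?_⟩
    by_cases h0 : A' P = 0
    · rw [h0]
      positivity
    · have h1 : P ∈ Z := (hZ P).2 ⟨hP, h0⟩
      have h2 : ⌈A' P⌉.toNat ≤ T := by
        rw [hT]
        exact Finset.single_le_sum (f := fun P : Place ℂ K => ⌈A' P⌉.toNat)
          (fun _ _ => Nat.zero_le _) h1
      have h3 : A' P ≤ ⌈A' P⌉ := Int.le_ceil _
      have h4 : ⌈A' P⌉ ≤ (⌈A' P⌉.toNat : ℤ) := Int.self_le_toNat _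
      have h5 : ((⌈A' P⌉ : ℤ) : ℚ) ≤ ((⌈A' P⌉.toNat : ℤ) : ℚ) := by exact_mod_cast h4
      have h6 : (((⌈A' P⌉.toNat : ℕ) : ℤ) : ℚ) ≤ (T : ℚ) := by exact_mod_cast h2
      linarith
  obtain ⟨F, hF⟩ : ∃ F, F = (∏ P ∈ Z, g P) ^ T := ⟨_, rfl⟩
  have hprod0 : (∏ P ∈ Z, g P) ≠ 0 := Finset.prod_ne_zero_iff.2 fun P _ => hg0 P
  have hF0 : F ≠ 0 := by
    rw [hF]
    exact pow_ne_zero _ hprod0
  have hFc : F ∈ chart y i := by
    rw [hF]
    exact (chart y i).pow_mem ((chart y i).prod_mem fun P _ => hgc P) _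
  have hk : ∀ l, ∃ k : ℕ, y l ≠ 0 → F * (y i / y l) ^ k ∈ chart y l := by
    intro l
    by_cases hl : y l = 0
    · exact ⟨0, fun h => absurd hl h⟩
    · obtain ⟨k, hk⟩ := chart_change hl hi hFc
      exact ⟨k, fun _ => hk⟩
  choose k hk using hk
  obtain ⟨d, hd⟩ : ∃ d, d = ∑ l, k l := ⟨_, rfl⟩
  have hpole : ∀ P, IsPrimeDivisor y P → 0 ≤ (P.ord F : ℚ) + d * A P := by
    intro P hP
    obtain ⟨l, hl⟩ := exists_centred hy P
    have h1 := hl.reg _ (hk l hl.1)
    have hyl : y i / y l ≠ 0 := div_ne_zero hi hl.1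
    have h2 := (P.reg_iff (mul_ne_zero hF0 (pow_ne_zero _ hyl))).1 h1
    rw [P.ord_mul hF0 (pow_ne_zero _ hyl), P.ord_pow] at h2
    have h3 := (P.reg_iff hyl).1 (hl.2 i)
    have h4 : k l ≤ d := by
      rw [hd]
      exact Finset.single_le_sum (fun _ _ => Nat.zero_le _) (Finset.mem_univ l)
    rw [hAP P l hP hl]
    have h5 : (k l : ℤ) * P.ord (y i / y l) ≤ d * P.ord (y i / y l) :=
      mul_le_mul_of_nonneg_right (by exact_mod_cast h4) h3
    have h6 : 0 ≤ P.ord F + d * P.ord (y i / y l) := by linarith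
    exact_mod_cast h6
  refine ⟨F, d + T, hF0, fun P hP => ?_⟩
  have hA0 := hA.1 P hP
  have hT0 : (0 : ℚ) ≤ T := Nat.cast_nonneg _
  have h1 := hpole P hP
  push_cast
  by_cases h0 : A' P = 0
  · rw [h0]
    have := mul_nonneg hT0 hA0
    nlinarith
  have hPZ : P ∈ Z := (hZ P).2 ⟨hP, h0⟩
  by_cases hPc : Centred y i P
  · have h2 : (T : ℤ) ≤ P.ord F := by
      rw [hF, P.ord_pow]
      have h3 : 1 ≤ P.ord (∏ P ∈ Z, g P) := by
        rw [← Finset.mul_prod_erase Z g hPZ, P.ord_mul (hg0 P)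
          (Finset.prod_ne_zero_iff.2 fun P _ => hg0 P)]
        have h4 := hgo P hP hPc
        have h5 : (∏ x ∈ Z.erase P, g x) ∈ chart y i :=
          (chart y i).prod_mem fun P _ => hgc P
        have h6 := (P.reg_iff (Finset.prod_ne_zero_iff.2 fun P _ => hg0 P)).1 (hPc.reg _ h5)
        omega
      have h7 : (0 : ℤ) ≤ T := Int.natCast_nonneg _
      nlinarith
    have h3 : (T : ℚ) ≤ P.ord F := by exact_mod_cast h2
    have h4 := hT P hP
    have h5 : (0 : ℚ) ≤ d := Nat.cast_nonneg _
    nlinarith [mul_nonneg h5 hA0, mul_nonneg hT0 hA0]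
  · have h2 : (1 : ℚ) ≤ A P := by
      obtain ⟨l, hl⟩ := exists_centred hy P
      rw [hAP P l hP hl]
      have hyl : y i / y l ≠ 0 := div_ne_zero hi hl.1
      have h3 := (P.reg_iff hyl).1 (hl.2 i)
      have h4 : P.ord (y i / y l) ≠ 0 := by
        intro h5
        apply hPc
        refine ⟨hi, fun j => ?_⟩
        have h6 : y j / y i = (y j / y l) * (y i / y l)⁻¹ := by
          rw [inv_div]
          field_simp [hl.1, hi]
        rw [h6]
        refine P.reg_mul (hl.2 j) (Or.inr ?_)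
        rw [P.ord_inv, h5, neg_zero]
      have h5 : 1 ≤ P.ord (y i / y l) := by omega
      exact_mod_cast h5
    have h4 := hT P hP
    have h5 := mul_le_mul_of_nonneg_left h2 hT0
    nlinarith

/-- the ratio of two forms does not depend on the vector fields -/
theorem ratio_frame {n m : ℕ} {E E' : Fin n → Derivation ℂ K K} (hE : IsFrame E)
    {ω ω' : (Fin n → Derivation ℂ K K) → K} (hω : IsPluri m ω) (hω' : IsPluri m ω')
    (h0 : ω E' ≠ 0) : ω E ≠ 0 ∧ ω' E' / ω E' = ω' E / ω E := by
  choose C hC using fun i => hE (E' i)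
  have e1 : E' = fun i => ∑ j, Matrix.of C i j • E j := funext hC
  have h1 : ω E' = (Matrix.of C).det ^ m * ω E := by
    conv_lhs => rw [e1]
    exact hω _ _
  have h2 : ω' E' = (Matrix.of C).det ^ m * ω' E := by
    conv_lhs => rw [e1]
    exact hω' _ _
  rw [h1] at h0
  have h3 := left_ne_zero_of_mul h0
  have h4 := right_ne_zero_of_mul h0
  refine ⟨h4, ?_⟩
  rw [h1, h2, mul_div_mul_left _ _ h3]


/-- the affine coordinates -/
def affS (y : Fin (N + 1) → K) (i : Fin (N + 1)) : Set K := Set.range fun l => y l / y i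

theorem one_affS {i : Fin (N + 1)} (hi : y i ≠ 0) : (1 : K) ∈ affS y i := ⟨i, div_self hi⟩

theorem fin_affS (i : Fin (N + 1)) : (affS y i).Finite := Set.finite_range _

/-- the bound of a function from the bounds at the prime divisors -/
theorem bnd_prime (hy : NormalModel y) {i : Fin (N + 1)} (hi : y i ≠ 0) {B : ℕ} {h : K}
    (h0 : h ≠ 0) (hh : ∀ P : Place ℂ K, IsPrimeDivisor y P → ∀ l, Centred y l P →
      0 ≤ P.ord h + B * P.ord (y i / y l)) : Bnd ℂ (affS y i) B h := by
  intro Q
  obtain ⟨l, hl⟩ := exists_centred hy Q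
  have hyl : y i / y l ≠ 0 := div_ne_zero hi hl.1
  obtain ⟨w, hw⟩ : ∃ w, w = h * (y i / y l) ^ B := ⟨_, rfl⟩
  have hordw : ∀ Q : Place ℂ K, Q.ord w = Q.ord h + B * Q.ord (y i / y l) := by
    intro Q
    rw [hw, Q.ord_mul h0 (pow_ne_zero _ hyl), Q.ord_pow]
  have hw0 : w ≠ 0 := by
    rw [hw]
    exact mul_ne_zero h0 (pow_ne_zero _ hyl)
  have h2 : Q.Reg w := localRing_reg (mem_localRing_of_reg hy fun P hP hPQ => by
    rw [P.reg_iff hw0, hordw]
    exact hh P hP l (hPQ.centred hl))
  have h3 := (Q.reg_iff hw0).1 h2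
  rw [hordw] at h3
  refine ⟨y l / y i, ⟨l, rfl⟩, div_ne_zero hl.1 hi, ?_⟩
  have h4 : Q.ord (y l / y i) = -Q.ord (y i / y l) := by
    rw [← Q.ord_inv, inv_div]
  rw [h4]
  linarith

theorem bnd_of_ge {S : Set K} {μ : Place ℂ K → ℤ} (hμ : IsMin S μ) (h1 : (1 : K) ∈ S) {B : ℕ}
    {f : K} (hf : ∀ P : Place ℂ K, Ge P (B * μ P) f) : Bnd ℂ S B f := by
  by_cases h0 : f = 0
  · intro P
    exact ⟨1, h1, one_ne_zero, by rw [h0, P.ord_one, P.ord_zero]; simp⟩
  · exact hμ.bnd h0 hf

theorem ge_span {S : Set K} {μ : Place ℂ K → ℤ} (hμ : IsMin S μ) {v : K}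
    (hv : v ∈ Submodule.span ℂ S) (P : Place ℂ K) : Ge P (μ P) v := by
  induction hv using Submodule.span_induction with
  | mem x hx =>
    by_cases h0 : x = 0
    · exact Or.inl h0
    · exact Or.inr (hμ.le P x hx h0)
  | zero => exact Or.inl rfl
  | add x y _ _ h1 h2 => exact h1.add h2
  | smul a x _ h1 =>
    rw [Algebra.smul_def]
    have h2 := (Ge.const (P := P) a).mul h1
    rwa [zero_add] at h2

/-- **The degrees of the maps given by hyperplane sections are bounded.** -/
theorem bez (hy : NormalModel y) (hn : Algebra.trdeg ℂ K = n) {i : Fin (N + 1)} (hi : y i ≠ 0) :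
    ∃ C : ℕ, ∀ W : Multiset K, W.card = n → (∀ x ∈ W, x ∈ Submodule.span ℂ (affS y i)) →
      dm ℂ W ≤ C := by
  classical
  have hess := hy.ess
  obtain ⟨U, hU, -, hint⟩ := exists_noether hy hn hi
  obtain ⟨μ, hμ⟩ := exists_isMin (k := ℂ) (S := insert (1 : K) (Set.range U))
    ((Set.finite_range _).insert _) ⟨1, Set.mem_insert _ _, one_ne_zero⟩
  have h1 : ∀ l, ∃ D : ℕ, ∀ P : Place ℂ K, Ge P (D * μ P) (y l / y i) := fun l =>
    ge_int hμ (hint _ (Algebra.subset_adjoin ⟨l, rfl⟩))
  choose D hD using h1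
  obtain ⟨B, hB⟩ : ∃ B : ℕ, B = ∑ l, D l := ⟨_, rfl⟩
  have hlin : ∀ x ∈ Submodule.span ℂ (affS y i), ∀ P : Place ℂ K, Ge P (B * μ P) x := by
    intro x hx P
    induction hx using Submodule.span_induction with
    | mem x hx =>
      obtain ⟨l, rfl⟩ := hx
      refine (hD l P).mono ?_
      rw [hB]
      have h4 : (D l : ℤ) ≤ ((∑ l, D l : ℕ) : ℤ) := by
        exact_mod_cast Finset.single_le_sum (f := D) (fun _ _ => Nat.zero_le _) (Finset.mem_univ l)
      exact mul_le_mul_of_nonpos_right h4 (hμ.nonpos (Set.mem_insert _ _) P)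
    | zero => exact Or.inl rfl
    | add x y _ _ h1 h2 => exact h1.add h2
    | smul a x _ h1 =>
      rw [Algebra.smul_def]
      have h2 := (Ge.const (P := P) a).mul h1
      rwa [zero_add] at h2
  have hone : Bnd ℂ (insert (1 : K) (Set.range U)) B 1 :=
    bnd_of_ge hμ (Set.mem_insert _ _) fun P => Or.inr (by
      rw [P.ord_one]
      exact mul_nonpos_of_nonneg_of_nonpos (Int.natCast_nonneg _)
        (hμ.nonpos (Set.mem_insert _ _) P))
  have key : ∀ W Q : Multiset K, (W + Q).card = n →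
      (∀ x ∈ W, x ∈ Submodule.span ℂ (affS y i)) →
      (∀ x ∈ Q, x ∈ Submodule.span ℂ (insert (1 : K) (Set.range U))) →
      dm ℂ (W + Q) ≤ B ^ W.card * finrank (IntermediateField.adjoin ℂ (Set.range U)) K := by
    intro W
    induction W using Multiset.induction_on with
    | empty =>
      intro Q hQ _ hQ2
      rw [zero_add] at hQ ⊢
      rw [Multiset.card_zero, pow_zero, one_mul]
      obtain ⟨l, hlQ⟩ : ∃ l : List K, (l : Multiset K) = Q := ⟨Q.toList, Q.coe_toList⟩
      rw [← hlQ] at hQ hQ2 ⊢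
      have hl : l.length = n := hQ
      have e0 : {x | x ∈ (l : Multiset K)} =
          Set.range (fun j : Fin l.length => l.get j) := by
        ext x
        change x ∈ l ↔ x ∈ Set.range fun j : Fin l.length => l.get j
        rw [Set.mem_range, List.mem_iff_get]
      have e1 : dm ℂ (l : Multiset K) = dg ℂ (fun j : Fin l.length => l.get j) := by
        unfold dm gen dg
        rw [e0]
      rw [e1]
      refine affine_le (by rw [hn]; simp [hl]) hess hU (by simp [hl]) fun j => ?_
      exact hQ2 _ (List.get_mem l j)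
    | cons x W ih =>
      intro Q hQ hW hQ2
      rw [Multiset.cons_add] at hQ ⊢
      rw [Multiset.card_cons] at hQ ⊢
      have h2 := hlin x (hW x (Multiset.mem_cons_self _ _))
      obtain ⟨v, hv, hle⟩ := repl hn ((Set.finite_range U).insert 1) (Set.mem_insert _ _)
        (B := B) (f₀ := 1) (f₁ := x) one_ne_zero hone (bnd_of_ge hμ (Set.mem_insert _ _) h2)
        (W := W + Q) hQ
      rw [div_one] at hle
      refine hle.trans ?_
      have h3 := ih (v ::ₘ Q) (by rw [Multiset.add_cons, Multiset.card_cons]; exact hQ)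
        (fun z hz => hW z (Multiset.mem_cons_of_mem hz)) (fun z hz => by
          rcases Multiset.mem_cons.1 hz with rfl | hz
          · exact hv
          · exact hQ2 z hz)
      rw [Multiset.add_cons] at h3
      rw [pow_succ]
      calc B * dm ℂ (v ::ₘ (W + Q)) ≤ B * (B ^ W.card *
            finrank (IntermediateField.adjoin ℂ (Set.range U)) K) := Nat.mul_le_mul_left _ h3
        _ = _ := by ring
  refine ⟨B ^ n * finrank (IntermediateField.adjoin ℂ (Set.range U)) K, fun W hW hx => ?_⟩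
  have := key W 0 (by rwa [add_zero]) hx (by simp)
  rwa [add_zero, hW] at this

theorem ctx (hy : NormalModel y) (hn : Algebra.trdeg ℂ K = n) {i : Fin (N + 1)} (hi : y i ≠ 0) :
    Ctx n ℂ (affS y i) where
  hn := hn
  ess := hy.ess
  fin := fin_affS i
  one := one_affS hi
  bez := bez hy hn hi

end

end Pool.Agent.N110
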