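import Pool.Agent.N110.Pull

/-!
Birational self-maps of varieties with canonical singularities.
-/

set_option autoImplicit false
set_option linter.overlappingInstances false
set_option linter.unusedSectionVars false

open FF Module MvPolynomial Pool.Agent.W602.GT Pool.Agent.W603.LV
open Pool.Agent.Y172 Pool.Agent.Y191 Pool.Agent.R887

namespace Pool.Agent.N110

section

variable {K : Type} [Field K] [Algebra ℂ K] {N n : ℕ} {y : Fin (N + 1) → K}

/-- the image of a divisorial place is divisorial -/
theorem comap_divisorial {φ : K ≃ₐ[ℂ] K} {Q : Place ℂ K} (hQ : Divisorial n Q) :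
    Divisorial n (comap φ Q) := by
  obtain ⟨u, hu⟩ := hQ
  refine ⟨fun i => φ.symm (u i), fun F hF => ?_⟩
  have e1 : φ (aeval (fun i => φ.symm (u i)) F) = aeval u F := by
    have h1 : (φ : K →ₐ[ℂ] K).comp (aeval (fun i => φ.symm (u i))) = aeval u := by
      apply MvPolynomial.algHom_ext
      intro i
      simp
    exact DFunLike.congr_fun h1 F
  obtain ⟨h1, h2⟩ := hu F hF
  refine ⟨fun h0 => h1 ?_, ?_⟩
  · rw [← e1, h0, map_zero]
  · rw [comap_ord, e1]
    exact h2

/-- Every birational self-map of a variety with canonical singularities preserves the canonical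
divisor. -/
theorem pullLe_canonical (hy : NormalModel y) (hn : Algebra.trdeg ℂ K = n)
    (hcan : Canonical y n) (φ : K ≃ₐ[ℂ] K) : PullLe φ y n 0 := by
  intro Q hQ P hP
  have e1 : P = comap φ Q := Place.ext (funext fun g => hP g)
  obtain ⟨r, hr, η, hη, h1, h2⟩ := hcan P (by
    rw [e1]
    exact comap_divisorial (hQ.divisorial hy hn))
  refine ⟨1, Or.inr ⟨r, hr, η, hη, fun P' hP' hT => ?_, ?_⟩, ?_⟩
  · rw [Pi.zero_apply, mul_zero, neg_zero]
    exact h1 P' hP' hT
  · rw [sub_self, mul_zero]
    exact h2
  · rw [Pi.zero_apply, sub_zero]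

end

end Pool.Agent.N110
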