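import Pool.Agent.N110.QPlateau
import Pool.Agent.R887.Can
import Pool.Agent.R887.DefsNef

/-!
Dominant rational self-maps of minimal varieties.
-/

set_option autoImplicit false

open FF Pool.Agent.W602.GT Pool.Agent.Y172 Pool.Agent.R887

namespace Pool.Agent.N110

section

variable {K : Type} [Field K] [Algebra ℂ K] {N n : ℕ} {y : Fin (N + 1) → K}

/-- Every dominant rational self-map of a variety with canonical singularities preserves the
canonical divisor. -/
theorem selfPullLe_canonical (hy : NormalModel y) (hn : Algebra.trdeg ℂ K = n)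
    (hcan : Canonical y n) (φ : K →ₐ[ℂ] K) : SelfPullLe φ y n 0 := by
  intro Q hQ P e hPe
  obtain ⟨α, h1, h2⟩ := hcan.pullBackLe hy hy hn hn φ Q hQ (fun h => h) P e hPe
  exact ⟨α, h1, by rwa [Pi.zero_apply, sub_zero]⟩

/-- a variety with nef canonical divisor -/
theorem logNef_of_canonicalNef (h : CanonicalNef y n) : LogNef y n 0 := by
  intro i hi q hq
  obtain ⟨m, hm, hQ⟩ := h i hi q hq
  refine ⟨m, hm, fun Q hd => ?_⟩
  obtain ⟨ω, hω, hg⟩ := hQ Q hd
  refine ⟨ω, ⟨hω.1, fun P l hP hl => ?_⟩, fun P l hP ht hl => ?_⟩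
  · have h1 := hω.2 P l hP hl
    rw [Pi.zero_apply, mul_zero, neg_zero, zero_sub]
    exact h1
  · have h1 := hg P l hP ht hl
    rw [Pi.zero_apply, mul_zero, neg_zero, zero_sub]
    exact h1

end

end Pool.Agent.N110
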