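import Pool.Agent.N110.Sec

/-!
Multisets and families of pencils; the mixed degrees.
-/

set_option autoImplicit false
set_option linter.overlappingInstances false
set_option linter.unusedSectionVars false

open FF Module MvPolynomial Pool.Agent.W602.GT Pool.Agent.W603.LV
open Pool.Agent.Y172 Pool.Agent.Y191 Pool.Agent.R887

namespace Pool.Agent.N110

section

variable {K : Type} [Field K] [Algebra ℂ K] {N n : ℕ} {y : Fin (N + 1) → K}

theorem sel_rep {S : Set K} {k : ℕ} {V : Cls ℂ S} {W : Multiset K} :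
    Sel W (Multiset.replicate k V) ↔ W.card = k ∧ ∀ x ∈ W, x ∈ V.V := by
  induction k generalizing W with
  | zero =>
    rw [Multiset.replicate_zero]
    constructor
    · intro h
      have e1 : W = 0 := Multiset.card_eq_zero.1 (by rw [h.card]; rfl)
      subst e1
      exact ⟨rfl, by simp⟩
    · rintro ⟨h, -⟩
      have e1 : W = 0 := Multiset.card_eq_zero.1 h
      subst e1
      exact Multiset.Rel.zero
  | succ k ih =>
    rw [Multiset.replicate_succ]
    constructor
    · intro h
      obtain ⟨x, W', hx, hW', rfl⟩ := sel_cons_right h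
      obtain ⟨h1, h2⟩ := ih.1 hW'
      refine ⟨by rw [Multiset.card_cons, h1], fun z hz => ?_⟩
      rcases Multiset.mem_cons.1 hz with rfl | hz
      · exact hx
      · exact h2 z hz
    · rintro ⟨h1, h2⟩
      obtain ⟨x, W', hW', -⟩ := Multiset.card_eq_succ_iff.1 h1
      subst hW'
      rw [Multiset.card_cons] at h1
      exact sel_cons (h2 x (Multiset.mem_cons_self _ _))
        (ih.2 ⟨by omega, fun z hz => h2 z (Multiset.mem_cons_of_mem hz)⟩)

theorem sel_add {S : Set K} {W W' : Multiset K} {s s' : Multiset (Cls ℂ S)} (h : Sel W s)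
    (h' : Sel W' s') : Sel (W + W') (s + s') := Multiset.Rel.add h h'

theorem sel_add_right {S : Set K} {W : Multiset K} {s s' : Multiset (Cls ℂ S)}
    (h : Sel W (s + s')) : ∃ W1 W2, Sel W1 s ∧ Sel W2 s' ∧ W = W1 + W2 := by
  unfold Sel at h
  rw [Multiset.rel_add_right] at h
  exact h

theorem exists_fin {α : Type} (W : Multiset α) {k : ℕ} (hk : W.card = k) :
    ∃ v : Fin k → α, {x | x ∈ W} = Set.range v := by
  obtain ⟨l, rfl⟩ : ∃ l : List α, (l : Multiset α) = W := ⟨W.toList, W.coe_toList⟩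
  have hl : l.length = k := hk
  subst hl
  refine ⟨fun j => l.get j, ?_⟩
  ext x
  change x ∈ l ↔ x ∈ Set.range fun j : Fin l.length => l.get j
  rw [Set.mem_range, List.mem_iff_get]

theorem deg_dm {p q : ℕ} {u : Fin p → K} {v : Fin q → K} {U V : Multiset K}
    (hU : {x | x ∈ U} = Set.range u) (hV : {x | x ∈ V} = Set.range v) :
    degreeOver u v = dm ℂ (U + V) := by
  unfold degreeOver dm gen
  have h1 : {x | x ∈ U + V} = Set.range u ∪ Set.range v := by
    rw [← hU, ← hV]
    ext x
    change x ∈ U + V ↔ x ∈ U ∨ x ∈ V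
    rw [Multiset.mem_add]
  rw [h1]

/-- a family as a multiset -/
def toM {α : Type} {k : ℕ} (v : Fin k → α) : Multiset α := Finset.univ.val.map v

theorem toM_card {α : Type} {k : ℕ} (v : Fin k → α) : (toM v).card = k := by
  unfold toM
  simp

theorem toM_set {α : Type} {k : ℕ} (v : Fin k → α) : {x | x ∈ toM v} = Set.range v := by
  unfold toM
  ext x
  change x ∈ Multiset.map v Finset.univ.val ↔ x ∈ Set.range v
  rw [Multiset.mem_map, Set.mem_range]
  simp

theorem mem_toM {α : Type} {k : ℕ} {v : Fin k → α} {x : α} : x ∈ toM v ↔ ∃ j, v j = x := by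
  unfold toM
  rw [Multiset.mem_map]
  simp

/-- elements of the span of the coordinates of a chart are pencils -/
theorem pencil_span {j : Fin (N + 1)} (hj : y j ≠ 0) {v : K}
    (hv : v ∈ Submodule.span ℂ (affS y j)) : IsPencil y v := by
  classical
  unfold affS at hv
  rw [Submodule.mem_span_range_iff_exists_fun] at hv
  obtain ⟨c, rfl⟩ := hv
  have h1 : ∑ i, algebraMap ℂ K ((Pi.single j 1 : Fin (N + 1) → ℂ) i) * y i = y j := by
    rw [Finset.sum_eq_single j]
    · simp
    · intro i _ hi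
      rw [Pi.single_eq_of_ne hi, map_zero, zero_mul]
    · intro h
      exact absurd (Finset.mem_univ _) h
  refine ⟨c, Pi.single j 1, by rwa [h1], ?_⟩
  rw [h1, Finset.sum_div]
  refine Finset.sum_congr rfl fun i _ => ?_
  rw [Algebra.smul_def, mul_div_assoc]

/-- pencils are quotients of elements of the span -/
theorem pencil_ratio {i : Fin (N + 1)} (hi : y i ≠ 0) {u : K} (hu : IsPencil y u) :
    ∃ f₀ ∈ Submodule.span ℂ (affS y i), ∃ f₁ ∈ Submodule.span ℂ (affS y i), f₀ ≠ 0 ∧
      u = f₁ / f₀ := by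
  obtain ⟨a, b, hb, rfl⟩ := hu
  have hmem : ∀ a : Fin (N + 1) → ℂ, (∑ l, algebraMap ℂ K (a l) * y l) / y i ∈
      Submodule.span ℂ (affS y i) := by
    intro a
    rw [Finset.sum_div]
    refine Submodule.sum_mem _ fun l _ => ?_
    rw [mul_div_assoc, ← Algebra.smul_def]
    exact Submodule.smul_mem _ _ (Submodule.subset_span ⟨l, rfl⟩)
  exact ⟨_, hmem b, _, hmem a, div_ne_zero hb hi, by rw [div_div_div_cancel_right₀ hi]⟩

/-- pencils are replaced by elements of the span -/
theorem replace_pencils (hy : NormalModel y) (hn : Algebra.trdeg ℂ K = n) {i : Fin (N + 1)}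
    (hi : y i ≠ 0) (φ : K ≃ₐ[ℂ] K) (Q : Multiset K) : ∀ W : Multiset K, (Q + W).card = n →
      (∀ u ∈ Q, IsPencil y u) → ∃ Q', Sel Q' (Multiset.replicate Q.card
        (mapCls hy hi φ (hcls hy hi))) ∧ dm ℂ (Q.map φ + W) ≤ dm ℂ (Q' + W) := by
  classical
  obtain ⟨μ, hμ⟩ := exists_isMin (k := ℂ) (fin_affS (y := y) i) ⟨1, one_affS hi, one_ne_zero⟩
  have hbnd : ∀ f ∈ Submodule.span ℂ (affS y i), Bnd ℂ (φ '' affS y i) 1 (φ f) := by
    intro f hf P
    obtain ⟨s, hs, hs0, h1⟩ := bnd_of_ge hμ (one_affS hi) (B := 1) (f := f) (fun P => by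
      rw [Nat.cast_one, one_mul]
      exact ge_span hμ hf P) (comap φ P)
    exact ⟨φ s, ⟨s, hs, rfl⟩, by rwa [Ne, map_eq_zero], h1⟩
  induction Q using Multiset.induction_on with
  | empty =>
    intro W _ _
    exact ⟨0, Multiset.Rel.zero, by simp⟩
  | cons u Q ih =>
    intro W hW hu
    rw [Multiset.cons_add, Multiset.card_cons] at hW
    obtain ⟨f₀, hf₀, f₁, hf₁, h0, hu1⟩ := pencil_ratio hi (hu u (Multiset.mem_cons_self _ _))
    obtain ⟨v, hv, hle⟩ := repl hn (S := φ '' affS y i) ((fin_affS i).image _)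
      ⟨1, one_affS hi, map_one φ⟩ (B := 1) (f₀ := φ f₀) (f₁ := φ f₁) (by rwa [Ne, map_eq_zero])
      (hbnd f₀ hf₀) (hbnd f₁ hf₁) (W := Q.map φ + W)
      (by rw [Multiset.card_add, Multiset.card_map, ← Multiset.card_add]; exact hW)
    rw [← map_div₀, ← hu1, one_mul] at hle
    obtain ⟨Q', hQ', hle'⟩ := ih (v ::ₘ W) (by
      rw [Multiset.add_cons, Multiset.card_cons]
      exact hW) fun u hu' => hu u (Multiset.mem_cons_of_mem hu')
    have hvV : v ∈ (mapCls hy hi φ (hcls hy hi)).V := by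
      have h1 : Submodule.span ℂ (φ '' affS y i) ≤ (mapCls hy hi φ (hcls hy hi)).V := by
        rw [Submodule.span_le]
        rintro _ ⟨s, hs, rfl⟩
        exact mapCls_mem (A := hcls hy hi) (Submodule.subset_span hs)
      exact h1 hv
    refine ⟨v ::ₘ Q', ?_, ?_⟩
    · rw [Multiset.card_cons, Multiset.replicate_succ]
      exact sel_cons hvV hQ'
    · rw [Multiset.map_cons, Multiset.cons_add, Multiset.cons_add]
      rw [Multiset.add_cons, Multiset.add_cons] at hle'
      exact hle.trans hle'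

theorem map_one_eq (Q : Multiset K) : Q.map (1 : K ≃ₐ[ℂ] K) = Q := by
  have : ((1 : K ≃ₐ[ℂ] K) : K → K) = id := rfl
  rw [this, Multiset.map_id]

theorem replace_pencils' (hy : NormalModel y) (hn : Algebra.trdeg ℂ K = n) {i : Fin (N + 1)}
    (hi : y i ≠ 0) (Q W : Multiset K) (hQW : (Q + W).card = n)
    (hu : ∀ u ∈ Q, IsPencil y u) : ∃ Q', Sel Q' (Multiset.replicate Q.card (hcls hy hi)) ∧
      dm ℂ (Q + W) ≤ dm ℂ (Q' + W) := by
  have := replace_pencils hy hn hi 1 Q W hQW hu
  rwa [mapCls_one, map_one_eq] at this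

open scoped ENNReal in
/-- the mixed degree as an intersection number -/
theorem mixedDegree_eq (hy : NormalModel y) (hn : Algebra.trdeg ℂ K = n) {i : Fin (N + 1)}
    (hi : y i ≠ 0) (φ : K ≃ₐ[ℂ] K) {p : ℕ} (hp : p ≤ n) :
    mixedDegree φ y n p = (I (Multiset.replicate p (mapCls hy hi φ (hcls hy hi)) +
      Multiset.replicate (n - p) (hcls hy hi)) : ℝ≥0∞) := by
  have hcard : (Multiset.replicate p (mapCls hy hi φ (hcls hy hi)) +
      Multiset.replicate (n - p) (hcls hy hi)).card = n := by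
    rw [Multiset.card_add, Multiset.card_replicate, Multiset.card_replicate]
    omega
  refine le_antisymm ?_ ?_
  · unfold mixedDegree
    refine iSup_le fun u => iSup_le fun hu => iSup_le fun v => iSup_le fun hv => ?_
    rw [Nat.cast_le]
    have e1 : degreeOver (fun a => φ (u a)) v = dm ℂ ((toM u).map φ + toM v) := by
      refine deg_dm ?_ (toM_set v)
      ext x
      change x ∈ (toM u).map φ ↔ _
      rw [Multiset.mem_map, Set.mem_range]
      constructor
      · rintro ⟨a, ha, rfl⟩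
        obtain ⟨j, rfl⟩ := mem_toM.1 ha
        exact ⟨j, rfl⟩
      · rintro ⟨j, rfl⟩
        exact ⟨u j, mem_toM.2 ⟨j, rfl⟩, rfl⟩
    rw [e1]
    obtain ⟨Q', hQ', h1⟩ := replace_pencils hy hn hi φ (toM u) (toM v)
      (by rw [Multiset.card_add, toM_card, toM_card]; omega) (fun z hz => by
        obtain ⟨j, rfl⟩ := mem_toM.1 hz
        exact hu j)
    obtain ⟨Q'', hQ'', h2⟩ := replace_pencils' hy hn hi (toM v) Q'
      (by rw [Multiset.card_add, toM_card, hQ'.card, Multiset.card_replicate, toM_card]; omega)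
      (fun z hz => by
        obtain ⟨j, rfl⟩ := mem_toM.1 hz
        exact hv j)
    rw [toM_card] at hQ' hQ''
    rw [add_comm (toM v) Q', add_comm Q'' Q'] at h2
    exact h1.trans (h2.trans (le_I (ctx hy hn hi) hcard (sel_add hQ' hQ'')))
  · obtain ⟨W, hW, e⟩ := exists_max (ctx hy hn hi) hcard
    obtain ⟨W1, W2, h1, h2, rfl⟩ := sel_add_right hW
    rw [sel_rep] at h1 h2
    obtain ⟨w1, hw1⟩ := exists_fin W1 h1.1
    obtain ⟨w2, hw2⟩ := exists_fin W2 h2.1
    have hu : ∀ a, ∃ u ∈ Submodule.span ℂ (affS y i), φ u = w1 a := by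
      intro a
      have h3 : w1 a ∈ {x | x ∈ W1} := by
        rw [hw1]
        exact ⟨a, rfl⟩
      obtain ⟨u, hu, hu2⟩ := h1.2 _ h3
      exact ⟨u, hu, hu2⟩
    choose u hu hu2 using hu
    have hv : ∀ b, w2 b ∈ Submodule.span ℂ (affS y i) := by
      intro b
      have h3 : w2 b ∈ {x | x ∈ W2} := by
        rw [hw2]
        exact ⟨b, rfl⟩
      exact h2.2 _ h3
    have e1 : degreeOver (fun a => φ (u a)) w2 = dm ℂ (W1 + W2) := by
      refine deg_dm ?_ hw2
      rw [hw1]
      congr 1
      funext a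
      exact (hu2 a).symm
    rw [← e, ← e1]
    unfold mixedDegree
    refine le_iSup_of_le u (le_iSup_of_le (fun a => pencil_span hi (hu a))
      (le_iSup_of_le w2 (le_iSup_of_le (fun b => pencil_span hi (hv b)) le_rfl)))

end

end Pool.Agent.N110
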