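import Pool.Agent.R887.Defs

/-!
Definitions: dominant rational self-maps which preserve the log canonical divisor, and their
dynamical degrees.
-/

set_option autoImplicit false

open FF Pool.Agent.W602.GT Pool.Agent.Y172 Pool.Agent.R887

namespace Pool.Agent.N110

section

variable {K : Type} [Field K] [Algebra ℂ K] {N : ℕ}

/-- Let `f : X ⇢ X` be the dominant rational self-map given by the endomorphism `φ` of the function
field `K` of `X`. The divisor `f^* (K_X + Δ)` is at most `K_X + Δ` over the prime divisors of `X`:
if `Q` is a prime divisor of `X` and `P` its image, a divisor over `X`, and `e` the ramification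
index, then the product of `e` and of the log discrepancy of `(X, Δ)` along `P` is at least
`1 - Δ Q`. -/
def SelfPullLe (φ : K →ₐ[ℂ] K) (y : Fin (N + 1) → K) (n : ℕ) (Δ : Place ℂ K → ℚ) : Prop :=
  ∀ Q : Place ℂ K, IsPrimeDivisor y Q → ∀ (P : Place ℂ K) (e : ℕ), LiesOver φ Q P e →
    ∃ α : ℚ, LogDisc y n Δ P α ∧ 1 - Δ Q ≤ e * α

open scoped ENNReal in
/-- The intersection number `(f^* H) ^ p · H ^ (n - p)` of `p` pull backs by the rational self-map
`f` of hyperplane sections of `X` and `n - p` hyperplane sections of `X`, outside of the base loci: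
the greatest number of points in the fibres of the maps `(f^* u, v)`, for pencils of hyperplane
sections `u 1, ..., u p` and `v 1, ..., v (n - p)`. -/
noncomputable def selfDegree (φ : K →ₐ[ℂ] K) (y : Fin (N + 1) → K) (n p : ℕ) : ℝ≥0∞ :=
  ⨆ (u : Fin p → K) (_ : ∀ a, IsPencil y (u a)) (v : Fin (n - p) → K) (_ : ∀ b, IsPencil y (v b)),
    (degreeOver (fun a => φ (u a)) v : ℝ≥0∞)

open scoped ENNReal in
/-- The `p`-th joint dynamical degree of a set `S` of dominant rational self-maps of the variety `X`
of dimension `n`: the upper limit, for `l → ∞`, of the `l`-th root of the greatest of the degrees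
`(g^* H) ^ p · H ^ (n - p)` of the compositions `g` of `l` maps in `S`. For `S = {f}` it is the
`p`-th dynamical degree of `f`. -/
noncomputable def selfJointDegree (S : Set (K →ₐ[ℂ] K)) (y : Fin (N + 1) → K) (n p : ℕ) : ℝ≥0∞ :=
  Filter.limsup (fun l : ℕ => (⨆ (w : List (K →ₐ[ℂ] K)) (_ : w.length = l) (_ : ∀ φ ∈ w, φ ∈ S),
    selfDegree w.prod y n p) ^ (1 / (l : ℝ))) Filter.atTop

end

end Pool.Agent.N110
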