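import Pool.Agent.N110.QAdd
import Pool.Agent.N110.QPull
import Pool.Agent.R887.NefP

/-!
Nef log canonical divisors: the relation between the intersection numbers of the multiples of
`q (K_X + Δ) + H`.
-/

set_option autoImplicit false
set_option linter.overlappingInstances false
set_option linter.unusedSectionVars false

open FF Module MvPolynomial Pool.Agent.W602.GT Pool.Agent.W603.LV
open Pool.Agent.Y172 Pool.Agent.Y191 Pool.Agent.R887 Pool.Agent.W619.PQ

namespace Pool.Agent.N110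

section

variable {K : Type} [Field K] [Algebra ℂ K] {N n : ℕ} {y : Fin (N + 1) → K}

theorem exists_divisorial (hy : NormalModel y) (hn : Algebra.trdeg ℂ K = n) (hn0 : 0 < n) :
    ∃ Q : Place ℂ K, Divisorial n Q := by
  obtain ⟨i, hi⟩ := hy.ne
  have cx := ctx hy hn hi
  have hcard : (Multiset.replicate n (hcls hy hi)).card = n := Multiset.card_replicate _ _
  obtain ⟨W, hW, e⟩ := exists_max cx hcard
  have hpos := I_pos cx hcard
  have hWc : W.card = n := by rw [hW.card, hcard]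
  obtain ⟨z, hz⟩ := Multiset.card_pos_iff_exists_mem.1 (by omega : 0 < W.card)
  obtain ⟨W', rfl⟩ := Multiset.exists_cons_of_mem hz
  rw [Multiset.card_cons] at hWc
  have h0 : dm ℂ (z ::ₘ W') ≠ 0 := by omega
  have := cz_gen (k := ℂ) W'
  have hff := ff_of_dm hn hWc h0
  obtain ⟨P, -⟩ := exists_place (k := gen ℂ W') (K := K)
  exact ⟨_, down_divisorial hn hWc h0 P⟩

theorem exists_through (hy : NormalModel y) (Q : Place ℂ K) :
    ∃ P, IsPrimeDivisor y P ∧ Through y P Q := by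
  by_contra hcon
  push Not at hcon
  obtain ⟨t, ht, ht1⟩ := Q.surj
  have h1 : t⁻¹ ∈ localRing y Q := mem_localRing_of_reg hy fun P hP hPQ => absurd hPQ (hcon P hP)
  have h2 := (Q.reg_iff (inv_ne_zero ht)).1 (localRing_reg h1)
  rw [Q.ord_inv, ht1] at h2
  omega

/-- comparison of the orders by means of the prime divisors through the centre -/
theorem ord_le_of_through (hy : NormalModel y) {Q : Place ℂ K} {f g : K} (hf : f ≠ 0)
    (hg : g ≠ 0) (h : ∀ P, IsPrimeDivisor y P → Through y P Q → P.ord g ≤ P.ord f) :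
    Q.ord g ≤ Q.ord f := by
  have h1 : f / g ∈ localRing y Q := mem_localRing_of_reg hy fun P hP hPQ => by
    rw [P.reg_iff (div_ne_zero hf hg), P.ord_div hf hg]
    have := h P hP hPQ
    omega
  have h2 := (Q.reg_iff (div_ne_zero hf hg)).1 (localRing_reg h1)
  rw [Q.ord_div hf hg] at h2
  omega

theorem val_eq {E : Fin n → Derivation ℂ K K} {c : Place ℂ K → ℤ} (hc : IsDisc y E c)
    {P : Place ℂ K} (hP : IsPrimeDivisor y P) {m : ℕ} {ω : (Fin n → Derivation ℂ K K) → K}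
    (hω : IsPluri m ω) {r : ℚ} (h : OrdEq P ω r) (h0 : ω E ≠ 0) :
    (m * c P + P.ord (ω E) : ℚ) = r := by
  have h1 := ((hc P hP m ω hω r).1 h.1).resolve_left h0
  have h2 : OrdGe P ω (m * c P + P.ord (ω E)) := (hc P hP m ω hω _).2 (Or.inr le_rfl)
  obtain ⟨-, E', hE', h3, h4⟩ := h
  have h5 := (h2 E' hE').resolve_left h3
  rw [h4] at h5
  exact le_antisymm h5 h1

/-- the function `g` generates the sheaf of `m K_X + D` at the centre of `Q` -/
def GenAt (y : Fin (N + 1) → K) (c : Place ℂ K → ℤ) (m : ℕ) (D : Place ℂ K → ℚ)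
    (Q : Place ℂ K) (g : K) : Prop :=
  g ≠ 0 ∧ g ∈ Lsp y c m D ∧ ∀ P, IsPrimeDivisor y P → Through y P Q →
    (m * c P + P.ord g : ℚ) = -(D P)

/-- the order of the coordinates -/
theorem ord_coord (hy : NormalModel y) {i : Fin (N + 1)} (hi : y i ≠ 0) {Hy : Place ℂ K → ℚ}
    (hHP : ∀ P l, IsPrimeDivisor y P → Centred y l P → Hy P = P.ord (y i / y l))
    {P : Place ℂ K} (hP : IsPrimeDivisor y P) {l : Fin (N + 1)} (hl : y l ≠ 0) :
    -(Hy P) ≤ P.ord (y l / y i) ∧ (Centred y l P → -(Hy P) = P.ord (y l / y i)) := by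
  constructor
  · obtain ⟨k, hk⟩ := exists_centred hy P
    have h2 := (P.reg_iff (div_ne_zero hl hk.1)).1 (hk.2 l)
    have h3 : P.ord (y l / y i) = P.ord (y l / y k) - P.ord (y i / y k) := by
      rw [P.ord_div hl hi, P.ord_div hl hk.1, P.ord_div hi hk.1]
      ring
    rw [hHP P k hP hk, h3]
    push_cast
    have h4 : (0 : ℚ) ≤ P.ord (y l / y k) := by exact_mod_cast h2
    linarith
  · intro hc
    have h3 : P.ord (y l / y i) = -P.ord (y i / y l) := by
      rw [← P.ord_inv, inv_div]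
    rw [hHP P l hP hc, h3]
    push_cast
    ring

/-- **The systems of the multiples of `q (K_X + Δ) + H`.** -/
theorem nef_seq (hy : NormalModel y) (hn : Algebra.trdeg ℂ K = n) (hn0 : 0 < n)
    {Δ : Place ℂ K → ℚ} (hnef : LogNef y n Δ) {i : Fin (N + 1)} (hi : y i ≠ 0)
    {E : Fin n → Derivation ℂ K K} (hfr : IsFrame E) {c : Place ℂ K → ℤ}
    (hc : IsDisc y E c) {Hy : Place ℂ K → ℚ} (hHy : Effective y Hy)
    (hHP : ∀ P l, IsPrimeDivisor y P → Centred y l P → Hy P = P.ord (y i / y l)) (q : ℕ)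
    (hq : 1 ≤ q) : ∃ M : ℕ, 1 ≤ M ∧ ∃ σ : K, σ ≠ 0 ∧
      (∀ l, σ * (y l / y i) ∈ Lsp y c (M * q) ((M * q) • Δ + M • Hy)) ∧
      ∀ Q, Divisorial n Q → ∃ g, GenAt y c (M * q) ((M * q) • Δ + M • Hy) Q g := by
  obtain ⟨m, hm, hgen⟩ := hnef i hi (2 * q) (by omega)
  have hm1 : (1 : ℚ) ≤ m := by exact_mod_cast hm
  -- the generators
  have key : ∀ Q, Divisorial n Q → ∃ g, GenAt y c (m * (2 * q)) ((m * (2 * q)) • Δ + m • Hy)
      Q g := by
    intro Q hQ
    obtain ⟨ω, hω, hωg⟩ := hgen Q hQ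
    obtain ⟨P0, hP0, hT0⟩ := exists_through hy Q
    have hωE : ω E ≠ 0 := by
      intro h0
      obtain ⟨l, hl⟩ := exists_centred hy P0
      obtain ⟨-, E', -, h1, -⟩ := hωg P0 l hP0 hT0 hl
      rw [pluri_zero hfr hω.1 h0] at h1
      exact h1 rfl
    refine ⟨ω E, hωE, fun P hP => ?_, fun P hP hT => ?_⟩
    · obtain ⟨l, hl⟩ := exists_centred hy P
      have h1 := ((hc P hP _ ω hω.1 _).1 (hω.2 P l hP hl)).resolve_left hωE
      right
      rw [Pi.add_apply, Pi.smul_apply, Pi.smul_apply, nsmul_eq_mul, nsmul_eq_mul,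
        hHP P l hP hl]
      linarith
    · obtain ⟨l, hl⟩ := exists_centred hy P
      rw [val_eq hc hP hω.1 (hωg P l hP hT hl) hωE, Pi.add_apply, Pi.smul_apply, Pi.smul_apply,
        nsmul_eq_mul, nsmul_eq_mul, hHP P l hP hl]
      ring
  obtain ⟨Q0, hQ0⟩ := exists_divisorial hy hn hn0
  obtain ⟨τ, hτ0, hτ, -⟩ := key Q0 hQ0
  refine ⟨2 * m, by omega, τ, hτ0, fun l => ?_, fun Q hQ => ?_⟩
  · intro P hP
    by_cases hl : y l = 0
    · left
      rw [hl, zero_div, mul_zero]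
    right
    have h1 := (hτ P hP).resolve_left hτ0
    have h2 := (ord_coord hy hi hHP hP hl).1
    have h3 := hHy.1 P hP
    rw [Pi.add_apply, Pi.smul_apply, Pi.smul_apply, nsmul_eq_mul, nsmul_eq_mul] at h1 ⊢
    rw [P.ord_mul hτ0 (div_ne_zero hl hi)]
    push_cast at h1 h2 ⊢
    nlinarith
  · obtain ⟨g, hg0, hg, hgQ⟩ := key Q hQ
    obtain ⟨l, hl⟩ := exists_centred hy Q
    have hli : y l / y i ≠ 0 := div_ne_zero hl.1 hi
    refine ⟨g * (y l / y i) ^ m, mul_ne_zero hg0 (pow_ne_zero _ hli), fun P hP => ?_,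
      fun P hP hT => ?_⟩
    · right
      have h1 := (hg P hP).resolve_left hg0
      have h2 := (ord_coord hy hi hHP hP hl.1).1
      rw [Pi.add_apply, Pi.smul_apply, Pi.smul_apply, nsmul_eq_mul, nsmul_eq_mul] at h1 ⊢
      rw [P.ord_mul hg0 (pow_ne_zero _ hli), P.ord_pow]
      push_cast at h1 h2 ⊢
      nlinarith
    · have h1 := hgQ P hP hT
      have h2 := (ord_coord hy hi hHP hP hl.1).2 (hT.centred hl)
      rw [Pi.add_apply, Pi.smul_apply, Pi.smul_apply, nsmul_eq_mul, nsmul_eq_mul] at h1 ⊢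
      rw [P.ord_mul hg0 (pow_ne_zero _ hli), P.ord_pow]
      push_cast at h1 h2 ⊢
      rw [← h2]
      linarith

/-- powers of spaces: `pw V k` is the power `k + 1` -/
noncomputable def pw {S : Set K} (hS : S.Finite) (h1 : (1 : K) ∈ S) (V : Cls ℂ S) : ℕ → Cls ℂ S
  | 0 => V
  | k + 1 => mulCls hS h1 (pw hS h1 V k) V

theorem pw_mem {S : Set K} {hS : S.Finite} {h1 : (1 : K) ∈ S} {V : Cls ℂ S} {v : K}
    (hv : v ∈ V.V) (k : ℕ) : v ^ (k + 1) ∈ (pw hS h1 V k).V := by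
  induction k with
  | zero => rwa [zero_add, pow_one]
  | succ k ih =>
    rw [pow_succ]
    exact Submodule.mul_mem_mul ih hv

theorem mul_ge {S : Set K} {hS : S.Finite} {h1 : (1 : K) ∈ S} {V V' : Cls ℂ S} {P : Place ℂ K}
    {r r' : ℤ} (h : ∀ v ∈ V.V, Ge P r v) (h' : ∀ v ∈ V'.V, Ge P r' v) :
    ∀ v ∈ (mulCls hS h1 V V').V, Ge P (r + r') v := by
  intro v hv
  induction hv using Submodule.mul_induction_on' with
  | mem_mul_mem a ha b hb => exact (h a ha).mul (h' b hb)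
  | add a _ b _ h1 h2 => exact h1.add h2

theorem pw_ge {S : Set K} {hS : S.Finite} {h1 : (1 : K) ∈ S} {V : Cls ℂ S} {P : Place ℂ K}
    {r : ℤ} (h : ∀ v ∈ V.V, Ge P r v) (k : ℕ) :
    ∀ v ∈ (pw hS h1 V k).V, Ge P ((k + 1 : ℕ) * r) v := by
  induction k with
  | zero =>
    intro v hv
    rw [zero_add, Nat.cast_one, one_mul]
    exact h v hv
  | succ k ih =>
    intro v hv
    have := mul_ge ih h v hv
    refine this.mono ?_
    push_cast
    linarith

theorem eCls_pw {hy : NormalModel y} {hn : Algebra.trdeg ℂ K = n} {i : Fin (N + 1)}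
    {hi : y i ≠ 0} {ψ : K →ₐ[ℂ] K} {hS : (affS y i).Finite} {h1 : (1 : K) ∈ affS y i}
    {A : Cls ℂ (affS y i)} (k : ℕ) :
    eCls hy hn hi ψ (pw hS h1 A k) = pw hS h1 (eCls hy hn hi ψ A) k := by
  induction k with
  | zero => rfl
  | succ k ih =>
    change eCls hy hn hi ψ (mulCls hS h1 (pw hS h1 A k) A) = _
    rw [eCls_mul, ih]
    rfl

theorem I_mulCls {S : Set K} (cx : Ctx n ℂ S) {hS : S.Finite} {h1 : (1 : K) ∈ S}
    {V V' : Cls ℂ S} {s : Multiset (Cls ℂ S)} (hs : s.card + 1 = n) :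
    I (mulCls hS h1 V V' ::ₘ s) = I (V ::ₘ s) + I (V' ::ₘ s) :=
  le_antisymm (I_add cx le_rfl hs) (I_mul_ge cx le_rfl hs)

theorem I_pw {S : Set K} (cx : Ctx n ℂ S) {hS : S.Finite} {h1 : (1 : K) ∈ S}
    {V : Cls ℂ S} (k : ℕ) {s : Multiset (Cls ℂ S)} (hs : s.card + 1 = n) :
    I (pw hS h1 V k ::ₘ s) = (k + 1) * I (V ::ₘ s) := by
  induction k with
  | zero =>
    rw [zero_add, one_mul]
    rfl
  | succ k ih =>
    change I (mulCls hS h1 (pw hS h1 V k) V ::ₘ s) = _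
    rw [I_mulCls cx hs, ih]
    ring

theorem dbnd_emap (hess : Algebra.EssFiniteType ℂ K) (hn : Algebra.trdeg ℂ K = n)
    (φ : K →ₐ[ℂ] K) {S : Set K} {B : ℕ} {f : K} (h : DBnd n ℂ S B f) :
    DBnd n ℂ (φ '' S) B (φ f) := by
  have key : ∀ {K' : Type} [Field K'] [Algebra ℂ K'] (hess' : Algebra.EssFiniteType ℂ K')
      (hn' : Algebra.trdeg ℂ K' = n) (ψ : K →ₐ[ℂ] K') (Q : Place ℂ K'), Divisorial n Q →
      ∃ (P : Place ℂ K) (e : ℕ), LiesOver ψ Q P e ∧ Divisorial n P := by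
    intro K' _ _ hess' hn' ψ Q hQ
    let _ : Algebra K K' := ψ.toRingHom.toAlgebra
    have hst : IsScalarTower ℂ K K' :=
      IsScalarTower.of_algebraMap_eq fun c => (ψ.commutes c).symm
    have hfd : FiniteDimensional K K' := finite_map hn hn'
    exact ⟨bel K Q, ram K Q, over_bel K Q, divisorial_down (over_bel K Q) hQ⟩
  intro Q hQ
  obtain ⟨P, e, ⟨he, hP⟩, hPd⟩ := key hess hn φ Q hQ
  obtain ⟨s, hs, hs0, h1⟩ := h P hPd
  refine ⟨φ s, ⟨s, hs, rfl⟩, by rwa [Ne, map_eq_zero], ?_⟩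
  rw [hP, hP]
  have he0 : (0 : ℤ) ≤ e := Int.natCast_nonneg _
  have := mul_le_mul_of_nonneg_left h1 he0
  linarith

theorem eCls_set {hy : NormalModel y} {hn : Algebra.trdeg ℂ K = n} {i : Fin (N + 1)}
    {hi : y i ≠ 0} {φ : K →ₐ[ℂ] K} {A : Cls ℂ (affS y i)} :
    ((eCls hy hn hi φ A).V : Set K) = φ '' (A.V : Set K) := by
  ext z
  constructor
  · rintro ⟨w, hw, rfl⟩
    exact ⟨w, hw, rfl⟩
  · rintro ⟨w, hw, rfl⟩
    exact ⟨w, hw, rfl⟩

/-- comparison after an endomorphism -/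
theorem I_rat_emap (hy : NormalModel y) (hn : Algebra.trdeg ℂ K = n) {i : Fin (N + 1)}
    (hi : y i ≠ 0) (φ : K →ₐ[ℂ] K) {V B : Cls ℂ (affS y i)} {p q : ℕ} (hp : 1 ≤ p) {h : K}
    (hh : h ≠ 0) (hdom : ∀ v ∈ V.V, DBnd n ℂ (B.V : Set K) q (h * v ^ p))
    {s : Multiset (Cls ℂ (affS y i))} (hs : s.card + 1 = n) :
    p * I (eCls hy hn hi φ V ::ₘ s) ≤ q * I (eCls hy hn hi φ B ::ₘ s) := by
  refine I_rat (ctx hy hn hi) hp (h := φ h) (by rwa [Ne, map_eq_zero]) ?_ hs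
  rintro _ ⟨v, hv, rfl⟩
  have h1 := dbnd_emap hy.ess hn φ (hdom v hv)
  rw [map_mul, map_pow, ← eCls_set (hy := hy) (hn := hn) (hi := hi)] at h1
  exact h1

end

end Pool.Agent.N110
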