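import Pool.Agent.N110.Deg

/-!
Two more functions: the exchange inequality for degrees.
-/

set_option autoImplicit false
set_option linter.overlappingInstances false
set_option linter.unusedSectionVars false

open FF Module IntermediateField Pool.Agent.R887 Pool.Agent.Helper993.CS

namespace Pool.Agent.N110

section

variable {k K : Type} [Field k] [Field K] [Algebra k K] {n : ℕ}

theorem ai_pair {a b : K} (ha : Transcendental k a) (hb : Transcendental k⟮a⟯ b) :
    AlgebraicIndependent k ![a, b] := by
  have h1 : AlgebraicIndependent k (fun _ : Unit => a) :=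
    algebraicIndependent_unique_type_iff.2 ha
  rw [IntermediateField.transcendental_adjoin_iff] at hb
  have h2 := (h1.option_iff_transcendental b).2 (by
    rwa [Set.range_const])
  have e : ![a, b] = (fun o : Option Unit => o.elim b fun _ => a) ∘
      (fun i : Fin 2 => if i = 0 then some () else none) := by
    funext i
    fin_cases i <;> simp
  rw [e]
  refine h2.comp _ ?_
  intro i j hij
  fin_cases i <;> fin_cases j <;> simp at hij ⊢

theorem transc_small {u v : K} (h : Transcendental k⟮u⟯ v) : Transcendental k v :=
  Transcendental.restrictScalars (R := k) (algebraMap k k⟮u⟯).injective h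

/-- independent multisets -/
def Ind (n : ℕ) (k : Type) {K : Type} [Field k] [Field K] [Algebra k K] (W : Multiset K) : Prop :=
  Algebra.trdeg (gen k W) K + W.card ≤ n

theorem Ind.cons {W : Multiset K} (h : Ind n k W) {z : K} (hz : Transcendental (gen k W) z) :
    Ind n k (z ::ₘ W) := by
  unfold Ind at h ⊢
  rw [trdeg_cons, Multiset.card_cons]
  refine le_trans ?_ h
  have h1 := trdeg_simple_le hz
  push_cast
  rw [← add_assoc, add_right_comm]
  gcongr

theorem ind_zero (hn : Algebra.trdeg k K = n) : Ind n k (0 : Multiset K) := by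
  unfold Ind
  have h1 : gen k (0 : Multiset K) = ⊥ := by
    unfold gen
    simp
  rw [h1]
  have h2 : Algebra.trdeg k (⊥ : IntermediateField k K) +
      Algebra.trdeg (⊥ : IntermediateField k K) K = Algebra.trdeg k K :=
    _root_.trdeg_add_eq k (⊥ : IntermediateField k K) (A := K)
  have h3 : Algebra.trdeg k (⊥ : IntermediateField k K) = 0 := _root_.trdeg_eq_zero
  rw [h3, zero_add, hn] at h2
  rw [h2]
  simp

theorem Ind.dm_ne [Algebra.EssFiniteType k K] {W : Multiset K} (h : Ind n k W)
    (hW : W.card = n) : dm k W ≠ 0 := by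
  unfold Ind at h
  rw [hW] at h
  have h1 : Algebra.trdeg (gen k W) K = 0 := by
    by_contra h2
    have h3 : 1 ≤ Algebra.trdeg (gen k W) K := Cardinal.one_le_iff_ne_zero.2 h2
    have h4 : (1 : Cardinal) + n ≤ n := le_trans (by gcongr) h
    have h5 : ((1 + n : ℕ) : Cardinal) ≤ (n : Cardinal) := by push_cast; exact h4
    have h6 : 1 + n ≤ n := by exact_mod_cast h5
    omega
  have h2 : Algebra.IsAlgebraic (gen k W) K := _root_.trdeg_eq_zero_iff.1 h1
  have h4 : Algebra.EssFiniteType (gen k W) K := Algebra.EssFiniteType.of_comp k _ K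
  obtain ⟨s, hs⟩ := IntermediateField.fg_top (gen k W) K
  have h5 : FiniteDimensional (gen k W) (IntermediateField.adjoin (gen k W) (s : Set K)) :=
    IntermediateField.finiteDimensional_adjoin (fun x _ => (h2.isAlgebraic x).isIntegral)
  rw [hs] at h5
  have h6 : FiniteDimensional (gen k W) K :=
    IntermediateField.topEquiv.toLinearEquiv.finiteDimensional
  exact Module.finrank_pos.ne'

theorem trdeg_step (z : K) (W : Multiset K) :
    Algebra.trdeg (gen k W) K ≤ Algebra.trdeg (gen k (z ::ₘ W)) K + 1 := by
  rw [trdeg_cons]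
  exact trdeg_le_simple z

/-- sub-multisets of multisets with finite degree are independent -/
theorem ind_of_dm {W : Multiset K} (h : dm k W ≠ 0) (hW : W.card = n) : Ind n k W := by
  unfold Ind
  have h1 := alg_of_dm h
  have h2 : Algebra.trdeg (gen k W) K = 0 := _root_.trdeg_eq_zero
  rw [h2, hW, zero_add]

theorem Ind.tail {z : K} {W : Multiset K} (h : Ind n k (z ::ₘ W)) : Ind n k W := by
  unfold Ind at h ⊢
  rw [Multiset.card_cons] at h
  refine le_trans ?_ h
  have h1 := trdeg_step (k := k) z W
  push_cast
  rw [← add_assoc, add_right_comm]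
  gcongr

theorem dm_pair (x y : K) (W : Multiset K) :
    dm k (x ::ₘ y ::ₘ W) = finrank (IntermediateField.adjoin (gen k W) {x, y}) K := by
  unfold dm
  have h1 : gen k (x ::ₘ y ::ₘ W) =
      (IntermediateField.adjoin (gen k W) {x, y}).restrictScalars k := by
    unfold gen
    rw [IntermediateField.adjoin_adjoin_left]
    congr 1
    ext z
    simp only [Multiset.mem_cons, Set.mem_union, Set.mem_insert_iff, Set.mem_singleton_iff]
    change (z = x ∨ z = y ∨ z ∈ W) ↔ (z ∈ W ∨ z = x ∨ z = y)
    tauto
  rw [h1]
  rfl

/-- **The exchange inequality** for functions in general position. -/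
theorem exch_elem [Algebra.EssFiniteType k K] {W : Multiset K} (hW : W.card + 2 = n)
    (hi : Ind n k W) {x y s t : K} (hx : Transcendental (gen k W) x)
    (hy : Transcendental (gen k (x ::ₘ W)) y) (hys : Transcendental (gen k W) y)
    (hs : Transcendental (gen k W) s) (ht : Transcendental (gen k (s ::ₘ W)) t)
    (hxs : Transcendental (gen k (x ::ₘ W)) s) (hxt : Transcendental (gen k (x ::ₘ W)) t)
    (hys' : Transcendental (gen k (y ::ₘ W)) s) (hyt : Transcendental (gen k (y ::ₘ W)) t) :
    dm k (x ::ₘ y ::ₘ W) * dm k (s ::ₘ t ::ₘ W) ≤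
      2 * (dm k (x ::ₘ s ::ₘ W) * dm k (y ::ₘ t ::ₘ W) +
        dm k (x ::ₘ t ::ₘ W) * dm k (y ::ₘ s ::ₘ W)) := by
  have key : ∀ a b : K, Transcendental (gen k W) a → Transcendental (gen k (a ::ₘ W)) b →
      AlgebraicIndependent (gen k W) ![a, b] ∧
      FiniteDimensional (IntermediateField.adjoin (gen k W) {a, b}) K := by
    intro a b ha hb
    constructor
    · refine ai_pair ha ?_
      rw [gen_cons] at hb
      exact hb
    · have h1 : dm k (b ::ₘ a ::ₘ W) ≠ 0 :=
        ((hi.cons ha).cons hb).dm_ne (by simp only [Multiset.card_cons]; omega)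
      rw [dm_pair, Set.pair_comm] at h1
      exact FiniteDimensional.of_finrank_pos (Nat.pos_of_ne_zero h1)
  obtain ⟨a1, b1⟩ := key x y hx hy
  obtain ⟨a2, b2⟩ := key s t hs ht
  obtain ⟨a3, b3⟩ := key y s hys hys'
  obtain ⟨a4, b4⟩ := key x t hx hxt
  obtain ⟨a5, b5⟩ := key x s hx hxs
  obtain ⟨a6, b6⟩ := key y t hys hyt
  have h := thmX (k := gen k W) x y s t a1 a2 a3 a4 a5 a6 b1 b2 b3 b4 b5 b6
  rw [dm_pair, dm_pair, dm_pair, dm_pair, dm_pair, dm_pair]
  linarith

/-- the functions which are algebraic over an intermediate field -/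
def algSub (L : IntermediateField k K) : Submodule k K where
  carrier := {v | IsAlgebraic L v}
  zero_mem' := isAlgebraic_zero
  add_mem' := fun {a b} ha hb => IsAlgebraic.add (R := L) ha hb
  smul_mem' := fun c x hx => by
    have h1 : c • x = (algebraMap k L c) • x := by
      rw [algebraMap_smul]
    change IsAlgebraic L (c • x)
    rw [h1, Algebra.smul_def]
    exact (isAlgebraic_algebraMap _).mul hx

theorem mem_algSub {L : IntermediateField k K} {v : K} : v ∈ algSub L ↔ IsAlgebraic L v := Iff.rfl

/-- transitivity for elements -/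
theorem isAlg_trans {L A : IntermediateField k K} (hA : ∀ a ∈ A, IsAlgebraic L a) {z : K}
    (hz : IsAlgebraic A z) : IsAlgebraic L z := by
  have h1 : A ≤ (algebraicClosure L K).restrictScalars k := fun a ha =>
    (mem_algebraicClosure_iff).2 (hA a ha)
  have h2 : IsAlgebraic ((algebraicClosure L K).restrictScalars k) z := by
    let _ : Algebra A ((algebraicClosure L K).restrictScalars k) :=
      (IntermediateField.inclusion h1).toRingHom.toAlgebra
    have : IsScalarTower A ((algebraicClosure L K).restrictScalars k) K :=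
      IsScalarTower.of_algebraMap_eq fun _ => rfl
    exact hz.extendScalars (IntermediateField.inclusion h1).toRingHom.injective
  have h3 : IsAlgebraic (algebraicClosure L K) z := h2
  exact h3.restrictScalars L

theorem exists_transc {V : Submodule k K}
    (hV : Algebra.IsAlgebraic (IntermediateField.adjoin k (V : Set K)) K)
    {L : IntermediateField k K} {z : K} (hz : Transcendental L z) : ∃ e ∈ V, e ∉ algSub L := by
  by_contra hcon
  push Not at hcon
  have h1 : IntermediateField.adjoin k (V : Set K) ≤
      (algebraicClosure L K).restrictScalars k := by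
    rw [IntermediateField.adjoin_le_iff]
    intro e he
    exact (mem_algebraicClosure_iff).2 (hcon e he)
  exact hz (isAlg_trans (fun a ha => (mem_algebraicClosure_iff).1 (h1 ha)) (hV.isAlgebraic z))

theorem alg_of_top {V : Set K} (hV : IntermediateField.adjoin k V = ⊤) :
    Algebra.IsAlgebraic (IntermediateField.adjoin k V) K := by
  rw [hV]
  constructor
  intro x
  exact isAlgebraic_algebraMap (⟨x, trivial⟩ : (⊤ : IntermediateField k K))

/-- the image of an algebraic element under a homomorphism -/
theorem alg_image {K₂ : Type} [Field K₂] [Algebra k K₂] (φ : K →ₐ[k] K₂) {V : Set K} {x : K}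
    (h : IsAlgebraic (IntermediateField.adjoin k V) x) :
    IsAlgebraic (IntermediateField.adjoin k (φ '' V)) (φ x) := by
  rw [← IntermediateField.adjoin_map]
  exact h.ringHom_of_comp_eq
    ((IntermediateField.adjoin k V).equivMap φ).toRingEquiv.toRingHom φ.toRingHom
    ((IntermediateField.adjoin k V).equivMap φ).injective (by ext x; rfl)

theorem alg_mono {A B : IntermediateField k K} (hAB : A ≤ B) (hA : Algebra.IsAlgebraic A K) :
    Algebra.IsAlgebraic B K := by
  constructor
  intro x
  exact isAlg_trans (fun a ha => isAlgebraic_algebraMap (⟨a, hAB ha⟩ : B)) (hA.isAlgebraic x)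

end

end Pool.Agent.N110
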