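import Pool.Agent.N110.Pull

/-!
Spaces of sections, images under automorphisms, and products.
-/

set_option autoImplicit false
set_option linter.overlappingInstances false
set_option linter.unusedSectionVars false

open FF Module MvPolynomial Pool.Agent.W602.GT Pool.Agent.W603.LV
open Pool.Agent.Y172 Pool.Agent.Y191 Pool.Agent.R887

namespace Pool.Agent.N110

section

variable {K : Type} [Field K] [Algebra ℂ K] {N n : ℕ} {y : Fin (N + 1) → K}

theorem adjoin_span (hy : NormalModel y) {i : Fin (N + 1)} (hi : y i ≠ 0) {V : Submodule ℂ K}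
    (hV : ∀ l, y l / y i ∈ V) : Algebra.IsAlgebraic (IntermediateField.adjoin ℂ (V : Set K)) K := by
  refine alg_of_top ?_
  rw [eq_top_iff, ← hy.field i hi]
  refine IntermediateField.adjoin.mono _ _ _ ?_
  rintro _ ⟨l, rfl⟩
  exact hV l

/-- the space of the hyperplane sections -/
noncomputable def hcls (hy : NormalModel y) {i : Fin (N + 1)} (hi : y i ≠ 0) :
    Cls ℂ (affS y i) where
  V := Submodule.span ℂ (affS y i)
  one := Submodule.subset_span (one_affS hi)
  big := adjoin_span hy hi fun l => Submodule.subset_span ⟨l, rfl⟩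
  dom := by
    obtain ⟨μ, hμ⟩ := exists_isMin (k := ℂ) (fin_affS (y := y) i)
      ⟨1, one_affS hi, one_ne_zero⟩
    refine ⟨1, 1, one_ne_zero, fun v hv => bnd_of_ge hμ (one_affS hi) fun P => ?_⟩
    rw [one_mul, Nat.cast_one, one_mul]
    exact ge_span hμ hv P

/-- products of spaces -/
noncomputable def mulCls {S : Set K} (hS : S.Finite) (h1 : (1 : K) ∈ S) (A B : Cls ℂ S) :
    Cls ℂ S where
  V := A.V * B.V
  one := by
    have := Submodule.mul_mem_mul A.one B.one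
    rwa [one_mul] at this
  big := by
    refine alg_mono ?_ A.big
    refine IntermediateField.adjoin.mono _ _ _ fun a ha => ?_
    have := Submodule.mul_mem_mul ha B.one
    rwa [mul_one] at this
  dom := by
    obtain ⟨μ, hμ⟩ := exists_isMin (k := ℂ) hS ⟨1, h1, one_ne_zero⟩
    obtain ⟨a, f, hf, ha⟩ := A.dom
    obtain ⟨b, g, hg, hb⟩ := B.dom
    refine ⟨a + b, f * g, mul_ne_zero hf hg, fun v hv => bnd_of_ge hμ h1 fun P => ?_⟩
    induction hv using Submodule.mul_induction_on' with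
    | mem_mul_mem u hu w hw =>
      have h1 := (hμ.ge (ha u hu) P).mul (hμ.ge (hb w hw) P)
      have e1 : f * g * (u * w) = f * u * (g * w) := by ring
      rw [e1]
      refine h1.mono ?_
      push_cast
      linarith
    | add u _ w _ h1 h2 =>
      rw [mul_add]
      exact h1.add h2

/-- the image of a space under an automorphism: domination -/
theorem map_dom (hy : NormalModel y) {i : Fin (N + 1)} (hi : y i ≠ 0) (φ : K ≃ₐ[ℂ] K) :
    ∃ (β : ℕ) (h : K), h ≠ 0 ∧ ∀ v ∈ Submodule.span ℂ (affS y i),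
      Bnd ℂ (affS y i) β (h * φ v) := by
  classical
  have hfr := hy.frac hi
  have h1 : ∀ l, ∃ a ∈ chart y i, ∃ b ∈ chart y i, b ≠ 0 ∧ φ (y l / y i) = a / b := by
    intro l
    obtain ⟨a, b, hb, hab⟩ := IsFractionRing.div_surjective (A := chart y i) (φ (y l / y i))
    refine ⟨a, a.2, b, b.2, ?_, hab.symm⟩
    intro h
    exact nonZeroDivisors.ne_zero hb (Subtype.ext h)
  choose a ha b hb hb0 hab using h1
  obtain ⟨μ, hμ⟩ := exists_isMin (k := ℂ) (S := insert (1 : K) (Set.range fun l => y l / y i))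
    ((Set.finite_range _).insert _) ⟨1, Set.mem_insert _ _, one_ne_zero⟩
  have hset : insert (1 : K) (Set.range fun l => y l / y i) = affS y i := by
    rw [Set.insert_eq_of_mem]
    · rfl
    · exact one_affS hi
  have hnum : ∀ l, (∏ j, b j) * φ (y l / y i) ∈ chart y i := by
    intro l
    rw [← Finset.mul_prod_erase Finset.univ b (Finset.mem_univ l), hab]
    have e1 : b l * ∏ x ∈ Finset.univ.erase l, b x = (∏ x ∈ Finset.univ.erase l, b x) * b l :=
      mul_comm _ _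
    rw [e1, mul_assoc, mul_div_cancel₀ _ (hb0 l)]
    exact (chart y i).mul_mem ((chart y i).prod_mem fun j _ => hb j) (ha l)
  have hD : ∀ l, ∃ D : ℕ, ∀ P : Place ℂ K, Ge P (D * μ P) ((∏ j, b j) * φ (y l / y i)) := by
    intro l
    have h2 := hnum l
    unfold chart at h2
    rw [Algebra.adjoin_range_eq_range_aeval] at h2
    obtain ⟨Q, hQ⟩ := h2
    obtain ⟨D, hD⟩ := ge_poly' hμ Q
    exact ⟨D, fun P => by rw [← hQ]; exact hD P⟩
  choose D hD using hD
  rw [← hset]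
  refine ⟨∑ l, D l, ∏ j, b j, Finset.prod_ne_zero_iff.2 fun j _ => hb0 j, fun v hv =>
    bnd_of_ge hμ (Set.mem_insert _ _) fun P => ?_⟩
  rw [hset] at hv
  induction hv using Submodule.span_induction with
  | mem x hx =>
    obtain ⟨l, rfl⟩ := hx
    refine (hD l P).mono ?_
    have h4 : (D l : ℤ) ≤ ((∑ l, D l : ℕ) : ℤ) := by
      exact_mod_cast Finset.single_le_sum (f := D) (fun _ _ => Nat.zero_le _) (Finset.mem_univ l)
    exact mul_le_mul_of_nonpos_right h4 (hμ.nonpos (Set.mem_insert _ _) P)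
  | zero => rw [map_zero, mul_zero]; exact Or.inl rfl
  | add x y _ _ h1 h2 => rw [map_add, mul_add]; exact h1.add h2
  | smul t x _ h1 =>
    have h2 := (Ge.const (P := P) t).mul h1
    rw [zero_add] at h2
    have e1 : (∏ j, b j) * φ (t • x) = algebraMap ℂ K t * ((∏ j, b j) * φ x) := by
      rw [Algebra.smul_def, map_mul, φ.commutes]
      ring
    rw [e1]
    exact h2

/-- the image of a space under an automorphism -/
noncomputable def mapCls (hy : NormalModel y) {i : Fin (N + 1)} (hi : y i ≠ 0) (φ : K ≃ₐ[ℂ] K)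
    (A : Cls ℂ (affS y i)) : Cls ℂ (affS y i) where
  V := A.V.map φ.toLinearMap
  one := ⟨1, A.one, map_one φ⟩
  big := by
    have h1 : ((A.V.map φ.toLinearMap : Submodule ℂ K) : Set K) =
        (φ : K →ₐ[ℂ] K) '' (A.V : Set K) := by
      ext z
      constructor
      · rintro ⟨w, hw, rfl⟩
        exact ⟨w, hw, rfl⟩
      · rintro ⟨w, hw, rfl⟩
        exact ⟨w, hw, rfl⟩
    rw [h1]
    constructor
    intro z
    have h2 := alg_image (φ : K →ₐ[ℂ] K) (A.big.isAlgebraic (φ.symm z))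
    have e1 : (φ : K →ₐ[ℂ] K) (φ.symm z) = z := φ.apply_symm_apply z
    rwa [e1] at h2
  dom := by
    obtain ⟨μ, hμ⟩ := exists_isMin (k := ℂ) (fin_affS (y := y) i)
      ⟨1, one_affS hi, one_ne_zero⟩
    obtain ⟨B, f, hf, hB⟩ := A.dom
    obtain ⟨β, h, hh, hβ⟩ := map_dom hy hi φ
    refine ⟨B * β, h ^ B * φ f, mul_ne_zero (pow_ne_zero _ hh) (by rwa [Ne, map_eq_zero]), ?_⟩
    rintro _ ⟨v, hv, rfl⟩
    refine bnd_of_ge hμ (one_affS hi) fun P => ?_
    change Ge P _ (h ^ B * φ f * φ v)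
    by_cases hv0 : f * v = 0
    · left
      rw [mul_assoc, ← map_mul, hv0, map_zero, mul_zero]
    right
    obtain ⟨s, hs, hs0, h1⟩ := hB v hv (comap φ P)
    rw [comap_ord, comap_ord] at h1
    have h2 := hμ.ge (hβ s (Submodule.subset_span hs)) P
    have hφs : φ s ≠ 0 := by rwa [Ne, map_eq_zero]
    have h3 := h2.resolve_left (mul_ne_zero hh hφs)
    rw [P.ord_mul hh hφs] at h3
    have hφv : φ (f * v) ≠ 0 := by rwa [Ne, map_eq_zero]
    rw [mul_assoc, ← map_mul, P.ord_mul (pow_ne_zero _ hh) hφv, P.ord_pow]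
    have h4 := mul_le_mul_of_nonneg_left h3 (show (0 : ℤ) ≤ B from Int.natCast_nonneg _)
    push_cast
    linarith

theorem mapCls_mem {hy : NormalModel y} {i : Fin (N + 1)} {hi : y i ≠ 0} {φ : K ≃ₐ[ℂ] K}
    {A : Cls ℂ (affS y i)} {v : K} (hv : v ∈ A.V) : φ v ∈ (mapCls hy hi φ A).V :=
  ⟨v, hv, rfl⟩

theorem Cls.ext' {S : Set K} {A B : Cls ℂ S} (h : A.V = B.V) : A = B := by
  cases A
  cases B
  cases h
  rfl

theorem mapCls_mapCls {hy : NormalModel y} {i : Fin (N + 1)} {hi : y i ≠ 0} {φ ψ : K ≃ₐ[ℂ] K}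
    {A : Cls ℂ (affS y i)} : mapCls hy hi φ (mapCls hy hi ψ A) = mapCls hy hi (φ * ψ) A := by
  apply Cls.ext'
  ext z
  constructor
  · rintro ⟨_, ⟨w, hw, rfl⟩, rfl⟩
    exact ⟨w, hw, rfl⟩
  · rintro ⟨w, hw, rfl⟩
    exact ⟨ψ w, ⟨w, hw, rfl⟩, rfl⟩

theorem mapCls_one {hy : NormalModel y} {i : Fin (N + 1)} {hi : y i ≠ 0}
    {A : Cls ℂ (affS y i)} : mapCls hy hi 1 A = A := by
  apply Cls.ext'
  ext z
  constructor
  · rintro ⟨w, hw, rfl⟩
    exact hw
  · intro h
    exact ⟨z, h, rfl⟩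

/-- the permutation of the spaces given by an automorphism -/
noncomputable def perm (hy : NormalModel y) {i : Fin (N + 1)} (hi : y i ≠ 0) (φ : K ≃ₐ[ℂ] K) :
    Equiv.Perm (Cls ℂ (affS y i)) where
  toFun := mapCls hy hi φ
  invFun := mapCls hy hi φ⁻¹
  left_inv A := by rw [mapCls_mapCls, inv_mul_cancel, mapCls_one]
  right_inv A := by rw [mapCls_mapCls, mul_inv_cancel, mapCls_one]

theorem perm_pow {hy : NormalModel y} {i : Fin (N + 1)} {hi : y i ≠ 0} {φ : K ≃ₐ[ℂ] K} (l : ℕ)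
    (A : Cls ℂ (affS y i)) : (perm hy hi φ ^ l : Equiv.Perm (Cls ℂ (affS y i))) A =
      mapCls hy hi (φ ^ l) A := by
  induction l with
  | zero =>
    rw [pow_zero, pow_zero, mapCls_one]
    rfl
  | succ l ih =>
    rw [pow_succ', pow_succ', ← mapCls_mapCls, ← ih]
    rfl

/-- the degree is invariant -/
theorem dm_map (φ : K ≃ₐ[ℂ] K) (W : Multiset K) : dm ℂ (W.map φ) = dm ℂ W := by
  have h1 : gen ℂ (W.map φ) = (gen ℂ W).map (φ : K →ₐ[ℂ] K) := by
    unfold gen
    rw [IntermediateField.adjoin_map]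
    congr 1
    ext z
    simp only [Multiset.mem_map, Set.mem_image]
    rfl
  unfold dm
  rw [h1]
  let e : gen ℂ W ≃ₐ[ℂ] (gen ℂ W).map (φ : K →ₐ[ℂ] K) := (gen ℂ W).equivMap (φ : K →ₐ[ℂ] K)
  refine (Algebra.finrank_eq_of_equiv_equiv e.toRingEquiv φ.toRingEquiv ?_).symm
  ext x
  rfl

theorem sel_map {hy : NormalModel y} {i : Fin (N + 1)} {hi : y i ≠ 0} (φ : K ≃ₐ[ℂ] K)
    {W : Multiset K} {s : Multiset (Cls ℂ (affS y i))} (h : Sel W s) :
    Sel (W.map φ) (s.map (mapCls hy hi φ)) := by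
  induction s using Multiset.induction_on generalizing W with
  | empty =>
    have e1 : W = 0 := Multiset.card_eq_zero.1 (by rw [h.card]; rfl)
    subst e1
    exact Multiset.Rel.zero
  | cons V s ih =>
    obtain ⟨x, W', hx, hW', rfl⟩ := sel_cons_right h
    rw [Multiset.map_cons, Multiset.map_cons]
    exact sel_cons (mapCls_mem hx) (ih hW')

theorem I_map (hy : NormalModel y) (hn : Algebra.trdeg ℂ K = n) {i : Fin (N + 1)} (hi : y i ≠ 0)
    (φ : K ≃ₐ[ℂ] K) {s : Multiset (Cls ℂ (affS y i))} (hs : s.card = n) :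
    I (s.map (perm hy hi φ)) = I s := by
  have key : ∀ (φ : K ≃ₐ[ℂ] K) (s : Multiset (Cls ℂ (affS y i))), s.card = n →
      I s ≤ I (s.map (mapCls hy hi φ)) := by
    intro φ s hs
    obtain ⟨W, hW, e⟩ := exists_max (ctx hy hn hi) hs
    rw [← e, ← dm_map φ]
    exact le_I (ctx hy hn hi) (by rw [Multiset.card_map]; exact hs) (sel_map φ hW)
  refine le_antisymm ?_ (key φ s hs)
  have h1 := key φ⁻¹ (s.map (mapCls hy hi φ)) (by rw [Multiset.card_map]; exact hs)
  rw [Multiset.map_map] at h1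
  have e1 : mapCls hy hi φ⁻¹ ∘ mapCls hy hi φ = id := by
    funext A
    change mapCls hy hi φ⁻¹ (mapCls hy hi φ A) = A
    rw [mapCls_mapCls, inv_mul_cancel, mapCls_one]
  rw [e1, Multiset.map_id] at h1
  exact h1

/-- the spaces of sections are dominated by hyperplane sections -/
theorem dom_sections (hy : NormalModel y) {i : Fin (N + 1)} (hi : y i ≠ 0)
    {c : Place ℂ K → ℤ} (hcfin : {P | IsPrimeDivisor y P ∧ c P ≠ 0}.Finite)
    {Δ : Place ℂ K → ℚ} (hΔ : {P | IsPrimeDivisor y P ∧ Δ P ≠ 0}.Finite) :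
    ∃ (β : ℕ) (f : K), f ≠ 0 ∧ ∀ A, Effective y A → ∃ (βA : ℕ) (g : K), g ≠ 0 ∧
      ∀ m b : ℕ, ∀ h ∈ Lsp y c m (m • Δ + b • A),
        Bnd ℂ (affS y i) (m * β + b * βA) (f ^ m * g ^ b * h) := by
  obtain ⟨H, hH, hHP⟩ := exists_hyp hy hi
  have hT : Effective y (fun P => |(c P : ℚ)| + |Δ P|) := by
    refine ⟨fun P hP => add_nonneg (abs_nonneg _) (abs_nonneg _), (hcfin.union hΔ).subset ?_⟩
    rintro P ⟨hP, h0⟩
    by_cases h1 : c P = 0
    · right
      refine ⟨hP, fun h2 => h0 ?_⟩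
      simp only []
      rw [h1, h2, Int.cast_zero, abs_zero, add_zero]
    · exact Or.inl ⟨hP, h1⟩
  obtain ⟨f, β, hf0, hfb⟩ := dominate hy hT hi hH hHP
  refine ⟨β, f, hf0, fun A hA => ?_⟩
  obtain ⟨g, βA, hg0, hgb⟩ := dominate hy hA hi hH hHP
  refine ⟨βA, g, hg0, fun m b h hh => ?_⟩
  by_cases h0 : h = 0
  · rw [h0, mul_zero]
    intro P
    exact ⟨1, one_affS hi, one_ne_zero, by rw [P.ord_one, P.ord_zero]; simp⟩
  have hfg : f ^ m * g ^ b ≠ 0 := mul_ne_zero (pow_ne_zero _ hf0) (pow_ne_zero _ hg0)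
  refine bnd_prime hy hi (mul_ne_zero hfg h0) fun P hP l hl => ?_
  have h1 := (hh P hP).resolve_left h0
  rw [Pi.add_apply, Pi.smul_apply, Pi.smul_apply, nsmul_eq_mul, nsmul_eq_mul] at h1
  have h2 := hfb P hP
  have h3 := hgb P hP
  rw [hHP P l hP hl] at h2 h3
  have hm0 : (0 : ℚ) ≤ m := Nat.cast_nonneg _
  have hb0 : (0 : ℚ) ≤ b := Nat.cast_nonneg _
  have h4 := mul_le_mul_of_nonneg_left h2 hm0
  have h5 := mul_le_mul_of_nonneg_left h3 hb0
  have h6 := mul_le_mul_of_nonneg_left (le_abs_self (c P : ℚ)) hm0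
  have h7 := mul_le_mul_of_nonneg_left (le_abs_self (Δ P)) hm0
  have h8 : (0 : ℚ) ≤ ((P.ord (f ^ m * g ^ b * h) +
      (m * β + b * βA : ℕ) * P.ord (y i / y l) : ℤ) : ℚ) := by
    rw [P.ord_mul hfg h0, P.ord_mul (pow_ne_zero _ hf0) (pow_ne_zero _ hg0), P.ord_pow,
      P.ord_pow]
    push_cast
    linarith
  exact_mod_cast h8

/-- the space of the quotients of sections by the section `σ` -/
noncomputable def secCls (hy : NormalModel y) {i : Fin (N + 1)} (hi : y i ≠ 0)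
    {c : Place ℂ K → ℤ} (hcfin : {P | IsPrimeDivisor y P ∧ c P ≠ 0}.Finite)
    {Δ : Place ℂ K → ℚ} (hΔ : {P | IsPrimeDivisor y P ∧ Δ P ≠ 0}.Finite)
    {A : Place ℂ K → ℚ} (hA : Effective y A) (m b : ℕ) {σ : K} (hσ : σ ≠ 0)
    (h : ∀ l, σ * (y l / y i) ∈ Lsp y c m (m • Δ + b • A)) : Cls ℂ (affS y i) where
  V := (Lsp y c m (m • Δ + b • A)).comap (LinearMap.mulLeft ℂ σ)
  one := by
    have h1 := h i
    rw [div_self hi] at h1
    exact h1
  big := adjoin_span hy hi fun l => h l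
  dom := by
    obtain ⟨β, f, hf, h1⟩ := dom_sections hy hi hcfin hΔ
    obtain ⟨βA, g, hg, h2⟩ := h1 A hA
    refine ⟨m * β + b * βA, f ^ m * g ^ b * σ, mul_ne_zero (mul_ne_zero (pow_ne_zero _ hf)
      (pow_ne_zero _ hg)) hσ, fun v hv => ?_⟩
    rw [mul_assoc]
    exact h2 m b (σ * v) hv

end

end Pool.Agent.N110
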