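import Pool.Agent.N110.Conv

/-!
Bounds at the divisorial places, rational multiples of spaces, and the additivity of the
intersection numbers.
-/

set_option autoImplicit false
set_option linter.overlappingInstances false
set_option linter.unusedSectionVars false

open FF Module IntermediateField Pool.Agent.R887 Pool.Agent.W602.GT

namespace Pool.Agent.N110

section

variable {k K : Type} [Field k] [Field K] [Algebra k K]

/-- the bound at the divisorial places -/
def DBnd (n : ℕ) (k : Type) {K : Type} [Field k] [Field K] [Algebra k K] (S : Set K) (B : ℕ)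
    (f : K) : Prop :=
  ∀ P : Place k K, Divisorial n P → ∃ s ∈ S, s ≠ 0 ∧ (B : ℤ) * P.ord s ≤ P.ord f

variable [CharZero k] {n : ℕ}

/-- the places over the field of a multiset of `n - 1` functions are divisorial -/
theorem down_divisorial (hn : Algebra.trdeg k K = n) {z : K} {W : Multiset K}
    (hW : W.card + 1 = n) (h0 : dm k (z ::ₘ W) ≠ 0) (P : Place (gen k W) K) :
    Divisorial n (down (gen k W) P) := by
  obtain ⟨u, hu⟩ := exists_fin W (k := n - 1) (by omega)
  have hn1 : n = (n - 1) + 1 := by omega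
  have e1 : dg k (fun o : Option (Fin (n - 1)) => o.elim z u) = dm k (z ::ₘ W) := by
    unfold dg dm gen
    have h1 : Set.range (fun o : Option (Fin (n - 1)) => o.elim z u) = {x | x ∈ z ::ₘ W} := by
      ext x
      simp only [Set.mem_range, Set.mem_setOf_eq, Multiset.mem_cons]
      have h2 : x ∈ W ↔ x ∈ Set.range u := by rw [← hu]; rfl
      rw [h2]
      constructor
      · rintro ⟨o, rfl⟩
        rcases o with _ | i
        · exact Or.inl rfl
        · exact Or.inr ⟨i, rfl⟩
      · rintro (rfl | ⟨i, rfl⟩)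
        · exact ⟨none, rfl⟩
        · exact ⟨some i, rfl⟩
    rw [h1]
  have h2 := basis_of_dg (k := k) (K := K) (ι := Option (Fin (n - 1)))
    (by rw [hn, Nat.card_eq_fintype_card, Fintype.card_option, Fintype.card_fin, ← hn1])
    (w := fun o : Option (Fin (n - 1)) => o.elim z u) (by rw [e1]; exact h0)
  have h3 : AlgebraicIndependent k u := by
    have := h2.1.comp (fun i : Fin (n - 1) => some i) (Option.some_injective _)
    exact this
  refine ⟨u, fun F hF => ?_⟩
  have h4 : MvPolynomial.aeval u F ≠ 0 := fun h => hF (by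
    rw [algebraicIndependent_iff] at h3
    exact h3 F h)
  refine ⟨h4, ?_⟩
  have h5 : MvPolynomial.aeval u F ∈ gen k W := by
    have h6 : MvPolynomial.aeval u F ∈ Algebra.adjoin k (Set.range u) := by
      rw [Algebra.adjoin_range_eq_range_aeval]
      exact ⟨F, rfl⟩
    have h7 : Algebra.adjoin k (Set.range u) ≤ (gen k W).toSubalgebra := by
      rw [Algebra.adjoin_le_iff, ← hu]
      exact IntermediateField.subset_adjoin k {x | x ∈ W}
    exact h7 h6
  change P.ord (MvPolynomial.aeval u F) = 0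
  exact P.ord_const (c := (⟨MvPolynomial.aeval u F, h5⟩ : gen k W)) (by
    intro h
    exact h4 (congrArg Subtype.val h))

/-- one of the functions is replaced, for an infinite set of functions and divisorial places -/
theorem repl_inf (hn : Algebra.trdeg k K = n) {S : Set K} (h1 : (1 : K) ∈ S)
    {B : ℕ} {f₀ f₁ : K} (hf₀ : f₀ ≠ 0) (hb₀ : DBnd n k S B f₀) (hb₁ : DBnd n k S B f₁)
    {W : Multiset K} (hW : W.card + 1 = n) :
    ∃ v ∈ Submodule.span k S, dm k ((f₁ / f₀) ::ₘ W) ≤ B * dm k (v ::ₘ W) := by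
  classical
  by_cases h0 : dm k ((f₁ / f₀) ::ₘ W) = 0
  · exact ⟨1, Submodule.subset_span h1, by rw [h0]; exact Nat.zero_le _⟩
  have := cz_gen (k := k) W
  have htr := transc_of_dm hn hW h0
  have hff := ff_of_dm hn hW h0
  have hf₁ : f₁ ≠ 0 := by
    rintro rfl
    rw [zero_div] at htr
    exact htr isAlgebraic_zero
  have : Infinite k := inferInstance
  have hdiv := down_divisorial hn hW h0
  choose s₀ hs₀ hs₀0 hs₀' using fun P : Place (gen k W) K => hb₀ _ (hdiv P)
  choose s₁ hs₁ hs₁0 hs₁' using fun P : Place (gen k W) K => hb₁ _ (hdiv P)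
  obtain ⟨U, hU⟩ : ∃ U : Set (Place (gen k W) K), U = {P | P.ord f₀ ≠ 0} ∪ {P | P.ord f₁ ≠ 0} :=
    ⟨_, rfl⟩
  have hUf : U.Finite := by
    rw [hU]
    exact (finite_support f₀).union (finite_support f₁)
  obtain ⟨S', hS'⟩ : ∃ S' : Set K, S' = insert 1 (s₀ '' U ∪ s₁ '' U) := ⟨_, rfl⟩
  have hS'f : S'.Finite := by
    rw [hS']
    exact ((hUf.image _).union (hUf.image _)).insert _
  have hS'S : S' ⊆ S := by
    rw [hS']
    rintro x (rfl | ⟨P, -, rfl⟩ | ⟨P, -, rfl⟩)
    · exact h1
    · exact hs₀ P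
    · exact hs₁ P
  have h1' : (1 : K) ∈ S' := by rw [hS']; exact Set.mem_insert _ _
  have c₀ : Bnd (gen k W) S' B f₀ := by
    intro P
    by_cases hP : P.ord f₀ = 0
    · exact ⟨1, h1', one_ne_zero, by rw [P.ord_one, hP, mul_zero]⟩
    · refine ⟨s₀ P, ?_, hs₀0 P, hs₀' P⟩
      rw [hS']
      exact Or.inr (Or.inl ⟨P, by rw [hU]; exact Or.inl hP, rfl⟩)
  have c₁ : Bnd (gen k W) S' B f₁ := by
    intro P
    by_cases hP : P.ord f₁ = 0
    · exact ⟨1, h1', one_ne_zero, by rw [P.ord_one, hP, mul_zero]⟩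
    · refine ⟨s₁ P, ?_, hs₁0 P, hs₁' P⟩
      rw [hS']
      exact Or.inr (Or.inr ⟨P, by rw [hU]; exact Or.inr hP, rfl⟩)
  obtain ⟨v, hv, -, hle⟩ := one_var (k₀ := k) (k := gen k W) hS'f h1' hf₀ hf₁ c₀ c₁ htr
  refine ⟨v, Submodule.span_mono hS'S hv, ?_⟩
  rw [dm_cons, dm_cons]
  exact hle

variable {S : Set K} (c : Ctx n k S)

include c

/-- comparison of rational multiples of spaces -/
theorem I_rat {V B : Cls k S} {p q : ℕ} (hp : 1 ≤ p) {h : K} (hh : h ≠ 0)
    (hdom : ∀ v ∈ V.V, DBnd n k (B.V : Set K) q (h * v ^ p)) {s : Multiset (Cls k S)}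
    (hs : s.card + 1 = n) : p * I (V ::ₘ s) ≤ q * I (B ::ₘ s) := by
  obtain ⟨W, hW, e⟩ := exists_max c (s := V ::ₘ s) (by rw [Multiset.card_cons]; exact hs)
  obtain ⟨x, W', hx, hW', rfl⟩ := sel_cons_right hW
  have hc : W'.card + 1 = n := by rw [hW'.card]; exact hs
  have h1 := dm_pow c.hn (z := x) hc hp
  obtain ⟨v, hv, hle⟩ := repl_inf c.hn (S := (B.V : Set K)) B.one (B := q) (f₀ := h * 1 ^ p)
    (f₁ := h * x ^ p) (by rwa [one_pow, mul_one]) (hdom 1 V.one) (hdom x hx) hc
  rw [mul_div_mul_left _ _ hh, one_pow, div_one] at hle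
  rw [Submodule.span_eq] at hv
  rw [← e]
  exact h1.trans (hle.trans (Nat.mul_le_mul_left _
    (le_I c (by rw [Multiset.card_cons]; exact hs) (sel_cons hv hW'))))

/-- **Products**: the other inequality. -/
theorem I_mul_ge {D V V' : Cls k S} (h : V.V * V'.V ≤ D.V) {s : Multiset (Cls k S)}
    (hs : s.card + 1 = n) : I (V ::ₘ s) + I (V' ::ₘ s) ≤ I (D ::ₘ s) := by
  classical
  have hcard : ∀ V : Cls k S, (V ::ₘ s).card = n := fun V => by
    rw [Multiset.card_cons]; exact hs
  obtain ⟨W1, hW1, e1⟩ := exists_max c (hcard V)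
  obtain ⟨x, W, hx, hW, rfl⟩ := sel_cons_right hW1
  obtain ⟨W1', hW1', e1'⟩ := exists_max c (hcard V')
  obtain ⟨x', W', hx', hW', rfl⟩ := sel_cons_right hW1'
  have p0 := I_pos c (hcard V)
  have p1 := I_pos c (hcard V')
  rw [← e1] at p0
  rw [← e1'] at p1
  have eq1 : ∀ (x : K) (W : Multiset K), W + (x ::ₘ 0) = x ::ₘ W := by
    intro x W
    rw [Multiset.add_cons, add_zero]
  have cW : W.card = s.card := hW.card
  have cW' : W'.card = s.card := hW'.card
  obtain ⟨W2, hW2, i0, i1⟩ := common c.hn s W W' (x ::ₘ 0) (x' ::ₘ 0) hW hW'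
    (by rw [eq1]; simp only [Multiset.card_cons]; omega)
    (by rw [eq1]; simp only [Multiset.card_cons]; omega)
    (by rw [eq1]; exact p0.ne') (by rw [eq1]; exact p1.ne')
  rw [eq1, eq1] at i0 i1
  have cW2 : W2.card + 1 = n := by rw [hW2.card]; exact hs
  have q0 : dm k (x ::ₘ W2) ≠ 0 := (p0.trans_le i0).ne'
  have q1 : dm k (x' ::ₘ W2) ≠ 0 := (p1.trans_le i1).ne'
  have := cz_gen (k := k) W2
  have htr := transc_of_dm c.hn cW2 q0
  have htr' := transc_of_dm c.hn cW2 q1
  have hff := ff_of_dm c.hn cW2 q0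
  have hx0 : x ≠ 0 := by
    rintro rfl
    exact htr isAlgebraic_zero
  have hx0' : x' ≠ 0 := by
    rintro rfl
    exact htr' isAlgebraic_zero
  obtain ⟨U, hU⟩ : ∃ U : Set (Place (gen k W2) K), U = {P | P.ord x ≠ 0} ∪ {P | P.ord x' ≠ 0} :=
    ⟨_, rfl⟩
  have hUf : U.Finite := by
    rw [hU]
    exact (finite_support x).union (finite_support x')
  -- generic elements
  have key : ∀ (V : Cls k S) (x : K), x ∈ V.V → x ≠ 0 → ∃ v ∈ V.V, v ≠ 0 ∧ ∀ P ∈ U,
      P.ord v ≤ min (P.ord x) 0 := by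
    intro V x hx hx0
    obtain ⟨v, hv, hav⟩ := avoid V.V (insert ⊥ (hUf.toFinset.image
      fun P => geSub k P (min (P.ord x) 0 + 1))) (fun X hX => by
        rw [Finset.mem_insert, Finset.mem_image] at hX
        rcases hX with rfl | ⟨P, -, rfl⟩
        · exact ⟨x, hx, by rwa [Submodule.mem_bot]⟩
        · rcases le_total (P.ord x) 0 with hP | hP
          · refine ⟨x, hx, ?_⟩
            rw [mem_geSub, min_eq_left hP]
            rintro (h | h)
            · exact hx0 h
            · omega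
          · refine ⟨1, V.one, ?_⟩
            rw [mem_geSub, min_eq_right hP, P.ord_one]
            rintro (h | h)
            · exact one_ne_zero h
            · omega)
    refine ⟨v, hv, ?_, fun P hP => ?_⟩
    · have h1 := hav ⊥ (Finset.mem_insert_self _ _)
      rwa [Submodule.mem_bot] at h1
    · have h1 := hav (geSub k P (min (P.ord x) 0 + 1)) (Finset.mem_insert_of_mem
        (Finset.mem_image_of_mem _ (by rw [Set.Finite.mem_toFinset]; exact hP)))
      rw [mem_geSub, not_or] at h1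
      omega
  obtain ⟨v, hv, hv0, hvU⟩ := key V x hx hx0
  obtain ⟨v', hv', hv0', hvU'⟩ := key V' x' hx' hx0'
  have hle : polar (k := gen k W2) x + polar (k := gen k W2) x' ≤
      polar (k := gen k W2) (v * v') := by
    intro P
    rw [Finsupp.add_apply, polar_apply, polar_apply, polar_apply, P.ord_mul hv0 hv0']
    by_cases hP : P ∈ U
    · have h1 := hvU P hP
      have h2 := hvU' P hP
      omega
    · rw [hU, Set.mem_union, not_or] at hP
      have h1 : P.ord x = 0 := not_not.1 hP.1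
      have h2 : P.ord x' = 0 := not_not.1 hP.2
      rw [h1, h2]
      simp
  have h2 := ddeg_mono hle
  rw [ddeg_add, ddeg_polar htr, ddeg_polar htr'] at h2
  have h3 := ddeg_polar_le (F := gen k W2) (mul_ne_zero hv0 hv0')
  have h4 : dm k (x ::ₘ W2) + dm k (x' ::ₘ W2) ≤ dm k ((v * v') ::ₘ W2) := by
    rw [dm_cons, dm_cons, dm_cons]
    have : (finrank (gen k W2)⟮x⟯ K : ℤ) + finrank (gen k W2)⟮x'⟯ K ≤
        finrank (gen k W2)⟮v * v'⟯ K := by linarith
    exact_mod_cast this
  rw [← e1, ← e1']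
  refine (Nat.add_le_add i0 i1).trans (h4.trans ?_)
  exact le_I c (hcard D) (sel_cons (h (Submodule.mul_mem_mul hv hv')) hW2)

end

end Pool.Agent.N110
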