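import Pool.Agent.N110.Joint

/-!
**The plateau theorem** for semigroups of birational self-maps: joint dynamical degrees and the
numerical dimension of `K_X + Δ`.
-/

set_option autoImplicit false
set_option linter.overlappingInstances false
set_option linter.unusedSectionVars false

open FF Module MvPolynomial Pool.Agent.W602.GT Pool.Agent.W603.LV
open Pool.Agent.Y172 Pool.Agent.Y191 Pool.Agent.R887
open scoped ENNReal Topology

namespace Pool.Agent.N110

/-- exponential bounds from the upper limit of the roots -/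
theorem ev_of_limsup {d : ℕ → ℝ≥0∞} {L : ℝ} (hL : 0 < L)
    (h : Filter.limsup (fun l : ℕ => d l ^ (1 / (l : ℝ))) Filter.atTop <
      ENNReal.ofReal L) : ∃ l0 : ℕ, ∀ l, l0 ≤ l → d l ≤ ENNReal.ofReal (L ^ l) := by
  have h1 := Filter.eventually_lt_of_limsup_lt h
  obtain ⟨l0, hl0⟩ := Filter.eventually_atTop.1 h1
  refine ⟨l0 + 1, fun l hl => ?_⟩
  have h2 := hl0 l (by omega)
  have hl1 : (0 : ℝ) < l := by
    have : 0 < l := by omega
    exact_mod_cast this
  have h4 := ENNReal.rpow_le_rpow h2.le hl1.le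
  rw [← ENNReal.rpow_mul, one_div, inv_mul_cancel₀ hl1.ne', ENNReal.rpow_one,
    ENNReal.rpow_natCast, ← ENNReal.ofReal_pow hL.le] at h4
  exact h4

/-- the upper limit of the roots from exponential bounds -/
theorem limsup_of_bd {d : ℕ → ℝ≥0∞} {L A : ℝ} (hL : 0 < L)
    (h : ∀ l, d l ≤ ENNReal.ofReal (A * L ^ l)) :
    Filter.limsup (fun l : ℕ => d l ^ (1 / (l : ℝ))) Filter.atTop ≤
      ENNReal.ofReal L := by
  obtain ⟨B, hB⟩ : ∃ B : ℝ, B = |A| + 1 := ⟨_, rfl⟩
  have hB0 : 0 < B := by rw [hB]; positivity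
  have hAB : A ≤ B := by rw [hB]; linarith [le_abs_self A]
  have hlim : Filter.Tendsto (fun l : ℕ => ENNReal.ofReal (B ^ (1 / (l : ℝ)) * L)) Filter.atTop
      (𝓝 (ENNReal.ofReal (1 * L))) := by
    refine ENNReal.tendsto_ofReal (Filter.Tendsto.mul_const _ ?_)
    have h1 : Filter.Tendsto (fun l : ℕ => 1 / (l : ℝ)) Filter.atTop (𝓝 0) :=
      tendsto_one_div_atTop_nhds_zero_nat
    have h2 := (Real.continuousAt_const_rpow hB0.ne' (b := 0)).tendsto.comp h1
    rw [Real.rpow_zero] at h2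
    exact h2
  rw [one_mul] at hlim
  rw [← hlim.limsup_eq]
  refine Filter.limsup_le_limsup ?_
  filter_upwards [Filter.eventually_gt_atTop 0] with l hl
  have hl1 : (0 : ℝ) < l := by exact_mod_cast hl
  have h3 : d l ≤ ENNReal.ofReal (B * L ^ l) := by
    refine (h l).trans (ENNReal.ofReal_le_ofReal ?_)
    exact mul_le_mul_of_nonneg_right hAB (by positivity)
  refine (ENNReal.rpow_le_rpow h3 (by positivity)).trans (le_of_eq ?_)
  rw [ENNReal.ofReal_rpow_of_nonneg (by positivity) (by positivity),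
    Real.mul_rpow hB0.le (by positivity)]
  congr 2
  rw [one_div]
  exact Real.pow_rpow_inv_natCast hL.le (by omega)

section

variable {K : Type} [Field K] [Algebra ℂ K] {N n : ℕ} {y : Fin (N + 1) → K}

/-- the joint dynamical degrees of one map are its dynamical degrees -/
theorem jointDegree_singleton (φ : K ≃ₐ[ℂ] K) (p : ℕ) :
    jointDegree {φ} y n p = dynDegree φ y n p := by
  unfold jointDegree dynDegree
  congr 1
  funext l
  congr 1
  refine le_antisymm (iSup_le fun w => iSup_le fun hw => iSup_le fun hwS => ?_) ?_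
  · have e1 : w = List.replicate l φ := List.eq_replicate_iff.2 ⟨hw, hwS⟩
    rw [e1, List.prod_replicate]
  · refine le_iSup_of_le (List.replicate l φ) (le_iSup_of_le (List.length_replicate)
      (le_iSup_of_le (fun ψ hψ => List.eq_of_mem_replicate hψ) ?_))
    rw [List.prod_replicate]

/-- **The plateau theorem**, for the largest `ν`. -/
theorem jplateau_aux (hy : NormalModel y) (hn : Algebra.trdeg ℂ K = n) {Δ : Place ℂ K → ℚ}
    (hΔ : {P | IsPrimeDivisor y P ∧ Δ P ≠ 0}.Finite)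
    {S : Set (K ≃ₐ[ℂ] K)} (h1 : ∀ φ ∈ S, PullLe φ y n Δ) (h2 : ∀ φ ∈ S, PullLe φ.symm y n Δ)
    {C₁ : ℕ} (hC₁ : ∀ φ ∈ S, mixedDegree φ y n 1 ≤ C₁) {ν : ℕ} (hν : ν ≤ n)
    (hnum : ¬ NumDimLt y n Δ ν) (hnum' : ν + 1 ≤ n → NumDimLt y n Δ (ν + 1)) :
    ∃ j, j + ν ≤ n ∧ ∀ a ≤ ν, ∀ p ≤ n, jointDegree S y n p ≤ jointDegree S y n (j + a) := by
  classical
  rcases Nat.eq_zero_or_pos n with rfl | hn0
  · refine ⟨0, by omega, fun a ha p hp => ?_⟩
    obtain rfl : a = 0 := by omega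
    obtain rfl : p = 0 := by omega
    exact le_rfl
  obtain ⟨i, hi⟩ := hy.ne
  by_contra hcon
  push Not at hcon
  obtain ⟨d, hd⟩ : ∃ d : ℕ → ℕ → ℝ≥0∞, ∀ p l, d p l = ⨆ (w : List (K ≃ₐ[ℂ] K))
      (_ : w.length = l) (_ : ∀ φ ∈ w, φ ∈ S), mixedDegree w.prod y n p := ⟨_, fun _ _ => rfl⟩
  have hdyn : ∀ p, jointDegree S y n p =
      Filter.limsup (fun l : ℕ => d p l ^ (1 / (l : ℝ))) Filter.atTop := by
    intro p
    unfold jointDegree
    congr 1
    funext l
    rw [hd]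
  obtain ⟨p0, hp0, hmax⟩ := Finset.exists_max_image (Finset.range (n + 1))
    (fun p => jointDegree S y n p) ⟨0, by simp⟩
  rw [Finset.mem_range] at hp0
  have hcon' : ∀ j, j + ν ≤ n → ∃ a ≤ ν, jointDegree S y n (j + a) < jointDegree S y n p0 := by
    intro j hj
    obtain ⟨a, ha, p, hp, hlt⟩ := hcon j hj
    exact ⟨a, ha, hlt.trans_le (hmax p (Finset.mem_range.2 (by omega)))⟩
  choose a ha halt using hcon'
  obtain ⟨B, hB⟩ : ∃ B : ℝ≥0∞, B = (Finset.range (n + 1)).sup fun j =>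
      if hj : j + ν ≤ n then jointDegree S y n (j + a j hj) else 0 := ⟨_, rfl⟩
  have hBlt : B < jointDegree S y n p0 := by
    rw [hB, Finset.sup_lt_iff]
    · intro j _
      split_ifs with hj
      · exact halt j hj
      · exact zero_le.trans_lt (halt 0 (by omega))
    · exact zero_le.trans_lt (halt 0 (by omega))
  obtain ⟨L, hL1, hL2⟩ := ENNReal.lt_iff_exists_nnreal_btwn.1 hBlt
  obtain ⟨L', hL3, hL4⟩ := ENNReal.lt_iff_exists_nnreal_btwn.1 hL2
  have hL0 : (0 : ℝ) < L := by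
    have : (0 : ℝ≥0∞) < L := zero_le.trans_lt hL1
    exact_mod_cast this
  have hLL' : (L : ℝ) < L' := by exact_mod_cast hL3
  obtain ⟨A, hA⟩ := growth_joint hy hn hn0 hi hΔ h1 h2 (C₁ := C₁) (fun φ hφ => by
    have h3 := hC₁ φ hφ
    rw [mixedDegree_eq hy hn hi φ (by omega : 1 ≤ n), Nat.cast_le, Multiset.replicate_one,
      Multiset.singleton_add] at h3
    exact h3) hν hnum hnum' hL0 hLL' (by
    intro j hj
    have h3 : jointDegree S y n (j + a j hj) < ENNReal.ofReal L := by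
      rw [ENNReal.ofReal_coe_nnreal]
      refine lt_of_le_of_lt ?_ hL1
      rw [hB]
      have h4 := Finset.le_sup (s := Finset.range (n + 1))
        (f := fun j => if hj : j + ν ≤ n then jointDegree S y n (j + a j hj) else 0)
        (Finset.mem_range.2 (by omega : j < n + 1))
      simp only [dif_pos hj] at h4
      exact h4
    have ha' := ha j hj
    rw [hdyn] at h3
    obtain ⟨l0, hl0⟩ := ev_of_limsup hL0 h3
    refine ⟨a j hj, ha', 1, l0, fun w hw hwS => ?_⟩
    have h4 := hl0 w.length hw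
    have h5 : mixedDegree w.prod y n (j + a j hj) ≤ d (j + a j hj) w.length := by
      rw [hd]
      exact le_iSup_of_le w (le_iSup_of_le rfl (le_iSup_of_le hwS le_rfl))
    have h6 := h5.trans h4
    rw [mixedDegree_eq hy hn hi w.prod (by omega)] at h6
    have h7 := (ENNReal.le_ofReal_iff_toReal_le (ENNReal.natCast_ne_top _) (by positivity)).1 h6
    rw [one_mul]
    simpa using h7)
  have h3 : jointDegree S y n p0 ≤ ENNReal.ofReal L' := by
    rw [hdyn p0]
    refine limsup_of_bd (A := A) (hL0.trans hLL') fun l => ?_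
    rw [hd]
    refine iSup_le fun w => iSup_le fun hw => iSup_le fun hwS => ?_
    rw [mixedDegree_eq hy hn hi w.prod (by omega : p0 ≤ n), ← ENNReal.ofReal_natCast]
    refine ENNReal.ofReal_le_ofReal ?_
    rw [← hw]
    exact hA w hwS p0 (by omega)
  rw [ENNReal.ofReal_coe_nnreal] at h3
  exact absurd hL4 (not_lt.2 h3)

/-- **The plateau theorem.** -/
theorem jplateau (hy : NormalModel y) (hn : Algebra.trdeg ℂ K = n) {Δ : Place ℂ K → ℚ}
    (hΔ : {P | IsPrimeDivisor y P ∧ Δ P ≠ 0}.Finite)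
    {S : Set (K ≃ₐ[ℂ] K)} (h1 : ∀ φ ∈ S, PullLe φ y n Δ) (h2 : ∀ φ ∈ S, PullLe φ.symm y n Δ)
    {C₁ : ℕ} (hC₁ : ∀ φ ∈ S, mixedDegree φ y n 1 ≤ C₁) {ν : ℕ} (hν : ν ≤ n)
    (hnum : ¬ NumDimLt y n Δ ν) :
    ∃ j, j + ν ≤ n ∧ ∀ a ≤ ν, ∀ p ≤ n, jointDegree S y n p ≤ jointDegree S y n (j + a) := by
  classical
  obtain ⟨ν', hν'⟩ : ∃ ν', ν' = Nat.findGreatest (fun k => ¬ NumDimLt y n Δ k) n := ⟨_, rfl⟩
  have e1 : ν ≤ ν' := by rw [hν']; exact Nat.le_findGreatest hν hnum
  have e2 : ν' ≤ n := by rw [hν']; exact Nat.findGreatest_le n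
  have e3 : ¬ NumDimLt y n Δ ν' := by
    rw [hν']
    exact Nat.findGreatest_spec (P := fun k => ¬ NumDimLt y n Δ k) hν hnum
  have e4 : ν' + 1 ≤ n → NumDimLt y n Δ (ν' + 1) := by
    intro h
    have := Nat.findGreatest_is_greatest (P := fun k => ¬ NumDimLt y n Δ k) (n := n)
      (k := ν' + 1) (by rw [← hν']; omega) h
    exact not_not.1 this
  obtain ⟨j, hj, h⟩ := jplateau_aux hy hn hΔ h1 h2 hC₁ e2 e3 e4
  exact ⟨j, by omega, fun a ha p hp => h a (by omega) p hp⟩

end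

end Pool.Agent.N110
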