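import Pool.Agent.R887.Defs

/-!
Definitions: birational self-maps which preserve the log canonical divisor, and dynamical degrees.
-/

set_option autoImplicit false

open FF Pool.Agent.W602.GT Pool.Agent.Y172 Pool.Agent.R887

namespace Pool.Agent.N110

section

variable {K : Type} [Field K] [Algebra ℂ K] {N : ℕ}

/-- Let `f : X ⇢ X` be the birational self-map given by the automorphism `φ` of the function field
`K` of `X`. The divisor `f^* (K_X + Δ)` is at most `K_X + Δ` over the prime divisors of `X`: if `Q`
is a prime divisor of `X` and `P` its image, a divisor over `X`, then the log discrepancy of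
`(X, Δ)` along `P` is at least `1 - Δ Q`. -/
def PullLe (φ : K ≃ₐ[ℂ] K) (y : Fin (N + 1) → K) (n : ℕ) (Δ : Place ℂ K → ℚ) : Prop :=
  ∀ Q : Place ℂ K, IsPrimeDivisor y Q → ∀ P : Place ℂ K, (∀ g, P.ord g = Q.ord (φ g)) →
    ∃ α : ℚ, LogDisc y n Δ P α ∧ 1 - Δ Q ≤ α

open scoped ENNReal in
/-- The intersection number of `p` pull backs by `f` of hyperplane sections of `X` and `n - p`
hyperplane sections of `X`, outside of the base loci: the greatest number of points in the fibres
of the maps `(f^* u, v)`, for pencils of hyperplane sections `u 1, ..., u p` and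
`v 1, ..., v (n - p)`. -/
noncomputable def mixedDegree (φ : K ≃ₐ[ℂ] K) (y : Fin (N + 1) → K) (n p : ℕ) : ℝ≥0∞ :=
  ⨆ (u : Fin p → K) (_ : ∀ a, IsPencil y (u a)) (v : Fin (n - p) → K) (_ : ∀ b, IsPencil y (v b)),
    (degreeOver (fun a => φ (u a)) v : ℝ≥0∞)

open scoped ENNReal in
/-- The `p`-th dynamical degree of the birational self-map `f` of the variety `X` of dimension `n`:
the upper limit of the `l`-th roots of the degrees `(f ^ l)^* H ^ p · H ^ (n - p)`. -/
noncomputable def dynDegree (φ : K ≃ₐ[ℂ] K) (y : Fin (N + 1) → K) (n p : ℕ) : ℝ≥0∞ :=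
  Filter.limsup (fun l : ℕ => mixedDegree (φ ^ l) y n p ^ (1 / (l : ℝ))) Filter.atTop

end

end Pool.Agent.N110
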