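import Pool.Agent.R887.Several
import Pool.Agent.R887.Kap
import Pool.Agent.Helper993.CS.K7

/-!
Degrees of a field over the fields generated by finite multisets of functions.
-/

set_option autoImplicit false
set_option linter.overlappingInstances false
set_option linter.unusedSectionVars false

open FF Module IntermediateField Pool.Agent.R887

namespace Pool.Agent.N110

section

variable {k K : Type} [Field k] [Field K] [Algebra k K]

/-- the field generated by a multiset of functions -/
def gen (k : Type) {K : Type} [Field k] [Field K] [Algebra k K] (W : Multiset K) :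
    IntermediateField k K := IntermediateField.adjoin k {x | x ∈ W}

/-- the degree over the field generated by a multiset of functions (zero if it is infinite) -/
noncomputable def dm (k : Type) {K : Type} [Field k] [Field K] [Algebra k K] (W : Multiset K) :
    ℕ := finrank (gen k W) K

theorem gen_cons (z : K) (W : Multiset K) :
    gen k (z ::ₘ W) = (IntermediateField.adjoin (gen k W) {z}).restrictScalars k := by
  unfold gen
  rw [IntermediateField.adjoin_adjoin_left]
  congr 1
  ext x
  simp only [Multiset.mem_cons, Set.mem_union, Set.mem_singleton_iff]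
  exact or_comm

theorem dm_cons (z : K) (W : Multiset K) : dm k (z ::ₘ W) = finrank (gen k W)⟮z⟯ K := by
  unfold dm
  rw [gen_cons]
  rfl

theorem trdeg_cons (z : K) (W : Multiset K) :
    Algebra.trdeg (gen k (z ::ₘ W)) K = Algebra.trdeg (gen k W)⟮z⟯ K := by
  rw [gen_cons]
  rfl

/-- one more generator -/
theorem trdeg_le_simple (z : K) : Algebra.trdeg k K ≤ Algebra.trdeg k⟮z⟯ K + 1 := by
  have h1 : Algebra.trdeg k k⟮z⟯ + Algebra.trdeg k⟮z⟯ K = Algebra.trdeg k K :=
    _root_.trdeg_add_eq k k⟮z⟯ (A := K)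
  have h2 : Algebra.trdeg k k⟮z⟯ ≤ 1 := by
    have h3 : Algebra.IsAlgebraic (Algebra.adjoin k {AdjoinSimple.gen k z}) k⟮z⟯ := by
      have h4 : IntermediateField.adjoin k {AdjoinSimple.gen k z} = ⊤ := by
        apply IntermediateField.map_injective k⟮z⟯.val
        rw [IntermediateField.adjoin_map, Set.image_singleton]
        ext x
        constructor
        · intro hx
          exact ⟨⟨x, hx⟩, trivial, rfl⟩
        · rintro ⟨y, -, rfl⟩
          exact y.2
      have h5 : Algebra.IsAlgebraic (IntermediateField.adjoin k {AdjoinSimple.gen k z}) k⟮z⟯ := by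
        constructor
        intro x
        have hx : x ∈ IntermediateField.adjoin k {AdjoinSimple.gen k z} := by
          rw [h4]
          trivial
        exact isAlgebraic_algebraMap
          (⟨x, hx⟩ : IntermediateField.adjoin k {AdjoinSimple.gen k z})
      open scoped algebraAdjoinAdjoin in
      exact Algebra.IsAlgebraic.trans _ (IntermediateField.adjoin k {AdjoinSimple.gen k z}) k⟮z⟯
    have h6 := Algebra.IsAlgebraic.trdeg_le_cardinalMk k {AdjoinSimple.gen k z}
    rwa [Cardinal.mk_singleton] at h6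
  rw [← h1, add_comm]
  gcongr

theorem trdeg_simple_le {z : K} (hz : Transcendental k z) :
    Algebra.trdeg k⟮z⟯ K + 1 ≤ Algebra.trdeg k K := by
  have h1 : Algebra.trdeg k k⟮z⟯ + Algebra.trdeg k⟮z⟯ K = Algebra.trdeg k K :=
    _root_.trdeg_add_eq k k⟮z⟯ (A := K)
  have h2 : 1 ≤ Algebra.trdeg k k⟮z⟯ := by
    rw [Cardinal.one_le_iff_ne_zero]
    intro h3
    have h4 : Algebra.IsAlgebraic k k⟮z⟯ := by
      rw [← _root_.trdeg_eq_zero_iff]
      exact h3
    apply hz
    have h5 := h4.isAlgebraic (AdjoinSimple.gen k z)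
    exact (isAlgebraic_algebraMap_iff (algebraMap k⟮z⟯ K).injective).2 h5
  rw [← h1, add_comm]
  gcongr

theorem trdeg_zero_simple {z : K} (hz : IsAlgebraic k z) (h : Algebra.trdeg k⟮z⟯ K = 0) :
    Algebra.trdeg k K = 0 := by
  have h1 : Algebra.trdeg k k⟮z⟯ + Algebra.trdeg k⟮z⟯ K = Algebra.trdeg k K :=
    _root_.trdeg_add_eq k k⟮z⟯ (A := K)
  have h2 : Algebra.trdeg k k⟮z⟯ = 0 := by
    rw [_root_.trdeg_eq_zero_iff]
    exact IntermediateField.isAlgebraic_adjoin_simple hz.isIntegral
  rw [← h1, h, h2, add_zero]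

/-- the number of generators -/
theorem trdeg_le_gen (W : Multiset K) :
    Algebra.trdeg k K ≤ Algebra.trdeg (gen k W) K + W.card := by
  induction W using Multiset.induction_on with
  | empty =>
    have h1 : gen k (0 : Multiset K) = ⊥ := by
      unfold gen
      simp
    rw [h1]
    have h2 : Algebra.trdeg k (⊥ : IntermediateField k K) +
        Algebra.trdeg (⊥ : IntermediateField k K) K = Algebra.trdeg k K :=
      _root_.trdeg_add_eq k (⊥ : IntermediateField k K) (A := K)
    have h3 : Algebra.trdeg k (⊥ : IntermediateField k K) = 0 := _root_.trdeg_eq_zero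
    rw [← h2, h3, zero_add]
    simp
  | cons z W ih =>
    refine ih.trans ?_
    rw [trdeg_cons, Multiset.card_cons]
    have h1 := trdeg_le_simple (k := gen k W) z
    push_cast
    rw [← add_assoc, add_right_comm]
    gcongr

variable {n : ℕ}

theorem alg_of_dm {W : Multiset K} (h : dm k W ≠ 0) : Algebra.IsAlgebraic (gen k W) K := by
  have h1 : FiniteDimensional (gen k W) K :=
    FiniteDimensional.of_finrank_pos (Nat.pos_of_ne_zero h)
  infer_instance

theorem transc_of_dm (hn : Algebra.trdeg k K = n) {z : K} {W : Multiset K}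
    (hW : W.card + 1 = n) (h : dm k (z ::ₘ W) ≠ 0) : Transcendental (gen k W) z := by
  intro hz
  have h1 := alg_of_dm h
  have h2 : Algebra.trdeg (gen k W)⟮z⟯ K = 0 := by
    rw [← trdeg_cons]
    exact _root_.trdeg_eq_zero
  have h4 := trdeg_zero_simple (k := gen k W) hz h2
  have h5 := trdeg_le_gen (k := k) W
  rw [h4, hn, ← hW] at h5
  have h6 : ((W.card + 1 : ℕ) : Cardinal) ≤ (W.card : Cardinal) := by
    rwa [zero_add] at h5
  have h7 : W.card + 1 ≤ W.card := by exact_mod_cast h6
  omega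

theorem ff_of_dm (hn : Algebra.trdeg k K = n) {z : K} {W : Multiset K}
    (hW : W.card + 1 = n) (h : dm k (z ::ₘ W) ≠ 0) : IsFF (gen k W) K := by
  have h1 := transc_of_dm hn hW h
  have h2 : FiniteDimensional (gen k W)⟮z⟯ K := FiniteDimensional.of_finrank_pos (by
    rw [← dm_cons]
    exact Nat.pos_of_ne_zero h)
  exact IsFF.of_finite h1 h2

end

section

variable {k K : Type} [Field k] [CharZero k] [Field K] [Algebra k K] {n : ℕ}

theorem cz_gen (W : Multiset K) : CharZero (gen k W) :=
  charZero_of_injective_algebraMap (algebraMap k (gen k W)).injective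

/-- one of the functions is replaced -/
theorem repl (hn : Algebra.trdeg k K = n) {S : Set K} (hS : S.Finite) (h1 : (1 : K) ∈ S)
    {B : ℕ} {f₀ f₁ : K} (hf₀ : f₀ ≠ 0) (hb₀ : Bnd k S B f₀) (hb₁ : Bnd k S B f₁)
    {W : Multiset K} (hW : W.card + 1 = n) :
    ∃ v ∈ Submodule.span k S, dm k ((f₁ / f₀) ::ₘ W) ≤ B * dm k (v ::ₘ W) := by
  by_cases h0 : dm k ((f₁ / f₀) ::ₘ W) = 0
  · exact ⟨1, Submodule.subset_span h1, by rw [h0]; exact Nat.zero_le _⟩
  have := cz_gen (k := k) W
  have htr := transc_of_dm hn hW h0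
  have hff := ff_of_dm hn hW h0
  have hf₁ : f₁ ≠ 0 := by
    rintro rfl
    rw [zero_div] at htr
    exact htr isAlgebraic_zero
  have : Infinite k := inferInstance
  obtain ⟨v, hv, -, hle⟩ := one_var (k₀ := k) (k := gen k W) hS h1 hf₀ hf₁ (Bnd.up hb₀)
    (Bnd.up hb₁) htr
  refine ⟨v, hv, ?_⟩
  rw [dm_cons, dm_cons]
  exact hle

/-- the condition for larger degrees -/
theorem improve (hn : Algebra.trdeg k K = n) {z : K} {W : Multiset K} (hW : W.card + 1 = n)
    (h0 : dm k (z ::ₘ W) ≠ 0) : ∃ U : Finset (Submodule k K), (∀ X ∈ U, z ∉ X) ∧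
      ∀ v, (∀ X ∈ U, v ∉ X) → dm k (z ::ₘ W) ≤ dm k (v ::ₘ W) := by
  classical
  have := cz_gen (k := k) W
  have htr := transc_of_dm hn hW h0
  have hff := ff_of_dm hn hW h0
  have hz0 : z ≠ 0 := by
    rintro rfl
    exact htr isAlgebraic_zero
  have hfin := finite_support (k := gen k W) z
  obtain ⟨U, hU⟩ : ∃ U : Finset (Submodule k K), U = insert ⊥ (hfin.toFinset.image
    fun P => geSub k P (P.ord z + 1)) := ⟨_, rfl⟩
  refine ⟨U, fun X hX => ?_, fun v hv => ?_⟩
  · rw [hU, Finset.mem_insert, Finset.mem_image] at hX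
    rcases hX with rfl | ⟨P, -, rfl⟩
    · rwa [Submodule.mem_bot]
    · rw [mem_geSub]
      rintro (h | h)
      · exact hz0 h
      · omega
  · have hv0 : v ≠ 0 := by
      have h1 := hv ⊥ (by rw [hU]; exact Finset.mem_insert_self _ _)
      rwa [Submodule.mem_bot] at h1
    have hle : polar (k := gen k W) z ≤ polar (k := gen k W) v := by
      intro P
      rw [polar_apply, polar_apply]
      by_cases hP : P.ord z = 0
      · rw [hP]
        simp
      · have h1 := hv (geSub k P (P.ord z + 1)) (by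
          rw [hU]
          exact Finset.mem_insert_of_mem (Finset.mem_image_of_mem _ (by
            rw [Set.Finite.mem_toFinset]
            exact hP)))
        rw [mem_geSub, not_or] at h1
        have h2 := h1.2
        refine max_le_max ?_ le_rfl
        omega
    have h2 := ddeg_mono hle
    rw [ddeg_polar htr] at h2
    have h3 : (0 : ℤ) < finrank (gen k W)⟮z⟯ K := by
      rw [← dm_cons]
      exact_mod_cast Nat.pos_of_ne_zero h0
    have hvt : Transcendental (gen k W) v := by
      intro halg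
      have h4 : polar (k := gen k W) v = 0 := by
        ext P
        rw [polar_apply, P.ord_eq_zero_of_isAlgebraic hv0 halg]
        simp
      rw [h4, ddeg_zero] at h2
      omega
    rw [ddeg_polar hvt] at h2
    rw [dm_cons, dm_cons]
    exact_mod_cast h2

/-- finitely many subspaces are avoided -/
theorem avoid (V : Submodule k K) (U : Finset (Submodule k K)) (hU : ∀ X ∈ U, ∃ e ∈ V, e ∉ X) :
    ∃ v ∈ V, ∀ X ∈ U, v ∉ X := by
  classical
  obtain ⟨F, hF⟩ : ∃ F : Finset (Submodule k V), F = U.image fun X => X.comap V.subtype :=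
    ⟨_, rfl⟩
  have hF1 : (⊤ : Submodule k V) ∉ F := by
    intro h
    rw [hF, Finset.mem_image] at h
    obtain ⟨X, hX, h2⟩ := h
    obtain ⟨e, he, heX⟩ := hU X hX
    have h1 : (⟨e, he⟩ : V) ∈ (⊤ : Submodule k V) := trivial
    rw [← h2] at h1
    exact heX h1
  have h1 := Subspace.biUnion_ne_univ_of_top_notMem hF1
  obtain ⟨v, hv⟩ := (Set.ne_univ_iff_exists_notMem _).1 h1
  simp only [Set.mem_iUnion, not_exists] at hv
  refine ⟨v, v.2, fun X hX hvX => ?_⟩
  exact hv (X.comap V.subtype) (by rw [hF]; exact Finset.mem_image_of_mem _ hX) hvX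

/-- the degree for a power -/
theorem dm_pow (hn : Algebra.trdeg k K = n) {z : K} {W : Multiset K} (hW : W.card + 1 = n)
    {q : ℕ} (hq : 1 ≤ q) : q * dm k (z ::ₘ W) ≤ dm k ((z ^ q) ::ₘ W) := by
  by_cases h0 : dm k (z ::ₘ W) = 0
  · rw [h0, mul_zero]
    exact Nat.zero_le _
  have := cz_gen (k := k) W
  have htr := transc_of_dm hn hW h0
  have hff := ff_of_dm hn hW h0
  have htq : Transcendental (gen k W) (z ^ q) := htr.pow (by omega)
  have h5 := ddeg_polar (k := gen k W) htr
  have h6 := ddeg_polar (k := gen k W) htq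
  have h7 : polar (k := gen k W) (z ^ q) = q • polar (k := gen k W) z := by
    ext P
    rw [polar_apply, Finsupp.smul_apply, polar_apply, P.ord_pow, nsmul_eq_mul,
      mul_max_of_nonneg _ _ (Int.natCast_nonneg q), mul_zero, mul_neg]
  rw [h7, ddeg_nsmul, h5] at h6
  rw [dm_cons, dm_cons]
  exact_mod_cast h6.le

/-- the poles of generic combinations -/
theorem generic_pol {F : IntermediateField k K} [IsFF F K] [CharZero F] {S : Set K}
    (hS : S.Finite) (h1 : (1 : K) ∈ S) :
    ∃ v ∈ Submodule.span k S, v ≠ 0 ∧ ∀ (P : Place F K), ∀ s ∈ S, s ≠ 0 →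
      -(polar (k := F) v P) ≤ P.ord s := by
  have : Infinite k := inferInstance
  obtain ⟨v, hvS, hv0, hv⟩ := exists_generic (k₀ := k) hS
    (⋃ s ∈ S, {P : Place F K | P.ord s ≠ 0}) (hS.biUnion fun s _ => finite_support s)
    ⟨1, h1, one_ne_zero⟩
  refine ⟨v, hvS, hv0, fun P s hs hs0 => ?_⟩
  by_cases h2 : P.ord s = 0
  · rw [h2]
    have := polar_nonneg (k := F) v P
    simp only [Finsupp.coe_zero, Pi.zero_apply] at this
    omega
  · have h3 := hv P (Set.mem_iUnion₂.2 ⟨s, hs, h2⟩) s hs hs0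
    rw [polar_apply]
    have := le_max_left (-P.ord v) 0
    omega

theorem ddeg_polar_le {F : IntermediateField k K} [IsFF F K] [CharZero F] {v : K}
    (hv0 : v ≠ 0) : ddeg (polar (k := F) v) ≤ finrank F⟮v⟯ K := by
  by_cases hv : Transcendental F v
  · rw [ddeg_polar hv]
  · have halg : IsAlgebraic F v := not_not.1 hv
    have h4 : polar (k := F) v = 0 := by
      ext P
      rw [polar_apply, P.ord_eq_zero_of_isAlgebraic hv0 halg]
      simp
    rw [h4, ddeg_zero]
    exact Int.natCast_nonneg _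

/-- **The degree is subadditive.** -/
theorem repl_add (hn : Algebra.trdeg k K = n) {S₁ S₂ : Set K} (hS₁ : S₁.Finite)
    (hS₂ : S₂.Finite) (h₁ : (1 : K) ∈ S₁) (h₂ : (1 : K) ∈ S₂) {z : K}
    (hz : ∀ P : Place k K, ∃ s₁ ∈ S₁, ∃ s₂ ∈ S₂, s₁ ≠ 0 ∧ s₂ ≠ 0 ∧ P.ord s₁ + P.ord s₂ ≤ P.ord z)
    {W : Multiset K} (hW : W.card + 1 = n) :
    ∃ v₁ ∈ Submodule.span k S₁, ∃ v₂ ∈ Submodule.span k S₂,
      dm k (z ::ₘ W) ≤ dm k (v₁ ::ₘ W) + dm k (v₂ ::ₘ W) := by
  by_cases h0 : dm k (z ::ₘ W) = 0
  · exact ⟨1, Submodule.subset_span h₁, 1, Submodule.subset_span h₂, by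
      rw [h0]; exact Nat.zero_le _⟩
  have := cz_gen (k := k) W
  have htr := transc_of_dm hn hW h0
  have hff := ff_of_dm hn hW h0
  obtain ⟨v₁, hv₁, hv₁0, hp₁⟩ := generic_pol (F := gen k W) hS₁ h₁
  obtain ⟨v₂, hv₂, hv₂0, hp₂⟩ := generic_pol (F := gen k W) hS₂ h₂
  refine ⟨v₁, hv₁, v₂, hv₂, ?_⟩
  have hle : polar (k := gen k W) z ≤ polar (k := gen k W) v₁ + polar (k := gen k W) v₂ := by
    intro P
    obtain ⟨s₁, hs₁, s₂, hs₂, hs₁0, hs₂0, hs⟩ := hz (down (gen k W) P)
    have e1 := hp₁ P s₁ hs₁ hs₁0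
    have e2 := hp₂ P s₂ hs₂ hs₂0
    have e3 : P.ord s₁ + P.ord s₂ ≤ P.ord z := hs
    have e4 := polar_nonneg (k := gen k W) v₁ P
    have e5 := polar_nonneg (k := gen k W) v₂ P
    simp only [Finsupp.coe_zero, Pi.zero_apply] at e4 e5
    rw [Finsupp.add_apply, polar_apply z]
    refine max_le ?_ ?_ <;> omega
  have h2 := ddeg_mono hle
  rw [ddeg_add, ddeg_polar htr] at h2
  have h3 := ddeg_polar_le (F := gen k W) hv₁0
  have h4 := ddeg_polar_le (F := gen k W) hv₂0
  rw [dm_cons, dm_cons, dm_cons]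
  have h5 : (finrank (gen k W)⟮z⟯ K : ℤ) ≤ finrank (gen k W)⟮v₁⟯ K + finrank (gen k W)⟮v₂⟯ K := by
    linarith
  exact_mod_cast h5

end

end Pool.Agent.N110
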