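import Pool.Agent.N110.Ex

/-!
The abstract form of the plateau theorem: growth of mixed products under an automorphism which
preserves the products and a sequence of elements.
-/

set_option autoImplicit false

open Multiset Filter Topology

namespace Pool.Agent.N110

variable {α : Type*}

/-- `a ≤ c b` for the form `t` on multisets with `n` elements -/
def Le (n : ℕ) (t : Multiset α → ℝ) (c : ℝ) (a b : α) : Prop :=
  ∀ s : Multiset α, s.card + 1 = n → t (a ::ₘ s) ≤ c * t (b ::ₘ s)

structure Data (n : ℕ) (t : Multiset α → ℝ) (f : Equiv.Perm α) (H : α) (m : ℕ → ℝ)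
    (M : ℕ → ℕ → α) (D : ℕ → ℕ → ℕ → α) (ν : ℕ) (c β ε : ℝ) : Prop where
  pos : ∀ s : Multiset α, s.card = n → 0 < t s
  ex : Exch n t
  inv : ∀ s : Multiset α, s.card = n → t (s.map f) = t s
  hν : ν ≤ n
  hc : 0 < c
  hβ : 0 < β
  hε : 0 < ε
  m_pos : ∀ q, 0 < m q
  m_tend : Tendsto m atTop atTop
  M_mono : ∀ r q, Le n t 1 (M r q) (M (r + 1) q)
  M_f : ∀ r q, Le n t 1 (f (M r q)) (M (r + 1) q)
  M_finv : ∀ r q, Le n t 1 (f.symm (M r q)) (M (r + 1) q)
  M_le : ∀ r, ∀ᶠ q in atTop, Le n t (c * m q) (M r q) H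
  H_f : Le n t β (f H) H
  D_add : ∀ r q v, 0 < v → ∀ s : Multiset α, s.card + 1 = n →
    t (D r q v ::ₘ s) ≤ t (M r q ::ₘ s) + v * t (H ::ₘ s)
  D_M : ∀ r q v, 0 < v → Le n t 1 (M r q) (D r q v)
  D_H : ∀ r q v, 0 < v → ∀ s : Multiset α, s.card + 1 = n →
    v * t (H ::ₘ s) ≤ t (D r q v ::ₘ s)
  eps : ∀ q, ε * m q ^ ν ≤ t (replicate ν (M 0 q) + replicate (n - ν) H)
  zero : ν + 1 ≤ n → ∀ r, ∀ δ : ℝ, 0 < δ → ∀ᶠ q in atTop,
    t (replicate (ν + 1) (M r q) + replicate (n - (ν + 1)) H) ≤ δ * m q ^ (ν + 1)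

section basic

variable {n : ℕ} {t : Multiset α → ℝ}

theorem Le.rep {c : ℝ} (hc : 0 ≤ c) {a b : α} (h : Le n t c a b) (k : ℕ) :
    ∀ s : Multiset α, s.card + k = n →
      t (replicate k a + s) ≤ c ^ k * t (replicate k b + s) := by
  induction k with
  | zero => intro s _; simp
  | succ k ih =>
    intro s hs
    have h1 := h (replicate k a + s) (by rw [card_add, card_replicate]; omega)
    have h2 := ih (b ::ₘ s) (by rw [card_cons]; omega)
    have e1 : replicate (k + 1) a + s = a ::ₘ (replicate k a + s) := by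
      rw [replicate_succ, cons_add]
    have e2 : replicate k a + b ::ₘ s = b ::ₘ (replicate k a + s) := by rw [add_cons]
    have e3 : replicate k b + b ::ₘ s = replicate (k + 1) b + s := by
      rw [add_cons, replicate_succ, cons_add]
    rw [e2, e3] at h2
    rw [e1, pow_succ]
    calc t (a ::ₘ (replicate k a + s)) ≤ c * t (b ::ₘ (replicate k a + s)) := h1
      _ ≤ c * (c ^ k * t (replicate (k + 1) b + s)) := mul_le_mul_of_nonneg_left h2 hc
      _ = c ^ k * c * t (replicate (k + 1) b + s) := by ring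

theorem Le.trans {c c' : ℝ} (hc : 0 ≤ c) {a b d : α} (h : Le n t c a b) (h' : Le n t c' b d) :
    Le n t (c * c') a d := fun s hs =>
  calc t (a ::ₘ s) ≤ c * t (b ::ₘ s) := h s hs
    _ ≤ c * (c' * t (d ::ₘ s)) := mul_le_mul_of_nonneg_left (h' s hs) hc
    _ = c * c' * t (d ::ₘ s) := by ring

theorem Le.refl (a : α) : Le n t 1 a a := fun s _ => by rw [one_mul]

/-- expansion of a power of a sum -/
theorem expand {D M H : α} {v : ℝ} (hv : 0 < v)
    (hadd : ∀ s : Multiset α, s.card + 1 = n → t (D ::ₘ s) ≤ t (M ::ₘ s) + v * t (H ::ₘ s))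
    (g : ℕ) : ∀ (s : Multiset α) (B : ℝ), s.card + g = n →
      (∀ a ≤ g, v ^ (g - a) * t (replicate a M + (replicate (g - a) H + s)) ≤ B) →
      t (replicate g D + s) ≤ 2 ^ g * B := by
  induction g with
  | zero =>
    intro s B _ h
    simpa using h 0 le_rfl
  | succ g ih =>
    intro s B hs h
    have h1 := hadd (replicate g D + s) (by rw [card_add, card_replicate]; omega)
    have h2 := ih (M ::ₘ s) B (by rw [card_cons]; omega) fun a ha => by
      have h3 := h (a + 1) (by omega)
      have e1 : g + 1 - (a + 1) = g - a := by omega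
      have e2 : replicate (a + 1) M + (replicate (g - a) H + s) =
          replicate a M + (replicate (g - a) H + M ::ₘ s) := by
        rw [replicate_succ, cons_add, add_cons, add_cons]
      rwa [e1, e2] at h3
    have h3 := ih (H ::ₘ s) (B / v) (by rw [card_cons]; omega) fun a ha => by
      have h3 := h a (by omega)
      have e1 : g + 1 - a = (g - a) + 1 := by omega
      have e2 : replicate a M + (replicate (g - a + 1) H + s) =
          replicate a M + (replicate (g - a) H + H ::ₘ s) := by
        congr 1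
        rw [replicate_succ, cons_add, add_cons]
      rw [e1, e2, pow_succ] at h3
      rw [le_div_iff₀ hv]
      linarith
    have e1 : replicate (g + 1) D + s = D ::ₘ (replicate g D + s) := by
      rw [replicate_succ, cons_add]
    have e2 : replicate g D + M ::ₘ s = M ::ₘ (replicate g D + s) := by rw [add_cons]
    have e3 : replicate g D + H ::ₘ s = H ::ₘ (replicate g D + s) := by rw [add_cons]
    rw [e2] at h2
    rw [e3] at h3
    rw [e1, pow_succ]
    have h4 : v * t (H ::ₘ (replicate g D + s)) ≤ 2 ^ g * B := by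
      calc v * t (H ::ₘ (replicate g D + s)) ≤ v * (2 ^ g * (B / v)) :=
            mul_le_mul_of_nonneg_left h3 hv.le
        _ = 2 ^ g * B := by field_simp
    linarith

end basic

namespace Data

variable {n : ℕ} {t : Multiset α → ℝ} {f : Equiv.Perm α} {H : α} {m : ℕ → ℝ}
  {M : ℕ → ℕ → α} {D : ℕ → ℕ → ℕ → α} {ν : ℕ} {c β ε : ℝ}

theorem inv_pow (h : Data n t f H m M D ν c β ε) (l : ℕ) (s : Multiset α) (hs : s.card = n) :
    t (s.map (f ^ l : Equiv.Perm α)) = t s := by
  induction l with
  | zero => simp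
  | succ l ih =>
    have e1 : s.map (f ^ (l + 1) : Equiv.Perm α) = (s.map (f ^ l : Equiv.Perm α)).map f := by
      rw [Multiset.map_map, pow_succ']
      rfl
    rw [e1, h.inv _ (by rw [card_map]; exact hs), ih]

theorem le_map (h : Data n t f H m M D ν c β ε) {c' : ℝ} {a b : α} (hab : Le n t c' a b) (l : ℕ) :
    Le n t c' ((f ^ l : Equiv.Perm α) a) ((f ^ l : Equiv.Perm α) b) := by
  intro s hs
  obtain ⟨s', hs'⟩ : ∃ s', s' = s.map ((f ^ l)⁻¹ : Equiv.Perm α) := ⟨_, rfl⟩
  have e1 : s = s'.map (f ^ l : Equiv.Perm α) := by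
    rw [hs', Multiset.map_map]
    have e2 : ((f ^ l : Equiv.Perm α) : α → α) ∘ (((f ^ l)⁻¹ : Equiv.Perm α) : α → α) = id := by
      funext x
      simp
    rw [e2, Multiset.map_id]
  have hc' : s'.card + 1 = n := by rw [hs', card_map]; exact hs
  rw [e1, ← map_cons, ← map_cons, h.inv_pow _ _ (by rw [card_cons]; exact hc'),
    h.inv_pow _ _ (by rw [card_cons]; exact hc')]
  exact hab s' hc'

theorem mono (h : Data n t f H m M D ν c β ε) (r k q : ℕ) :
    Le n t 1 (M r q) (M (r + k) q) := by
  induction k with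
  | zero => exact Le.refl _
  | succ k ih =>
    have := ih.trans zero_le_one (h.M_mono (r + k) q)
    rwa [one_mul] at this

theorem mono' (h : Data n t f H m M D ν c β ε) {r r' : ℕ} (hr : r ≤ r') (q : ℕ) :
    Le n t 1 (M r q) (M r' q) := by
  obtain ⟨k, rfl⟩ := Nat.exists_eq_add_of_le hr
  exact h.mono r k q

theorem f_pow (h : Data n t f H m M D ν c β ε) (l r q : ℕ) :
    Le n t 1 ((f ^ l : Equiv.Perm α) (M r q)) (M (r + l) q) := by
  induction l generalizing r with
  | zero => exact Le.refl _
  | succ l ih =>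
    have h1 := h.le_map (h.M_f r q) l
    have h2 := ih (r + 1)
    have h3 := h1.trans zero_le_one h2
    rw [one_mul] at h3
    have e1 : (f ^ (l + 1) : Equiv.Perm α) (M r q) = (f ^ l : Equiv.Perm α) (f (M r q)) := by
      rw [pow_succ]
      rfl
    have e2 : r + (l + 1) = r + 1 + l := by omega
    rw [e1, e2]
    exact h3

/-- `M r ≤ f ^ l (M (r + l))` -/
theorem f_pow_inv (h : Data n t f H m M D ν c β ε) (l r q : ℕ) :
    Le n t 1 (M r q) ((f ^ l : Equiv.Perm α) (M (r + l) q)) := by
  induction l generalizing r with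
  | zero => exact Le.refl _
  | succ l ih =>
    have h1 := h.le_map (h.M_finv (r + l) q) (l + 1)
    have h2 := ih r
    have e1 : (f ^ (l + 1) : Equiv.Perm α) (f.symm (M (r + l) q)) =
        (f ^ l : Equiv.Perm α) (M (r + l) q) := by
      rw [pow_succ]
      simp
    rw [e1] at h1
    have h3 := h2.trans zero_le_one h1
    rwa [one_mul] at h3

theorem F_le (h : Data n t f H m M D ν c β ε) (l : ℕ) :
    Le n t (β ^ l) ((f ^ l : Equiv.Perm α) H) H := by
  induction l with
  | zero => rw [pow_zero]; exact Le.refl _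
  | succ l ih =>
    have h1 := h.le_map h.H_f l
    have h2 := h1.trans h.hβ.le ih
    have e1 : (f ^ (l + 1) : Equiv.Perm α) H = (f ^ l : Equiv.Perm α) (f H) := by
      rw [pow_succ]
      rfl
    rw [e1, pow_succ, mul_comm]
    exact h2

/-- `M r ≤ c m f ^ l H` -/
theorem M_le_F (h : Data n t f H m M D ν c β ε) (l r : ℕ) :
    ∀ᶠ q in atTop, Le n t (c * m q) (M r q) ((f ^ l : Equiv.Perm α) H) := by
  filter_upwards [h.M_le (r + l)] with q hq
  have h1 := (h.f_pow_inv l r q).trans zero_le_one (h.le_map hq l)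
  rwa [one_mul] at h1

end Data

/-- the bound for the products -/
def Bd (n : ℕ) (t : Multiset α → ℝ) (f : Equiv.Perm α) (H : α) (m : ℕ → ℝ)
    (M : ℕ → ℕ → α) (l i p : ℕ) (B : ℝ) : Prop :=
  ∀ r, ∀ᶠ q in atTop, t (replicate i (M r q) + (replicate p ((f ^ l : Equiv.Perm α) H) +
    replicate (n - i - p) H)) ≤ B * m q ^ i

namespace Data

variable {n : ℕ} {t : Multiset α → ℝ} {f : Equiv.Perm α} {H : α} {m : ℕ → ℝ}
  {M : ℕ → ℕ → α} {D : ℕ → ℕ → ℕ → α} {ν : ℕ} {c β ε : ℝ}

theorem bd_mono (h : Data n t f H m M D ν c β ε) {l i p : ℕ} {B B' : ℝ}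
    (hB : Bd n t f H m M l i p B) (hle : B ≤ B') : Bd n t f H m M l i p B' := by
  intro r
  filter_upwards [hB r] with q hq
  exact hq.trans (mul_le_mul_of_nonneg_right hle (pow_nonneg (h.m_pos q).le _))

/-- there is some bound -/
theorem bd_exists (h : Data n t f H m M D ν c β ε) {l i p : ℕ} (hip : i + p ≤ n) :
    Bd n t f H m M l i p (c ^ i * ((β ^ l) ^ p * t (replicate n H))) := by
  intro r
  filter_upwards [h.M_le r] with q hq
  have h1 := hq.rep (mul_pos h.hc (h.m_pos q)).le i (replicate p ((f ^ l : Equiv.Perm α) H) +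
    replicate (n - i - p) H) (by rw [card_add, card_replicate, card_replicate]; omega)
  have h2 := (h.F_le l).rep (pow_nonneg h.hβ.le _) p (replicate i H + replicate (n - i - p) H)
    (by rw [card_add, card_replicate, card_replicate]; omega)
  have e1 : replicate i H + (replicate p ((f ^ l : Equiv.Perm α) H) + replicate (n - i - p) H) =
      replicate p ((f ^ l : Equiv.Perm α) H) + (replicate i H + replicate (n - i - p) H) := by
    rw [← add_assoc, ← add_assoc, add_comm (replicate i H)]
  have e2 : replicate p H + (replicate i H + replicate (n - i - p) H) = replicate n H := by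
    rw [← replicate_add, ← replicate_add]
    congr 1
    omega
  rw [e1] at h1
  rw [e2] at h2
  have h3 := h1.trans (mul_le_mul_of_nonneg_left h2
    (pow_nonneg (mul_pos h.hc (h.m_pos q)).le i))
  refine h3.trans (le_of_eq ?_)
  rw [mul_pow]
  ring

/-- the products with many elements `M` are small -/
theorem bd_zero (h : Data n t f H m M D ν c β ε) {l i p : ℕ} (hip : i + p ≤ n) (hi : ν < i)
    {δ : ℝ} (hδ : 0 < δ) : Bd n t f H m M l i p δ := by
  intro r
  obtain ⟨k, rfl⟩ := Nat.exists_eq_add_of_lt hi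
  obtain ⟨C, hC⟩ : ∃ C : ℝ, C = c ^ k * (β ^ l) ^ p := ⟨_, rfl⟩
  have hC0 : 0 < C := by
    rw [hC]
    have := h.hc
    have := h.hβ
    positivity
  have hν : ν + 1 ≤ n := by omega
  filter_upwards [h.M_le r, h.zero hν r (δ / C) (div_pos hδ hC0)] with q hq hq2
  have h1 := hq.rep (mul_pos h.hc (h.m_pos q)).le k (replicate (ν + 1) (M r q) +
    (replicate p ((f ^ l : Equiv.Perm α) H) + replicate (n - (ν + k + 1) - p) H))
    (by rw [card_add, card_add, card_replicate, card_replicate, card_replicate]; omega)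
  have h2 := (h.F_le l).rep (pow_nonneg h.hβ.le _) p (replicate k H + (replicate (ν + 1) (M r q) +
    replicate (n - (ν + k + 1) - p) H))
    (by rw [card_add, card_add, card_replicate, card_replicate, card_replicate]; omega)
  have e0 : replicate k (M r q) + (replicate (ν + 1) (M r q) +
      (replicate p ((f ^ l : Equiv.Perm α) H) + replicate (n - (ν + k + 1) - p) H)) =
      replicate (ν + k + 1) (M r q) +
      (replicate p ((f ^ l : Equiv.Perm α) H) + replicate (n - (ν + k + 1) - p) H) := by
    rw [← add_assoc, ← replicate_add]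
    congr 2
    omega
  have e1 : replicate k H + (replicate (ν + 1) (M r q) +
      (replicate p ((f ^ l : Equiv.Perm α) H) + replicate (n - (ν + k + 1) - p) H)) =
      replicate p ((f ^ l : Equiv.Perm α) H) + (replicate k H + (replicate (ν + 1) (M r q) +
        replicate (n - (ν + k + 1) - p) H)) := by
    rw [add_left_comm (replicate (ν + 1) (M r q)), add_left_comm (replicate k H)]
  have e2 : replicate p H + (replicate k H + (replicate (ν + 1) (M r q) +
      replicate (n - (ν + k + 1) - p) H)) =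
      replicate (ν + 1) (M r q) + replicate (n - (ν + 1)) H := by
    rw [add_left_comm (replicate k H), add_left_comm (replicate p H), ← replicate_add,
      ← replicate_add]
    congr 2
    omega
  rw [e0, e1] at h1
  rw [e2] at h2
  have hm := h.m_pos q
  have hc := h.hc
  have hb := h.hβ
  calc _ ≤ (c * m q) ^ k * _ := h1
    _ ≤ (c * m q) ^ k * ((β ^ l) ^ p *
        t (replicate (ν + 1) (M r q) + replicate (n - (ν + 1)) H)) :=
      mul_le_mul_of_nonneg_left h2 (by positivity)
    _ ≤ (c * m q) ^ k * ((β ^ l) ^ p * (δ / C * m q ^ (ν + 1))) := by gcongr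
    _ = δ * m q ^ (ν + k + 1) := by
      have hcn : c ≠ 0 := hc.ne'
      have hbn : β ≠ 0 := hb.ne'
      rw [hC, mul_pow]
      have e3 : m q ^ (ν + k + 1) = m q ^ k * m q ^ (ν + 1) := by
        rw [← pow_add]
        congr 1
        omega
      rw [e3]
      field_simp

end Data

end Pool.Agent.N110
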