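import Pool.Agent.N110.LDefs
import Pool.Agent.N110.QDefs
import Pool.Agent.R887.Can

/-!
The logarithmic ramification formula for self-maps of open varieties.
-/

set_option autoImplicit false
set_option linter.overlappingInstances false
set_option linter.unusedSectionVars false

open FF MvPolynomial Pool.Agent.W602.GT Pool.Agent.W603.LV Pool.Agent.W619.PQ
open Pool.Agent.Y172 Pool.Agent.Y191 Pool.Agent.R887

namespace Pool.Agent.N110

section

variable {K : Type} [Field K] [Algebra ℂ K] {N n : ℕ} {y : Fin (N + 1) → K}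

/-- Every dominant rational self-map of `X` which maps no prime divisor of the open part into the
boundary satisfies `f^* (K_X + D) ≤ K_X + D`, if `(X, D)` is log canonical, `D` is reduced and the
open part is canonical. -/
theorem selfPullLe_log (hy : NormalModel y) (hn : Algebra.trdeg ℂ K = n) {D : Place ℂ K → ℚ}
    (hred : ∀ P, IsPrimeDivisor y P → D P = 0 ∨ D P = 1) (hlc : LogCanonical y n D)
    (hcan : CanonicalOff y n D) {φ : K →ₐ[ℂ] K} (hφ : PreservesOpen φ y D) :
    SelfPullLe φ y n D := by
  intro Q hQ P e hPe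
  have hess := hy.ess
  have hdP : Divisorial n P := by
    have key : ∀ {K' : Type} [Field K'] [Algebra ℂ K'] (hess' : Algebra.EssFiniteType ℂ K')
        (hn' : Algebra.trdeg ℂ K' = n) (ψ : K →ₐ[ℂ] K') (Q : Place ℂ K') (hdQ : Divisorial n Q)
        (hPe : LiesOver ψ Q P e), Divisorial n P := by
      intro K' _ _ hess' hn' ψ Q hdQ hPe
      let _ : Algebra K K' := ψ.toRingHom.toAlgebra
      have hst : IsScalarTower ℂ K K' :=
        IsScalarTower.of_algebraMap_eq fun c => (ψ.commutes c).symm
      have hfd : FiniteDimensional K K' := finite_map hn hn'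
      have hov : Over Q P e := hPe
      exact divisorial_down hov hdQ
    exact key hess hn φ Q (hQ.divisorial hy hn) hPe
  rcases hred Q hQ with h0 | h1
  · -- a prime divisor of the open part
    have hPV := hφ Q hQ h0 P e hPe
    obtain ⟨r, hr, η, hη, h2, h3⟩ := hcan P hdP hPV
    refine ⟨1, Or.inr ⟨r, hr, η, hη, fun P' hP' hT => ?_, ?_⟩, ?_⟩
    · have h4 : D P' = 0 := by
        by_contra h5
        exact hPV P' hP' h5 hT
      rw [h4, mul_zero, neg_zero]
      exact h2 P' hP' hT
    · rw [sub_self, mul_zero]
      exact h3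
    · rw [h0, sub_zero, mul_one]
      exact_mod_cast hPe.1
  · obtain ⟨r, hr, η, hη, h2, h3⟩ := hlc P hdP
    refine ⟨0, Or.inr ⟨r, hr, η, hη, h2, ?_⟩, ?_⟩
    · rw [zero_sub, mul_neg, mul_one]
      exact h3
    · rw [h1, sub_self, mul_zero]

end

end Pool.Agent.N110
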