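import Pool.Agent.N110.Defs

/-!
Definition: joint dynamical degrees of a set of birational self-maps.
-/

set_option autoImplicit false

open FF Pool.Agent.W602.GT Pool.Agent.Y172 Pool.Agent.R887

namespace Pool.Agent.N110

section

variable {K : Type} [Field K] [Algebra ℂ K] {N : ℕ}

open scoped ENNReal in
/-- The `p`-th joint dynamical degree of a set `S` of birational self-maps of the variety `X` of
dimension `n`: the upper limit, for `l → ∞`, of the `l`-th root of the greatest of the degrees
`g^* H ^ p · H ^ (n - p)` of the compositions `g` of `l` maps in `S`. For `S = {f}` it is the `p`-th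
dynamical degree of `f`. -/
noncomputable def jointDegree (S : Set (K ≃ₐ[ℂ] K)) (y : Fin (N + 1) → K) (n p : ℕ) : ℝ≥0∞ :=
  Filter.limsup (fun l : ℕ => (⨆ (w : List (K ≃ₐ[ℂ] K)) (_ : w.length = l) (_ : ∀ φ ∈ w, φ ∈ S),
    mixedDegree w.prod y n p) ^ (1 / (l : ℝ))) Filter.atTop

end

end Pool.Agent.N110
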