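import Pool.Agent.N110.Assem
import Pool.Agent.N110.Sys
import Pool.Agent.N110.JDefs

/-!
The assembly for semigroups of birational self-maps which preserve `K_X + Δ`.
-/

set_option autoImplicit false
set_option linter.overlappingInstances false
set_option linter.unusedSectionVars false

open FF Module MvPolynomial Pool.Agent.W602.GT Pool.Agent.W603.LV
open Pool.Agent.Y172 Pool.Agent.Y191 Pool.Agent.R887

namespace Pool.Agent.N110

section

variable {K : Type} [Field K] [Algebra ℂ K] {N n : ℕ} {y : Fin (N + 1) → K}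

/-- domination of images -/
theorem I_dom_map (hy : NormalModel y) (hn : Algebra.trdeg ℂ K = n) {i : Fin (N + 1)}
    (hi : y i ≠ 0) (ψ : K ≃ₐ[ℂ] K) {V : Cls ℂ (affS y i)} {B : ℕ} {f : K} (hf : f ≠ 0)
    (hB : ∀ v ∈ V.V, Bnd ℂ (affS y i) B (f * v)) {s : Multiset (Cls ℂ (affS y i))}
    (hs : s.card + 1 = n) :
    I (mapCls hy hi ψ V ::ₘ s) ≤ B * I (mapCls hy hi ψ (hcls hy hi) ::ₘ s) := by
  have cx := ctx hy hn hi
  obtain ⟨W, hW, e⟩ := exists_max cx (s := mapCls hy hi ψ V ::ₘ s)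
    (by rw [Multiset.card_cons]; exact hs)
  obtain ⟨x, W', ⟨x0, hx, rfl⟩, hW', rfl⟩ := sel_cons_right hW
  have hbnd : ∀ v ∈ V.V, Bnd ℂ (ψ '' affS y i) B (ψ (f * v)) := by
    intro v hv P
    obtain ⟨s, hs, hs0, h1⟩ := hB v hv (comap ψ P)
    exact ⟨ψ s, ⟨s, hs, rfl⟩, by rwa [Ne, map_eq_zero], h1⟩
  obtain ⟨v, hv, hle⟩ := repl hn (S := ψ '' affS y i) ((fin_affS i).image _)
    ⟨1, one_affS hi, map_one ψ⟩ (B := B) (f₀ := ψ (f * 1)) (f₁ := ψ (f * x0))
    (by rw [mul_one]; rwa [Ne, map_eq_zero]) (hbnd 1 V.one) (hbnd x0 hx) (W := W')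
    (by rw [hW'.card]; exact hs)
  rw [← map_div₀, mul_div_mul_left _ _ hf, div_one] at hle
  have hvV : v ∈ (mapCls hy hi ψ (hcls hy hi)).V := by
    have h1 : Submodule.span ℂ (ψ '' affS y i) ≤ (mapCls hy hi ψ (hcls hy hi)).V := by
      rw [Submodule.span_le]
      rintro _ ⟨s, hs, rfl⟩
      exact mapCls_mem (A := hcls hy hi) (Submodule.subset_span hs)
    exact h1 hv
  rw [← e]
  exact hle.trans (Nat.mul_le_mul_left _ (le_I cx (by rw [Multiset.card_cons]; exact hs)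
    (sel_cons hvV hW')))

theorem mapCls_mul {hy : NormalModel y} {i : Fin (N + 1)} {hi : y i ≠ 0} {ψ : K ≃ₐ[ℂ] K}
    {hS : (affS y i).Finite} {h1 : (1 : K) ∈ affS y i} {A B : Cls ℂ (affS y i)} :
    mapCls hy hi ψ (mulCls hS h1 A B) =
      mulCls hS h1 (mapCls hy hi ψ A) (mapCls hy hi ψ B) := by
  apply Cls.ext'
  exact Submodule.map_mul A.V B.V (ψ : K →ₐ[ℂ] K)

/-- pull back of sections by an automorphism, for all divisors -/
def Pulls (y : Fin (N + 1) → K) (c : Place ℂ K → ℤ) (Δ : Place ℂ K → ℚ) (ψ : K ≃ₐ[ℂ] K) : Prop :=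
  ∀ A, Effective y A → ∃ J : K, J ≠ 0 ∧ ∃ A', Effective y A' ∧ ∀ m b : ℕ, 1 ≤ m →
    ∀ g ∈ Lsp y c m (m • Δ + b • A), J ^ m * ψ g ∈ Lsp y c m (m • Δ + b • A')

theorem Pulls.one (c : Place ℂ K → ℤ) (Δ : Place ℂ K → ℚ) : Pulls y c Δ 1 := by
  intro A hA
  refine ⟨1, one_ne_zero, A, hA, fun m b _ g hg => ?_⟩
  rw [one_pow, one_mul]
  exact hg

theorem Pulls.mul {c : Place ℂ K → ℤ} {Δ : Place ℂ K → ℚ} {φ ψ : K ≃ₐ[ℂ] K}
    (h1 : Pulls y c Δ φ) (h2 : Pulls y c Δ ψ) : Pulls y c Δ (φ * ψ) := by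
  intro A hA
  obtain ⟨J, hJ, A', hA', h3⟩ := h2 A hA
  obtain ⟨J', hJ', A'', hA'', h4⟩ := h1 A' hA'
  refine ⟨J' * φ J, mul_ne_zero hJ' (by rwa [Ne, map_eq_zero]), A'', hA'', fun m b hm g hg => ?_⟩
  have h5 := h4 m b hm _ (h3 m b hm g hg)
  rw [map_mul, map_pow, ← mul_assoc, ← mul_pow] at h5
  exact h5

theorem Pulls.word {c : Place ℂ K → ℤ} {Δ : Place ℂ K → ℚ} {S : Set (K ≃ₐ[ℂ] K)}
    (h : ∀ φ ∈ S, Pulls y c Δ φ) (w : List (K ≃ₐ[ℂ] K)) (hw : ∀ φ ∈ w, φ ∈ S) :
    Pulls y c Δ w.prod := by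
  induction w with
  | nil => exact Pulls.one c Δ
  | cons φ w ih =>
    rw [List.prod_cons]
    exact (h φ (hw φ (by simp))).mul (ih fun ψ hψ => hw ψ (by simp [hψ]))

theorem Pulls.word_inv {c : Place ℂ K → ℤ} {Δ : Place ℂ K → ℚ} {S : Set (K ≃ₐ[ℂ] K)}
    (h : ∀ φ ∈ S, Pulls y c Δ φ⁻¹) (w : List (K ≃ₐ[ℂ] K)) (hw : ∀ φ ∈ w, φ ∈ S) :
    Pulls y c Δ w.prod⁻¹ := by
  induction w with
  | nil =>
    rw [List.prod_nil, inv_one]
    exact Pulls.one c Δ
  | cons φ w ih =>
    rw [List.prod_cons, mul_inv_rev]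
    exact (ih fun ψ hψ => hw ψ (by simp [hψ])).mul (h φ (hw φ (by simp)))

/-- the maps given by the words in `S` -/
def Wrd (hy : NormalModel y) {i : Fin (N + 1)} (hi : y i ≠ 0) (S : Set (K ≃ₐ[ℂ] K)) (l : ℕ) :
    Set (Cls ℂ (affS y i) → Cls ℂ (affS y i)) :=
  {F | ∃ w : List (K ≃ₐ[ℂ] K), w.length = l ∧ (∀ φ ∈ w, φ ∈ S) ∧ F = mapCls hy hi w.prod}

/-- **The growth of the joint degrees.** -/
theorem growth_joint (hy : NormalModel y) (hn : Algebra.trdeg ℂ K = n) (hn0 : 0 < n)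
    {i : Fin (N + 1)}
    (hi : y i ≠ 0) {Δ : Place ℂ K → ℚ} (hΔ : {P | IsPrimeDivisor y P ∧ Δ P ≠ 0}.Finite)
    {S : Set (K ≃ₐ[ℂ] K)} (h1 : ∀ φ ∈ S, PullLe φ y n Δ) (h2 : ∀ φ ∈ S, PullLe φ.symm y n Δ)
    {C₁ : ℕ} (hC₁ : ∀ φ ∈ S, I (mapCls hy hi φ (hcls hy hi) ::ₘ
      Multiset.replicate (n - 1) (hcls hy hi)) ≤ C₁) {ν : ℕ} (hν : ν ≤ n)
    (hnum : ¬ NumDimLt y n Δ ν) (hnum' : ν + 1 ≤ n → NumDimLt y n Δ (ν + 1)) {L L' : ℝ}
    (hL : 0 < L) (hlt : L < L')
    (hyp : ∀ j, j + ν ≤ n → ∃ a ≤ ν, ∃ A : ℝ, ∃ l0 : ℕ, ∀ w : List (K ≃ₐ[ℂ] K),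
      l0 ≤ w.length → (∀ φ ∈ w, φ ∈ S) →
      (I (Multiset.replicate (j + a) (mapCls hy hi w.prod (hcls hy hi)) +
        Multiset.replicate (n - (j + a)) (hcls hy hi)) : ℝ) ≤ A * L ^ w.length) :
    ∃ A : ℝ, ∀ w : List (K ≃ₐ[ℂ] K), (∀ φ ∈ w, φ ∈ S) → ∀ p, p ≤ n →
      (I (Multiset.replicate p (mapCls hy hi w.prod (hcls hy hi)) +
      Multiset.replicate (n - p) (hcls hy hi)) : ℝ) ≤ A * L' ^ w.length := by
  classical
  have hess := hy.ess
  have cx := ctx hy hn hi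
  obtain ⟨x, E, hx, hE⟩ := exists_crd hn (k := ℂ) (K := K)
  have hfr : IsFrame E := fun F => ⟨fun j => F (x j),
    (Pool.Agent.W73.PG.PULL.expand x hx E hE F).symm⟩
  obtain ⟨c, hcfin, hc⟩ := exists_ordc hy hn hx hE
  have hc' : IsDisc y E c := hc
  have hPull : ∀ φ : K ≃ₐ[ℂ] K, PullLe φ y n Δ → Pulls y c Δ φ := by
    intro φ hφ A hA
    obtain ⟨J, hJ0, hJ⟩ := exists_jac φ hE hfr
    obtain ⟨B, hB, hB1⟩ := pull_sections hy hA hφ hE hfr hc' hJ
    exact ⟨J, hJ0, B, hB, hB1⟩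
  have hP1 : ∀ w : List (K ≃ₐ[ℂ] K), (∀ φ ∈ w, φ ∈ S) → Pulls y c Δ w.prod :=
    Pulls.word fun φ hφ => hPull φ (h1 φ hφ)
  have hP2 : ∀ w : List (K ≃ₐ[ℂ] K), (∀ φ ∈ w, φ ∈ S) → Pulls y c Δ w.prod⁻¹ :=
    Pulls.word_inv fun φ hφ => hPull φ⁻¹ (h2 φ hφ)
  obtain ⟨Hy, hHy, hHP⟩ := exists_hyp hy hi
  -- the sequence of sections
  unfold NumDimLt at hnum
  push Not at hnum
  obtain ⟨A0, hA0, ε, hε, hseq⟩ := hnum
  have hseq' : ∀ q : ℕ, ∃ m b : ℕ, q + 1 ≤ m ∧ (b : ℝ) ≤ 1 / (q + 1) * m ∧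
      ∃ g : Fin (ν + 1) → K, (∀ j, g j ∈ Lsp y c m (m • Δ + b • A0)) ∧ g 0 ≠ 0 ∧
      ∃ u : Fin (n - ν) → K, (∀ a, IsPencil y (u a)) ∧
        ε * m ^ ν < degreeOver u (fun j : Fin ν => g j.succ / g 0) := by
    intro q
    obtain ⟨m, b, hm, hb, u, hu, ω, E', hω, hω0, hlt⟩ := hseq (1 / ((q : ℝ) + 1))
      (by positivity) (q + 1)
    refine ⟨m, b, hm, hb, fun j => ω j E, fun j => ?_, ?_, u, hu, ?_⟩
    · exact (isSection_iff hc' (hω j).1).1 (hω j)
    · exact (ratio_frame hfr (hω 0).1 (hω 0).1 hω0).1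
    · have e1 : (fun j : Fin ν => ω j.succ E / ω 0 E) = fun j : Fin ν => ω j.succ E' / ω 0 E' := by
        funext j
        exact ((ratio_frame hfr (hω 0).1 (hω j.succ).1 hω0).2).symm
      rw [e1]
      exact hlt
  choose m b hm hb g hg hg0 u hu hdeg using hseq'
  -- the divisors
  obtain ⟨A1, hA1⟩ : ∃ A1, A1 = A0 + Hy := ⟨_, rfl⟩
  have hA1e : Effective y A1 := by rw [hA1]; exact Effective.add' hA0 hHy
  have hmem : ∀ A : {A : Place ℂ K → ℚ // Effective y A}, ∀ q l,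
      g q 0 * (y l / y i) ∈ Lsp y c (m q) (m q • Δ + (b q + 1) • (A1 + A.1)) := by
    intro A q l
    refine Lsp_mono le_rfl hA1e.1 (fun P hP => ?_) ?_ (A := A1) (b := b q + 1)
    · have := A.2.1 P hP
      change A1 P ≤ A1 P + A.1 P
      linarith
    · rw [hA1]
      exact mul_hyp hy hA0 hHy hHP hi (hg q 0) l
  -- the spaces
  obtain ⟨M, hMV⟩ : ∃ M : {A : Place ℂ K → ℚ // Effective y A} → ℕ → Cls ℂ (affS y i), ∀ A q,
      M A q = secCls hy hi hcfin hΔ (Effective.add' hA1e A.2) (m q) (b q + 1) (hg0 q)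
        (hmem A q) := ⟨_, fun _ _ => rfl⟩
  have hMmem : ∀ A q v, v ∈ (M A q).V ↔
      g q 0 * v ∈ Lsp y c (m q) (m q • Δ + (b q + 1) • (A1 + A.1)) := by
    intro A q v
    rw [hMV]
    rfl
  obtain ⟨D, hDV⟩ : ∃ D : Cls ℂ (affS y i) → ℕ → Cls ℂ (affS y i), ∀ a v, D a v =
      mulCls (fin_affS i) (one_affS hi) a (hpow hy hi (v - 1)) := ⟨_, fun _ _ => rfl⟩
  obtain ⟨β, f, hf, hdom⟩ := dom_sections hy hi hcfin hΔ
  have hm1 : ∀ q, 1 ≤ m q := fun q => by have := hm q; omega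
  obtain ⟨t, ht⟩ : ∃ t : Multiset (Cls ℂ (affS y i)) → ℝ, t = fun s => (I s : ℝ) := ⟨_, rfl⟩
  -- comparison after all maps
  have hLeW : ∀ (V V' : Cls ℂ (affS y i)) (g : K), g ≠ 0 → (∀ v ∈ V.V, g * v ∈ V'.V) →
      LeW n t (Wrd hy hi S) 1 V V' := by
    rintro V V' g hg0 hV l F ⟨w, -, -, rfl⟩ s hs
    rw [ht, one_mul]
    refine Nat.cast_le.2 (I_mono cx (g := w.prod g) (by rwa [Ne, map_eq_zero]) ?_ hs)
    rintro _ ⟨v, hv, rfl⟩
    exact ⟨g * v, hV v hv, map_mul w.prod g v⟩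
  have hdir : ∀ A A' : {A : Place ℂ K → ℚ // Effective y A}, (∀ P, IsPrimeDivisor y P →
      A.1 P ≤ A'.1 P) → ∀ q, LeW n t (Wrd hy hi S) 1 (M A q) (M A' q) := by
    intro A A' hAA q
    refine hLeW _ _ 1 one_ne_zero fun v hv => ?_
    rw [one_mul]
    rw [hMmem] at hv ⊢
    refine Lsp_mono le_rfl (Effective.add' hA1e A.2).1 (fun P hP => ?_) hv
    have := hAA P hP
    change A1 P + A.1 P ≤ A1 P + A'.1 P
    linarith
  -- pull back
  have hMpull : ∀ ψ : K ≃ₐ[ℂ] K, Pulls y c Δ ψ → ∀ A : {A : Place ℂ K → ℚ // Effective y A},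
      ∃ A' : {A : Place ℂ K → ℚ // Effective y A}, ∃ J : K, J ≠ 0 ∧ ∀ q, ∀ v ∈ (M A q).V,
        (J ^ m q * ψ (g q 0) / g q 0) * ψ v ∈ (M A' q).V := by
    intro ψ hψ A
    obtain ⟨J, hJ, B, hB, hB1⟩ := hψ (A1 + A.1) (Effective.add' hA1e A.2)
    refine ⟨⟨B, hB⟩, J, hJ, fun q v hv => ?_⟩
    rw [hMmem] at hv ⊢
    have e1 := hB1 (m q) (b q + 1) (hm1 q) _ hv
    have e2 : g q 0 * (J ^ m q * ψ (g q 0) / g q 0 * ψ v) = J ^ m q * ψ (g q 0 * v) := by
      rw [map_mul]
      have := hg0 q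
      field_simp
    rw [e2]
    refine Lsp_mono le_rfl hB.1 (fun P hP => ?_) e1
    have := hA1e.1 P hP
    change B P ≤ A1 P + B P
    linarith
  have data : Sys n t (Wrd hy hi S) (hcls hy hi) (fun q => (m q : ℝ)) M D ν (β + 1) ε C₁ := by
    refine ⟨?_, ?_, hn0, hν, by positivity, hε, ?_, ?_, ?_, ?_, ?_, ?_, ?_, ?_, ?_, ?_, ?_, ?_,
      ?_, ?_, ?_⟩
    · -- pos
      intro s hs
      rw [ht]
      beta_reduce
      exact_mod_cast I_pos cx hs
    · -- ex
      rw [ht]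
      exact exch cx
    · -- one
      refine ⟨[], rfl, by simp, ?_⟩
      funext A
      rw [List.prod_nil, mapCls_one]
      rfl
    · -- zero_id
      rintro F ⟨w, hw, -, rfl⟩
      rw [List.length_eq_zero_iff] at hw
      subst hw
      funext A
      rw [List.prod_nil, mapCls_one]
      rfl
    · -- split
      rintro l k F ⟨w, hw, hwS, rfl⟩
      refine ⟨mapCls hy hi (w.take l).prod, ⟨w.take l, by rw [List.length_take]; omega,
        fun φ hφ => hwS φ (List.mem_of_mem_take hφ), rfl⟩,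
        mapCls hy hi (w.drop l).prod, ⟨w.drop l, by rw [List.length_drop]; omega,
        fun φ hφ => hwS φ (List.mem_of_mem_drop hφ), rfl⟩, ?_⟩
      funext A
      change _ = mapCls hy hi _ (mapCls hy hi _ A)
      rw [mapCls_mapCls, ← List.prod_append, List.take_append_drop]
    · -- deg
      rintro l F ⟨w, -, -, rfl⟩
      refine ⟨1, one_pos, fun s hs => ?_⟩
      rw [one_mul, ht]
      beta_reduce
      exact_mod_cast I_map hy hn hi w.prod hs
    · -- H_deg
      rintro F ⟨w, hw, hwS, rfl⟩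
      obtain ⟨φ, rfl⟩ := List.length_eq_one_iff.1 hw
      rw [List.prod_singleton, ht]
      beta_reduce
      exact_mod_cast hC₁ φ (hwS φ (by simp))
    · -- m_pos
      intro q
      exact_mod_cast hm1 q
    · -- m_tend
      refine Filter.tendsto_atTop_mono (fun q => ?_) tendsto_natCast_atTop_atTop
      have := hm q
      exact_mod_cast (by omega : q ≤ m q)
    · -- dir
      intro A A'
      refine ⟨⟨A.1 + A'.1, Effective.add' A.2 A'.2⟩, fun q => ⟨hdir _ _ (fun P hP => ?_) q,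
        hdir _ _ (fun P hP => ?_) q⟩⟩
      · have := A'.2.1 P hP
        change A.1 P ≤ A.1 P + A'.1 P
        linarith
      · have := A.2.1 P hP
        change A'.1 P ≤ A.1 P + A'.1 P
        linarith
    · -- M_f
      rintro k G ⟨w, -, hwS, rfl⟩ A
      obtain ⟨A', J, hJ, hA'⟩ := hMpull w.prod (hP1 w hwS) A
      refine ⟨A', fun q => hLeW _ _ (J ^ m q * w.prod (g q 0) / g q 0)
        (div_ne_zero (mul_ne_zero (pow_ne_zero _ hJ) (by rw [Ne, map_eq_zero]; exact hg0 q))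
          (hg0 q)) ?_⟩
      rintro _ ⟨v, hv, rfl⟩
      exact hA' q v hv
    · -- M_le
      intro A
      obtain ⟨βA, gA, hgA, hdomA⟩ := hdom (A1 + A.1) (Effective.add' hA1e A.2)
      filter_upwards [Filter.eventually_ge_atTop (2 * βA)] with q hq
      rintro l F ⟨w, -, -, rfl⟩ s hs
      rw [ht]
      have e1 := I_dom_map hy hn hi w.prod (V := M A q)
        (B := m q * β + (b q + 1) * βA) (f := f ^ m q * gA ^ (b q + 1) * g q 0)
        (mul_ne_zero (mul_ne_zero (pow_ne_zero _ hf) (pow_ne_zero _ hgA)) (hg0 q))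
        (fun v hv => by
          rw [mul_assoc]
          exact hdomA (m q) (b q + 1) _ ((hMmem A q v).1 hv)) hs
      have e2 : ((m q * β + (b q + 1) * βA : ℕ) : ℝ) ≤ ((β : ℝ) + 1) * m q := by
        push_cast
        have hmq : ((q : ℝ) + 1) ≤ m q := by exact_mod_cast hm q
        have hbq := hb q
        have hq' : 2 * (βA : ℝ) ≤ q := by exact_mod_cast hq
        have hβ0 : (0 : ℝ) ≤ βA := Nat.cast_nonneg _
        have hm0 : (0 : ℝ) ≤ m q := Nat.cast_nonneg _
        have e3 : (b q : ℝ) * βA ≤ m q / 2 := by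
          have e4 : (b q : ℝ) * βA ≤ 1 / ((q : ℝ) + 1) * m q * βA :=
            mul_le_mul_of_nonneg_right hbq hβ0
          have e5 : 1 / ((q : ℝ) + 1) * m q * βA = m q * (βA / (q + 1)) := by ring
          have e6 : (βA : ℝ) / (q + 1) ≤ 1 / 2 := by
            rw [div_le_div_iff₀ (by positivity) (by norm_num)]
            linarith
          have e7 := mul_le_mul_of_nonneg_left e6 hm0
          linarith
        nlinarith
      calc ((I (mapCls hy hi w.prod (M A q) ::ₘ s) : ℕ) : ℝ) ≤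
            ((m q * β + (b q + 1) * βA : ℕ) : ℝ) *
            (I (mapCls hy hi w.prod (hcls hy hi) ::ₘ s) : ℝ) := by exact_mod_cast e1
        _ ≤ ((β : ℝ) + 1) * m q * (I (mapCls hy hi w.prod (hcls hy hi) ::ₘ s) : ℝ) :=
          mul_le_mul_of_nonneg_right e2 (Nat.cast_nonneg _)
    · -- D_add
      rintro a v hv l F ⟨w, -, -, rfl⟩ s hs
      rw [ht, hDV]
      have e1 := I_add cx (D := mapCls hy hi w.prod (mulCls (fin_affS i) (one_affS hi) a
        (hpow hy hi (v - 1)))) (V := mapCls hy hi w.prod a)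
        (V' := mapCls hy hi w.prod (hpow hy hi (v - 1))) (by rw [mapCls_mul]; exact le_rfl) hs
      have e2 := I_dom_map hy hn hi w.prod (V := hpow hy hi (v - 1))
        (B := v - 1 + 1) (f := 1) one_ne_zero (hpow_bnd hy hi (v - 1)) hs
      have e3 : v - 1 + 1 = v := by omega
      rw [e3] at e2
      beta_reduce
      exact_mod_cast e1.trans (Nat.add_le_add_left e2 _)
    · -- D_M
      intro a v hv s hs
      rw [ht, one_mul, hDV]
      refine Nat.cast_le.2 (I_mono cx (g := 1) one_ne_zero (fun w hw => ?_) hs)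
      rw [one_mul]
      have := Submodule.mul_mem_mul hw (hpow hy hi (v - 1)).one
      rwa [mul_one] at this
    · -- D_H
      intro a v hv s hs
      rw [ht, hDV]
      have e1 := I_pow cx (V := hcls hy hi)
        (D := mulCls (fin_affS i) (one_affS hi) a (hpow hy hi (v - 1))) (q := v) hv
        (fun w hw => by
          have e2 := hpow_pow hy hi (v - 1) w hw
          have e3 : v - 1 + 1 = v := by omega
          rw [e3] at e2
          have := Submodule.mul_mem_mul a.one e2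
          rwa [one_mul] at this) hs
      beta_reduce
      exact_mod_cast e1
    · -- eps
      rintro l F ⟨w, -, hwS, rfl⟩
      obtain ⟨Ae, J, hJ, hAe⟩ := hMpull w.prod⁻¹ (hP2 w hwS) ⟨0, fun _ _ => le_rfl, by
        refine Set.finite_empty.subset ?_
        rintro P ⟨-, h⟩
        exact h rfl⟩
      refine ⟨Ae, Filter.Eventually.of_forall fun q => ?_⟩
      rw [ht]
      obtain ⟨Z, hZ⟩ : ∃ Z : {A : Place ℂ K → ℚ // Effective y A}, Z = ⟨0, fun _ _ => le_rfl, by
        refine Set.finite_empty.subset ?_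
        rintro P ⟨-, h⟩
        exact h rfl⟩ := ⟨_, rfl⟩
      rw [← hZ] at hAe
      have hcard : (Multiset.replicate ν (M Z q) + Multiset.replicate (n - ν)
          (hcls hy hi)).card = n := by
        rw [Multiset.card_add, Multiset.card_replicate, Multiset.card_replicate]
        omega
      have e1 : degreeOver (u q) (fun j : Fin ν => g q j.succ / g q 0) =
          dm ℂ (toM (u q) + toM (fun j : Fin ν => g q j.succ / g q 0)) :=
        deg_dm (toM_set _) (toM_set _)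
      obtain ⟨Q', hQ', e2⟩ := replace_pencils' hy hn hi (toM (u q))
        (toM (fun j : Fin ν => g q j.succ / g q 0))
        (by rw [Multiset.card_add, toM_card, toM_card]; omega) (fun z hz => by
          obtain ⟨j, rfl⟩ := mem_toM.1 hz
          exact hu q j)
      rw [toM_card] at hQ'
      have hsel : Sel (toM (fun j : Fin ν => g q j.succ / g q 0))
          (Multiset.replicate ν (M Z q)) := by
        rw [sel_rep]
        refine ⟨toM_card _, fun z hz => ?_⟩
        obtain ⟨j, rfl⟩ := mem_toM.1 hz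
        rw [hMmem]
        have e3 : g q 0 * (g q j.succ / g q 0) = g q j.succ := mul_div_cancel₀ _ (hg0 q)
        rw [e3]
        refine Lsp_mono (Nat.le_succ _) hA0.1 (fun P hP => ?_) (hg q j.succ)
        have e4 := hHy.1 P hP
        have e5 := Z.2.1 P hP
        rw [hA1]
        change A0 P ≤ A0 P + Hy P + Z.1 P
        linarith
      have e3 := le_I cx hcard (sel_add hsel hQ')
      have e4 : degreeOver (u q) (fun j : Fin ν => g q j.succ / g q 0) ≤
          I (Multiset.replicate ν (M Z q) + Multiset.replicate (n - ν) (hcls hy hi)) := by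
        rw [e1]
        rw [add_comm] at e3
        exact e2.trans e3
      have e5 : ((degreeOver (u q) (fun j : Fin ν => g q j.succ / g q 0) : ℕ) : ℝ) ≤
          (I (Multiset.replicate ν (M Z q) + Multiset.replicate (n - ν) (hcls hy hi)) : ℝ) :=
        Nat.cast_le.2 e4
      have e6 : Le n t 1 (M Z q) (mapCls hy hi w.prod (M Ae q)) := by
        intro s hs
        rw [ht, one_mul]
        refine Nat.cast_le.2 (I_mono cx (g := w.prod J ^ m q * g q 0 / w.prod (g q 0))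
          (div_ne_zero (mul_ne_zero (pow_ne_zero _ (by rwa [Ne, map_eq_zero])) (hg0 q))
            (by rw [Ne, map_eq_zero]; exact hg0 q)) (fun v hv => ?_) hs)
        refine ⟨_, hAe q v hv, ?_⟩
        change w.prod (J ^ m q * w.prod⁻¹ (g q 0) / g q 0 * w.prod⁻¹ v) = _
        have e7 : ∀ z, w.prod (w.prod⁻¹ z) = z := fun z => w.prod.apply_symm_apply z
        rw [map_mul, map_div₀, map_mul, map_pow, e7, e7]
      have e7 := e6.rep zero_le_one ν (Multiset.replicate (n - ν) (hcls hy hi))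
        (by rw [Multiset.card_replicate]; omega)
      rw [one_pow, one_mul, ht] at e7
      exact (hdeg q).le.trans (e5.trans e7)
    · -- zero
      intro hν1 A δ hδ
      obtain ⟨tt, htt, m0, hnd⟩ := hnum' hν1 (A1 + A.1) (Effective.add' hA1e A.2) δ hδ
      obtain ⟨q0, hq0⟩ := exists_nat_gt (2 / tt)
      filter_upwards [Filter.eventually_ge_atTop (max m0 (q0 + 1))] with q hq
      have hq1 : m0 ≤ q := (le_max_left _ _).trans hq
      have hq2 : q0 + 1 ≤ q := (le_max_right _ _).trans hq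
      rw [ht]
      have hcard : (Multiset.replicate (ν + 1) (M A q) + Multiset.replicate (n - (ν + 1))
          (hcls hy hi)).card = n := by
        rw [Multiset.card_add, Multiset.card_replicate, Multiset.card_replicate]
        omega
      obtain ⟨W, hW, e⟩ := exists_max cx hcard
      obtain ⟨W1, W2, s1, s2, rfl⟩ := sel_add_right hW
      rw [sel_rep] at s1 s2
      obtain ⟨w1, hw1⟩ := exists_fin W1 s1.1
      obtain ⟨w2, hw2⟩ := exists_fin W2 s2.1
      have hw1m : ∀ j, w1 j ∈ (M A q).V := by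
        intro j
        have h3 : w1 j ∈ {x | x ∈ W1} := by
          rw [hw1]
          exact ⟨j, rfl⟩
        exact s1.2 _ h3
      have hw2m : ∀ j, w2 j ∈ Submodule.span ℂ (affS y i) := by
        intro j
        have h3 : w2 j ∈ {x | x ∈ W2} := by
          rw [hw2]
          exact ⟨j, rfl⟩
        exact s2.2 _ h3
      have hbt : ((b q + 1 : ℕ) : ℝ) ≤ tt * m q := by
        push_cast
        have hmq : ((q : ℝ) + 1) ≤ m q := by exact_mod_cast hm q
        have hbq := hb q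
        have hq2' : (q0 : ℝ) + 1 ≤ q := by exact_mod_cast hq2
        have e1 : 1 / ((q : ℝ) + 1) ≤ tt / 2 := by
          rw [div_le_div_iff₀ (by positivity) (by norm_num)]
          have e2 : 2 / tt * tt = 2 := by field_simp
          have e3 := mul_lt_mul_of_pos_right hq0 htt
          rw [e2] at e3
          nlinarith
        have e2 : (1 : ℝ) ≤ 1 / ((q : ℝ) + 1) * m q := by
          rw [one_div, inv_mul_eq_div, le_div_iff₀ (by positivity), one_mul]
          exact hmq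
        have e3 : 1 / ((q : ℝ) + 1) * m q ≤ tt / 2 * m q :=
          mul_le_mul_of_nonneg_right e1 (Nat.cast_nonneg _)
        linarith
      have hbd := hnd (m q) (b q + 1) (by have := hm q; omega) hbt w2
        (fun a => pencil_span hi (hw2m a))
        (Fin.cons (frm x (m q) (g q 0)) fun j => frm x (m q) (g q 0 * w1 j)) E (fun j => by
          refine Fin.cases ?_ (fun j => ?_) j
          · rw [Fin.cons_zero, isSection_iff hc' (frm_pluri x _ _), frm_self hE]
            have := hmem A q i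
            rwa [div_self hi, mul_one] at this
          · rw [Fin.cons_succ, isSection_iff hc' (frm_pluri x _ _), frm_self hE]
            exact (hMmem A q _).1 (hw1m j)) (by
          rw [Fin.cons_zero, frm_self hE]
          exact hg0 q)
      have e1 : (fun j : Fin (ν + 1) => (Fin.cons (frm x (m q) (g q 0))
          (fun j => frm x (m q) (g q 0 * w1 j)) : Fin (ν + 1 + 1) → _ → K) j.succ E /
          (Fin.cons (frm x (m q) (g q 0)) (fun j => frm x (m q) (g q 0 * w1 j)) :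
            Fin (ν + 1 + 1) → _ → K) 0 E) = w1 := by
        funext j
        rw [Fin.cons_succ, Fin.cons_zero, frm_self hE, frm_self hE]
        exact mul_div_cancel_left₀ _ (hg0 q)
      rw [e1, deg_dm hw2 hw1, add_comm W2 W1, e] at hbd
      exact hbd
  have hcomp : ∀ l k, ∀ F ∈ Wrd hy hi S l, ∀ G ∈ Wrd hy hi S k, F ∘ G ∈ Wrd hy hi S (l + k) := by
    rintro l k F ⟨w, hw, hwS, rfl⟩ G ⟨w', hw', hwS', rfl⟩
    refine ⟨w ++ w', by rw [List.length_append, hw, hw'], fun φ hφ => ?_, ?_⟩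
    · rcases List.mem_append.1 hφ with h | h
      · exact hwS φ h
      · exact hwS' φ h
    · funext A
      rw [List.prod_append, ← mapCls_mapCls]
      rfl
  have hfin := data.growth' hcomp ⟨⟨A0, hA0⟩⟩ hL hlt (by
    intro j hj
    obtain ⟨a, ha, A, l0, hA⟩ := hyp j hj
    refine ⟨a, ha, A, l0, ?_⟩
    rintro l hl F ⟨w, rfl, hwS, rfl⟩
    rw [ht]
    exact hA w hl hwS)
  obtain ⟨A, hA⟩ := hfin
  refine ⟨A, fun w hwS p hp => ?_⟩
  have := hA w.length (mapCls hy hi w.prod) ⟨w, rfl, hwS, rfl⟩ p hp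
  rw [ht] at this
  exact this

end

end Pool.Agent.N110
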