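import Pool.Agent.R887.Defs

/-!
Definitions: the open part of a pair `(X, D)` and the rational self-maps which preserve it.
-/

set_option autoImplicit false

open FF Pool.Agent.W602.GT Pool.Agent.Y172 Pool.Agent.R887

namespace Pool.Agent.N110

section

variable {K : Type} [Field K] [Algebra ℂ K] {N : ℕ}

/-- The centre of the place `Q` on `X` is not contained in the support of the divisor `D`: no
component of `D` contains the centre of `Q`. So the centre meets the open variety
`V = X \ Supp D`. -/
def MeetsOpen (y : Fin (N + 1) → K) (D : Place ℂ K → ℚ) (Q : Place ℂ K) : Prop :=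
  ∀ P, IsPrimeDivisor y P → D P ≠ 0 → ¬ Through y P Q

/-- The open variety `V = X \ Supp D`, of dimension `n`, has canonical singularities (it is smooth,
for instance): for every prime divisor `Q` over `X` whose centre meets `V` there is an `r`-canonical
form `η` which generates `r K_X` at the centre of `Q` on `X`, with order at least `0` along `Q`. -/
def CanonicalOff (y : Fin (N + 1) → K) (n : ℕ) (D : Place ℂ K → ℚ) : Prop :=
  ∀ Q : Place ℂ K, Divisorial n Q → MeetsOpen y D Q → ∃ r : ℕ, 0 < r ∧
    ∃ η : (Fin n → Derivation ℂ K K) → K, IsPluri r η ∧
      (∀ P, IsPrimeDivisor y P → Through y P Q → OrdEq P η 0) ∧ OrdGe Q η 0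

/-- The dominant rational self-map `f` of `X` given by the endomorphism `φ` of the function field
maps no prime divisor of `V = X \ Supp D` into the boundary `Supp D`: if `Q` is a prime divisor of
`X` which is not a component of `D`, and the divisor `P` over `X` is its image, then the centre of
`P` meets `V`. This holds if `f` restricts to a morphism from `V` to `V`. -/
def PreservesOpen (φ : K →ₐ[ℂ] K) (y : Fin (N + 1) → K) (D : Place ℂ K → ℚ) : Prop :=
  ∀ Q : Place ℂ K, IsPrimeDivisor y Q → D Q = 0 → ∀ (P : Place ℂ K) (e : ℕ),
    LiesOver φ Q P e → MeetsOpen y D P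

end

end Pool.Agent.N110
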