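import Pool.Agent.N110.Geo
import Pool.Agent.N110.Defs

/-!
The pull back of forms by an automorphism of the function field.
-/

set_option autoImplicit false
set_option linter.overlappingInstances false
set_option linter.unusedSectionVars false

open FF Module MvPolynomial Pool.Agent.W602.GT Pool.Agent.W603.LV
open Pool.Agent.Y172 Pool.Agent.Y191 Pool.Agent.R887

namespace Pool.Agent.N110

section

variable {K : Type} [Field K] [Algebra ℂ K] {N n : ℕ} {y : Fin (N + 1) → K}

/-- the image of a place under an automorphism -/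
def comap (φ : K ≃ₐ[ℂ] K) (Q : Place ℂ K) : Place ℂ K where
  ord g := Q.ord (φ g)
  ord_zero := by rw [map_zero, Q.ord_zero]
  ord_mul := fun {f g} hf hg => by
    rw [map_mul, Q.ord_mul (by rwa [Ne, map_eq_zero]) (by rwa [Ne, map_eq_zero])]
  ord_add := fun {f g} hf hg hfg => by
    rw [map_add]
    exact Q.ord_add (by rwa [Ne, map_eq_zero]) (by rwa [Ne, map_eq_zero]) (by
      rw [← map_add, Ne, map_eq_zero]
      exact hfg)
  ord_const := fun {c} hc => by
    rw [φ.commutes]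
    exact Q.ord_const hc
  surj := by
    obtain ⟨t, ht, ht1⟩ := Q.surj
    exact ⟨φ.symm t, by rwa [Ne, map_eq_zero], by rwa [φ.apply_symm_apply]⟩

theorem comap_ord (φ : K ≃ₐ[ℂ] K) (Q : Place ℂ K) (g : K) : (comap φ Q).ord g = Q.ord (φ g) := rfl

theorem comap_reg {φ : K ≃ₐ[ℂ] K} {Q : Place ℂ K} {g : K} :
    (comap φ Q).Reg g ↔ Q.Reg (φ g) := by
  change (g = 0 ∨ _) ↔ (φ g = 0 ∨ _)
  rw [map_eq_zero]
  rfl

/-- the conjugate of a vector field -/
noncomputable def dconj (φ : K ≃ₐ[ℂ] K) (D : Derivation ℂ K K) : Derivation ℂ K K :=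
  Derivation.mk' (φ.symm.toLinearMap ∘ₗ (D : K →ₗ[ℂ] K) ∘ₗ φ.toLinearMap) fun a b => by
    simp only [LinearMap.comp_apply, AlgEquiv.toLinearMap_apply, map_mul, Derivation.coeFn_coe,
      Derivation.leibniz, smul_eq_mul, map_add, AlgEquiv.symm_apply_apply]

theorem dconj_apply (φ : K ≃ₐ[ℂ] K) (D : Derivation ℂ K K) (g : K) :
    dconj φ D g = φ.symm (D (φ g)) := rfl

theorem dconj_symm (φ : K ≃ₐ[ℂ] K) (D : Derivation ℂ K K) : dconj φ (dconj φ.symm D) = D := by
  ext g
  rw [dconj_apply, dconj_apply]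
  simp

/-- the pull back of a form -/
noncomputable def pf (φ : K ≃ₐ[ℂ] K) (ω : (Fin n → Derivation ℂ K K) → K)
    (D : Fin n → Derivation ℂ K K) : K := φ (ω fun i => dconj φ (D i))

theorem pf_pluri (φ : K ≃ₐ[ℂ] K) {m : ℕ} {ω : (Fin n → Derivation ℂ K K) → K}
    (hω : IsPluri m ω) : IsPluri m (pf φ ω) := by
  intro A D
  have e1 : (fun i => dconj φ (∑ j, A i j • D j)) =
      fun i => ∑ j, (A.map φ.symm) i j • dconj φ (D j) := by
    funext i
    ext g
    rw [dconj_apply, sum_smul_apply, sum_smul_apply, map_sum]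
    refine Finset.sum_congr rfl fun j _ => ?_
    rw [map_mul, dconj_apply]
    rfl
  unfold pf
  rw [e1, hω (A.map φ.symm) fun j => dconj φ (D j), map_mul, map_pow]
  congr 2
  have e2 : (A.map φ.symm).det = φ.symm A.det := by
    have := (AlgHom.map_det (φ.symm : K →ₐ[ℂ] K) A).symm
    exact this
  rw [e2, φ.apply_symm_apply]

theorem pf_ordGe {φ : K ≃ₐ[ℂ] K} {Q : Place ℂ K} {ω : (Fin n → Derivation ℂ K K) → K} {r : ℚ}
    (h : OrdGe (comap φ Q) ω r) : OrdGe Q (pf φ ω) r := by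
  intro E hE
  have h1 := h (fun i => dconj φ (E i)) fun i f hf => by
    rw [comap_reg] at hf ⊢
    rw [dconj_apply, φ.apply_symm_apply]
    exact hE i _ hf
  unfold pf
  rcases h1 with h1 | h1
  · left
    rw [h1, map_zero]
  · right
    exact h1

/-- the functions which correspond to the sections of `m K + D` -/
def Lsp (y : Fin (N + 1) → K) (c : Place ℂ K → ℤ) (m : ℕ) (D : Place ℂ K → ℚ) :
    Submodule ℂ K where
  carrier := {g | ∀ P, IsPrimeDivisor y P → g = 0 ∨ -(D P) ≤ m * c P + P.ord g}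
  zero_mem' := fun _ _ => Or.inl rfl
  add_mem' := fun {f g} hf hg P hP => by
    by_cases h : f + g = 0
    · exact Or.inl h
    by_cases hf0 : f = 0
    · rw [hf0, zero_add]
      exact hg P hP
    by_cases hg0 : g = 0
    · rw [hg0, add_zero]
      exact hf P hP
    right
    have h1 := (hf P hP).resolve_left hf0
    have h2 := (hg P hP).resolve_left hg0
    have h3 := P.ord_add hf0 hg0 h
    rcases le_total (P.ord f) (P.ord g) with h4 | h4
    · rw [min_eq_left h4] at h3
      have h5 : (P.ord f : ℚ) ≤ P.ord (f + g) := by exact_mod_cast h3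
      linarith
    · rw [min_eq_right h4] at h3
      have h5 : (P.ord g : ℚ) ≤ P.ord (f + g) := by exact_mod_cast h3
      linarith
  smul_mem' := fun a g hg P hP => by
    by_cases ha : a = 0
    · left
      rw [ha, zero_smul]
    by_cases hg0 : g = 0
    · left
      rw [hg0, smul_zero]
    right
    rw [Algebra.smul_def, P.ord_mul (by rwa [Ne, map_eq_zero]) hg0, P.ord_const ha, zero_add]
    exact (hg P hP).resolve_left hg0

theorem mem_Lsp {c : Place ℂ K → ℤ} {m : ℕ} {D : Place ℂ K → ℚ} {g : K} :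
    g ∈ Lsp y c m D ↔ ∀ P, IsPrimeDivisor y P → g = 0 ∨ -(D P) ≤ m * c P + P.ord g := Iff.rfl

/-- the property of the discrepancy divisor `c` of a frame -/
def IsDisc (y : Fin (N + 1) → K) (E : Fin n → Derivation ℂ K K) (c : Place ℂ K → ℤ) : Prop :=
  ∀ P, IsPrimeDivisor y P → ∀ (m : ℕ) (ω : (Fin n → Derivation ℂ K K) → K), IsPluri m ω →
    ∀ r : ℚ, OrdGe P ω r ↔ (ω E = 0 ∨ r ≤ m * c P + P.ord (ω E))

theorem isSection_iff {E : Fin n → Derivation ℂ K K} {c : Place ℂ K → ℤ} (hc : IsDisc y E c)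
    {m : ℕ} {D : Place ℂ K → ℚ} {ω : (Fin n → Derivation ℂ K K) → K} (hω : IsPluri m ω) :
    IsSection y n m D ω ↔ ω E ∈ Lsp y c m D := by
  constructor
  · intro h P hP
    exact (hc P hP m ω hω _).1 (h.2 P hP)
  · intro h
    exact ⟨hω, fun P hP => (hc P hP m ω hω _).2 (h P hP)⟩

/-- the jacobian of an automorphism -/
theorem exists_jac (φ : K ≃ₐ[ℂ] K) {x : Fin n → K} {E : Fin n → Derivation ℂ K K}
    (hE : ∀ i j, E i (x j) = if i = j then 1 else 0) (hfr : IsFrame E) :
    ∃ J : K, J ≠ 0 ∧ ∀ (m : ℕ) (ω : (Fin n → Derivation ℂ K K) → K), IsPluri m ω →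
      pf φ ω E = J ^ m * φ (ω E) := by
  choose C hC using fun i => hfr (dconj φ (E i))
  have e1 : (fun i => dconj φ (E i)) = fun i => ∑ j, Matrix.of C i j • E j := funext hC
  have h1 : ∀ (m : ℕ) (ω : (Fin n → Derivation ℂ K K) → K), IsPluri m ω →
      pf φ ω E = φ (Matrix.of C).det ^ m * φ (ω E) := by
    intro m ω hω
    unfold pf
    rw [e1, hω (Matrix.of C) E, map_mul, map_pow]
  refine ⟨φ (Matrix.of C).det, ?_, h1⟩
  intro h0
  have h2 := h1 1 (frm x 1 1) (frm_pluri x 1 1)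
  rw [h0, pow_one, zero_mul] at h2
  have h3 := pluri_zero hfr (pf_pluri φ (frm_pluri x 1 (1 : K))) h2
  have h4 : pf φ (frm x 1 1) (fun i => dconj φ.symm (E i)) = 1 := by
    unfold pf
    have e2 : (fun i => dconj φ (dconj φ.symm (E i))) = E := funext fun i => dconj_symm φ _
    rw [e2, frm_self hE, map_one]
  rw [h3] at h4
  exact zero_ne_one h4

/-- **The pull back of sections.** -/
theorem pull_sections (hy : NormalModel y) {Δ A : Place ℂ K → ℚ} (hA : Effective y A)
    {φ : K ≃ₐ[ℂ] K} (hφ : PullLe φ y n Δ) {x : Fin n → K} {E : Fin n → Derivation ℂ K K}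
    (hE : ∀ i j, E i (x j) = if i = j then 1 else 0) (hfr : IsFrame E)
    {c : Place ℂ K → ℤ} (hc : IsDisc y E c) {J : K}
    (hJ : ∀ (m : ℕ) (ω : (Fin n → Derivation ℂ K K) → K), IsPluri m ω →
      pf φ ω E = J ^ m * φ (ω E)) :
    ∃ A' : Place ℂ K → ℚ, Effective y A' ∧ ∀ m b : ℕ, 1 ≤ m →
      ∀ g ∈ Lsp y c m (m • Δ + b • A), J ^ m * φ g ∈ Lsp y c m (m • Δ + b • A') := by
  classical
  choose s hsc hs0 hs using fun j => disc_bound2 (Δ := Δ) (n := n) hy hA hfr j
  refine ⟨fun Q => ∑ j, |(Q.ord (φ (s j)) : ℚ)|, ⟨fun Q _ => Finset.sum_nonneg fun _ _ =>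
    abs_nonneg _, ?_⟩, fun m b hm g hg => ?_⟩
  · refine (Set.finite_iUnion fun j => finite_ord hy (f := φ (s j))
      (by rw [Ne, map_eq_zero]; exact hs0 j)).subset ?_
    rintro Q ⟨hQ, h0⟩
    by_contra hcon
    simp only [Set.mem_iUnion, not_exists] at hcon
    apply h0
    refine Finset.sum_eq_zero fun j _ => ?_
    have h1 : Q.ord (φ (s j)) = 0 := by
      by_contra h2
      exact hcon j ⟨hQ, h2⟩
    rw [h1]
    simp
  · have hω := frm_pluri (n := n) x m g
    have hωE : frm x m g E = g := frm_self hE m g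
    have hsec : IsSection y n m (m • Δ + b • A) (frm x m g) := by
      rw [isSection_iff hc hω, hωE]
      exact hg
    have h1 : IsSection y n m (m • Δ + b • fun Q => ∑ j, |(Q.ord (φ (s j)) : ℚ)|)
        (pf φ (frm x m g)) := by
      refine ⟨pf_pluri φ hω, fun Q hQ => pf_ordGe ?_⟩
      obtain ⟨α, hα, hα1⟩ := hφ Q hQ (comap φ Q) fun _ => rfl
      obtain ⟨j, hj⟩ := exists_centred hy (comap φ Q)
      have h2 := hs j (comap φ Q) hj α hα m b hm _ hsec
      intro E' hE'
      refine (h2 E' hE').imp_right fun h3 => le_trans ?_ h3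
      rw [Pi.add_apply, Pi.smul_apply, Pi.smul_apply, nsmul_eq_mul, nsmul_eq_mul]
      have h4 : ((comap φ Q).ord (s j) : ℚ) ≤ ∑ j, |(Q.ord (φ (s j)) : ℚ)| := by
        rw [comap_ord]
        refine (le_abs_self _).trans ?_
        exact Finset.single_le_sum (f := fun j => |(Q.ord (φ (s j)) : ℚ)|)
          (fun _ _ => abs_nonneg _) (Finset.mem_univ j)
      have h5 := mul_le_mul_of_nonneg_left h4 (show (0 : ℚ) ≤ b from Nat.cast_nonneg _)
      have h6 := mul_le_mul_of_nonneg_left hα1 (show (0 : ℚ) ≤ m from Nat.cast_nonneg _)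
      linarith
    rw [isSection_iff hc (pf_pluri φ hω), hJ m _ hω, hωE] at h1
    exact h1

end

end Pool.Agent.N110
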