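import Pool.Agent.N110.QRel
import Pool.Agent.N110.Grow

/-!
The uniform lower bound for the intersection numbers of the pull backs of a nef divisor.
-/

set_option autoImplicit false
set_option linter.overlappingInstances false
set_option linter.unusedSectionVars false

open FF Module Pool.Agent.W602.GT Pool.Agent.W603.LV
open Pool.Agent.Y172 Pool.Agent.Y191 Pool.Agent.R887 Pool.Agent.W619.PQ
open Filter Topology

namespace Pool.Agent.N110

/-- a polynomial with integral coefficients and positive growth -/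
theorem poly_half {R : Polynomial ℤ} {ν : ℕ} (hdeg : R.natDegree ≤ ν) {c : ℝ} (hc : 0 < c)
    (h : ∀ q : ℕ, 2 ≤ q → c * (q : ℝ) ^ ν ≤ ((R.eval (q : ℤ) : ℤ) : ℝ)) :
    ∀ᶠ q : ℕ in atTop, (q : ℝ) ^ ν / 2 ≤ ((R.eval (q : ℤ) : ℤ) : ℝ) := by
  have h1 : ∀ q : ℕ, ((R.eval (q : ℤ) : ℤ) : ℝ) =
      ∑ i ∈ Finset.range (ν + 1), (R.coeff i : ℝ) * (q : ℝ) ^ i := by
    intro q
    rw [Polynomial.eval_eq_sum_range' (Nat.lt_succ_of_le hdeg)]
    push_cast
    rfl
  have h2 : Tendsto (fun q : ℕ => ((R.eval (q : ℤ) : ℤ) : ℝ) / (q : ℝ) ^ ν) atTop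
      (𝓝 (R.coeff ν : ℝ)) := by
    have h3 : ∀ i ∈ Finset.range (ν + 1), Tendsto (fun q : ℕ => (R.coeff i : ℝ) *
        ((q : ℝ) ^ i / (q : ℝ) ^ ν)) atTop (𝓝 ((R.coeff i : ℝ) * if i = ν then 1 else 0)) := by
      intro i hi
      rw [Finset.mem_range] at hi
      refine Tendsto.const_mul _ ?_
      by_cases hiν : i = ν
      · rw [if_pos hiν, hiν]
        refine tendsto_const_nhds.congr' ?_
        filter_upwards [eventually_gt_atTop 0] with q hq
        have : (0 : ℝ) < q := by exact_mod_cast hq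
        rw [div_self (by positivity)]
      · rw [if_neg hiν]
        have h4 : Tendsto (fun q : ℕ => 1 / ((q : ℝ) ^ (ν - i))) atTop (𝓝 0) := by
          have h5 : Tendsto (fun q : ℕ => (q : ℝ) ^ (ν - i)) atTop atTop :=
            (tendsto_pow_atTop (by omega)).comp tendsto_natCast_atTop_atTop
          simp only [one_div]
          exact h5.inv_tendsto_atTop
        refine h4.congr' ?_
        filter_upwards [eventually_gt_atTop 0] with q hq
        have hq0 : (0 : ℝ) < q := by exact_mod_cast hq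
        have e1 : (q : ℝ) ^ ν = (q : ℝ) ^ i * (q : ℝ) ^ (ν - i) := by
          rw [← pow_add]
          congr 1
          omega
        rw [e1]
        field_simp
    have h4 := tendsto_finsetSum (Finset.range (ν + 1)) h3
    have h5 : ∑ i ∈ Finset.range (ν + 1), ((R.coeff i : ℝ) * if i = ν then 1 else 0) =
        (R.coeff ν : ℝ) := by
      rw [Finset.sum_eq_single ν]
      · simp
      · intro i _ hi
        rw [if_neg hi, mul_zero]
      · intro h
        exact absurd (Finset.mem_range.2 (Nat.lt_succ_self ν)) h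
    rw [h5] at h4
    refine h4.congr fun q => ?_
    rw [h1, Finset.sum_div]
    refine Finset.sum_congr rfl fun i _ => ?_
    rw [mul_div_assoc]
  have h3 : c ≤ (R.coeff ν : ℝ) := by
    refine ge_of_tendsto h2 ?_
    filter_upwards [eventually_ge_atTop 2] with q hq
    have hq0 : (0 : ℝ) < q := by
      have : 0 < q := by omega
      exact_mod_cast this
    rw [le_div_iff₀ (by positivity)]
    exact h q hq
  have h4 : (1 : ℝ) ≤ R.coeff ν := by
    have h5 : (0 : ℝ) < R.coeff ν := hc.trans_le h3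
    have h6 : 0 < R.coeff ν := by exact_mod_cast h5
    exact_mod_cast h6
  have h5 : ∀ᶠ q : ℕ in atTop, (1 / 2 : ℝ) < ((R.eval (q : ℤ) : ℤ) : ℝ) / (q : ℝ) ^ ν :=
    h2.eventually_const_lt (by linarith)
  filter_upwards [h5, eventually_gt_atTop 0] with q hq hq1
  have hq0 : (0 : ℝ) < q := by exact_mod_cast hq1
  rw [lt_div_iff₀ (by positivity)] at hq
  linarith

section

variable {K : Type} [Field K] [Algebra ℂ K] {N n : ℕ} {y : Fin (N + 1) → K}

/-- the intersection numbers as polynomials -/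
theorem poly_rel (hy : NormalModel y) (hn : Algebra.trdeg ℂ K = n) {i : Fin (N + 1)}
    (hi : y i ≠ 0) {c : Place ℂ K → ℤ} {Δ Hy : Place ℂ K → ℚ}
    (hHP : ∀ P l, IsPrimeDivisor y P → Centred y l P → Hy P = P.ord (y i / y l))
    {M : ℕ → ℕ} {σ : ℕ → K} {B : ℕ → Cls ℂ (affS y i)}
    (h : ∀ q, 1 ≤ q → NefSys y i n c Δ Hy q (M q) (σ q) (B q)) (φ : K →ₐ[ℂ] K)
    (X : Multiset (Cls ℂ (affS y i))) (j : ℕ) : ∀ a b : ℕ, j + a + b + X.card = n →
    ∃ R : Polynomial ℤ, R.natDegree ≤ j ∧ ∀ q, 2 ≤ q →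
      ((M 1 : ℤ) ^ j * I (Multiset.replicate j (eCls hy hn hi φ (B q)) +
        (Multiset.replicate a (eCls hy hn hi φ (B 1)) +
          (Multiset.replicate b (eCls hy hn hi φ (hcls hy hi)) + X))) : ℤ) =
      (M q : ℤ) ^ j * R.eval (q : ℤ) := by
  induction j with
  | zero =>
    intro a b _
    refine ⟨Polynomial.C (I (Multiset.replicate a (eCls hy hn hi φ (B 1)) +
      (Multiset.replicate b (eCls hy hn hi φ (hcls hy hi)) + X)) : ℤ), by simp, fun q _ => ?_⟩
    simp
  | succ j ih =>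
    intro a b hab
    obtain ⟨R1, hR1, h1⟩ := ih (a + 1) b (by omega)
    obtain ⟨R2, hR2, h2⟩ := ih a (b + 1) (by omega)
    refine ⟨Polynomial.X * R1 - Polynomial.C (M 1 : ℤ) * ((Polynomial.X - 1) * R2), ?_,
      fun q hq => ?_⟩
    · refine (Polynomial.natDegree_sub_le _ _).trans (max_le ?_ ?_)
      · refine Polynomial.natDegree_mul_le.trans ?_
        rw [Polynomial.natDegree_X]
        omega
      · refine Polynomial.natDegree_mul_le.trans ?_
        rw [Polynomial.natDegree_C, zero_add]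
        refine Polynomial.natDegree_mul_le.trans ?_
        have h3 : (Polynomial.X - 1 : Polynomial ℤ).natDegree ≤ 1 := by
          refine (Polynomial.natDegree_sub_le _ _).trans ?_
          simp
        omega
    · have h3 := nef_rel hy hn hi hHP hq (h q (by omega)) (h 1 le_rfl) φ
        (s := Multiset.replicate j (eCls hy hn hi φ (B q)) +
        (Multiset.replicate a (eCls hy hn hi φ (B 1)) +
          (Multiset.replicate b (eCls hy hn hi φ (hcls hy hi)) + X)))
        (by simp only [Multiset.card_add, Multiset.card_replicate]; omega)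
      have e1 : eCls hy hn hi φ (B q) ::ₘ (Multiset.replicate j (eCls hy hn hi φ (B q)) +
          (Multiset.replicate a (eCls hy hn hi φ (B 1)) +
          (Multiset.replicate b (eCls hy hn hi φ (hcls hy hi)) + X))) =
          Multiset.replicate (j + 1) (eCls hy hn hi φ (B q)) +
          (Multiset.replicate a (eCls hy hn hi φ (B 1)) +
          (Multiset.replicate b (eCls hy hn hi φ (hcls hy hi)) + X)) := by
        rw [Multiset.replicate_succ, Multiset.cons_add]
      have e2 : eCls hy hn hi φ (hcls hy hi) ::ₘ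
          (Multiset.replicate j (eCls hy hn hi φ (B q)) +
          (Multiset.replicate a (eCls hy hn hi φ (B 1)) +
          (Multiset.replicate b (eCls hy hn hi φ (hcls hy hi)) + X))) =
          Multiset.replicate j (eCls hy hn hi φ (B q)) +
          (Multiset.replicate a (eCls hy hn hi φ (B 1)) +
          (Multiset.replicate (b + 1) (eCls hy hn hi φ (hcls hy hi)) + X)) := by
        rw [Multiset.replicate_succ, Multiset.cons_add, Multiset.add_cons, Multiset.add_cons]
      have e3 : eCls hy hn hi φ (B 1) ::ₘ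
          (Multiset.replicate j (eCls hy hn hi φ (B q)) +
          (Multiset.replicate a (eCls hy hn hi φ (B 1)) +
          (Multiset.replicate b (eCls hy hn hi φ (hcls hy hi)) + X))) =
          Multiset.replicate j (eCls hy hn hi φ (B q)) +
          (Multiset.replicate (a + 1) (eCls hy hn hi φ (B 1)) +
          (Multiset.replicate b (eCls hy hn hi φ (hcls hy hi)) + X)) := by
        rw [Multiset.replicate_succ, Multiset.cons_add, Multiset.add_cons]
      rw [e1, e2, e3] at h3
      have h1' := h1 q hq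
      have h2' := h2 q hq
      obtain ⟨I0, hI0⟩ : ∃ I0, I0 = I (Multiset.replicate (j + 1) (eCls hy hn hi φ (B q)) +
          (Multiset.replicate a (eCls hy hn hi φ (B 1)) +
          (Multiset.replicate b (eCls hy hn hi φ (hcls hy hi)) + X))) := ⟨_, rfl⟩
      obtain ⟨I1, hI1⟩ : ∃ I1, I1 = I (Multiset.replicate j (eCls hy hn hi φ (B q)) +
          (Multiset.replicate (a + 1) (eCls hy hn hi φ (B 1)) +
          (Multiset.replicate b (eCls hy hn hi φ (hcls hy hi)) + X))) := ⟨_, rfl⟩
      obtain ⟨I2, hI2⟩ : ∃ I2, I2 = I (Multiset.replicate j (eCls hy hn hi φ (B q)) +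
          (Multiset.replicate a (eCls hy hn hi φ (B 1)) +
          (Multiset.replicate (b + 1) (eCls hy hn hi φ (hcls hy hi)) + X))) := ⟨_, rfl⟩
      rw [← hI0, ← hI1, ← hI2] at h3
      rw [← hI1] at h1'
      rw [← hI2] at h2'
      rw [← hI0]
      have h4 : (M 1 : ℤ) * I0 + M 1 * M q * (q - 1) * I2 = M q * q * I1 := by
        have h5 : ((M 1 * I0 + M 1 * M q * (q - 1) * I2 : ℕ) : ℤ) = ((M q * q * I1 : ℕ) : ℤ) := by
          rw [h3]
        push_cast [Nat.cast_sub (by omega : 1 ≤ q)] at h5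
        exact h5
      rw [Polynomial.eval_sub, Polynomial.eval_mul, Polynomial.eval_mul, Polynomial.eval_mul,
        Polynomial.eval_sub, Polynomial.eval_X, Polynomial.eval_C, Polynomial.eval_one]
      calc (M 1 : ℤ) ^ (j + 1) * I0 = (M 1 : ℤ) ^ j * (M 1 * I0) := by ring
        _ = (M 1 : ℤ) ^ j * (M q * q * I1 - M 1 * M q * (q - 1) * I2) := by
          rw [← h4]
          ring
        _ = M q * q * ((M 1 : ℤ) ^ j * I1) - M 1 * M q * (q - 1) * ((M 1 : ℤ) ^ j * I2) := by
          ring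
        _ = _ := by
          rw [h1', h2']
          ring

/-- **The uniform lower bound.** -/
theorem eps_all (hy : NormalModel y) (hn : Algebra.trdeg ℂ K = n) {i : Fin (N + 1)}
    (hi : y i ≠ 0) {c : Place ℂ K → ℤ} {Δ Hy : Place ℂ K → ℚ}
    (hHP : ∀ P l, IsPrimeDivisor y P → Centred y l P → Hy P = P.ord (y i / y l))
    {M : ℕ → ℕ} {σ : ℕ → K} {B : ℕ → Cls ℂ (affS y i)}
    (h : ∀ q, 1 ≤ q → NefSys y i n c Δ Hy q (M q) (σ q) (B q)) {ν : ℕ} (hν : ν ≤ n) {ε : ℝ}
    (hε : 0 < ε) (hbase : ∀ q, 1 ≤ q → ε * (M q * q : ℕ) ^ ν ≤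
      I (Multiset.replicate ν (B q) + Multiset.replicate (n - ν) (hcls hy hi)))
    (φ : K →ₐ[ℂ] K) : ∀ᶠ q : ℕ in atTop, 1 / (2 * (M 1 : ℝ) ^ ν) * (M q * q : ℕ) ^ ν ≤
      I (Multiset.replicate ν (eCls hy hn hi φ (B q)) +
        Multiset.replicate (n - ν) (hcls hy hi)) := by
  have cx := ctx hy hn hi
  obtain ⟨R, hR, hRq⟩ := poly_rel hy hn hi hHP h φ (Multiset.replicate (n - ν) (hcls hy hi)) ν
    0 0 (by rw [Multiset.card_replicate]; omega)
  simp only [Multiset.replicate_zero, zero_add] at hRq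
  obtain ⟨β, f, hf, hβ⟩ := emap_dom hy hi φ
  obtain ⟨t, ht⟩ : ∃ t : Multiset (Cls ℂ (affS y i)) → ℝ, t = fun s => (I s : ℝ) := ⟨_, rfl⟩
  have hLe : Le n t (β + 1) (eCls hy hn hi φ (hcls hy hi)) (hcls hy hi) := by
    intro s hs
    rw [ht]
    have e1 := I_dom cx (V := eCls hy hn hi φ (hcls hy hi)) (H := hcls hy hi)
      (fun v hv => hv) (B := β) (f := f) hf (by
        rintro _ ⟨v, hv, rfl⟩
        exact hβ v hv) hs
    calc ((I (eCls hy hn hi φ (hcls hy hi) ::ₘ s) : ℕ) : ℝ) ≤ (β : ℝ) *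
          (I (hcls hy hi ::ₘ s) : ℝ) := by exact_mod_cast e1
      _ ≤ ((β : ℝ) + 1) * (I (hcls hy hi ::ₘ s) : ℝ) :=
        mul_le_mul_of_nonneg_right (by linarith) (Nat.cast_nonneg _)
  have hM1 : (1 : ℝ) ≤ M 1 := by exact_mod_cast (h 1 le_rfl).hM
  have hMq : ∀ q, 1 ≤ q → (1 : ℝ) ≤ M q := fun q hq => by exact_mod_cast (h q hq).hM
  have hβ1 : (0 : ℝ) < (β : ℝ) + 1 := by positivity
  have hlow : ∀ q, 1 ≤ q → ε / ((β : ℝ) + 1) ^ (n - ν) * (M q * q : ℕ) ^ ν ≤
      I (Multiset.replicate ν (eCls hy hn hi φ (B q)) +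
        Multiset.replicate (n - ν) (hcls hy hi)) := by
    intro q hq
    have e1 := I_emap hy hn hi φ (s := Multiset.replicate ν (B q) +
      Multiset.replicate (n - ν) (hcls hy hi))
      (by simp only [Multiset.card_add, Multiset.card_replicate]; omega)
    rw [Multiset.map_add, Multiset.map_replicate, Multiset.map_replicate] at e1
    have e2 := hLe.rep hβ1.le (n - ν) (Multiset.replicate ν (eCls hy hn hi φ (B q)))
      (by rw [Multiset.card_replicate]; omega)
    rw [ht] at e2
    have e3 : Multiset.replicate (n - ν) (eCls hy hn hi φ (hcls hy hi)) +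
        Multiset.replicate ν (eCls hy hn hi φ (B q)) = Multiset.replicate ν
        (eCls hy hn hi φ (B q)) + Multiset.replicate (n - ν)
          (eCls hy hn hi φ (hcls hy hi)) := add_comm _ _
    have e4 : Multiset.replicate (n - ν) (hcls hy hi) +
        Multiset.replicate ν (eCls hy hn hi φ (B q)) = Multiset.replicate ν
        (eCls hy hn hi φ (B q)) + Multiset.replicate (n - ν)
          (hcls hy hi) := add_comm _ _
    rw [e3, e4] at e2
    beta_reduce at e2
    rw [e1] at e2
    have hdeg : (1 : ℝ) ≤ mapDegree φ := by exact_mod_cast mapDegree_pos hy.ess hn φ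
    have e5 := hbase q hq
    rw [div_mul_eq_mul_div, div_le_iff₀ (by positivity)]
    have e6 : (I (Multiset.replicate ν (B q) + Multiset.replicate (n - ν) (hcls hy hi)) : ℝ) ≤
        ((mapDegree φ * I (Multiset.replicate ν (B q) + Multiset.replicate (n - ν)
          (hcls hy hi)) : ℕ) : ℝ) := by
      push_cast
      have e7 : (0 : ℝ) ≤ I (Multiset.replicate ν (B q) + Multiset.replicate (n - ν)
          (hcls hy hi)) := Nat.cast_nonneg _
      nlinarith
    linarith
  have hpoly := poly_half hR (c := ε / ((β : ℝ) + 1) ^ (n - ν)) (by positivity) (by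
    intro q hq
    have e1 := hRq q hq
    have e2 := hlow q (by omega)
    have e3 : ((M 1 : ℝ) ^ ν * I (Multiset.replicate ν (eCls hy hn hi φ (B q)) +
        Multiset.replicate (n - ν) (hcls hy hi))) = (M q : ℝ) ^ ν * ((R.eval (q : ℤ) : ℤ) : ℝ) := by
      exact_mod_cast e1
    have hMq' : (0 : ℝ) < M q := by linarith [hMq q (by omega)]
    have hq0 : (0 : ℝ) < q := by
      have : 0 < q := by omega
      exact_mod_cast this
    have hM1ν : (1 : ℝ) ≤ (M 1 : ℝ) ^ ν := one_le_pow₀ hM1
    have e4 : (M q : ℝ) ^ ν * (ε / ((β : ℝ) + 1) ^ (n - ν) * (q : ℝ) ^ ν) ≤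
        (M q : ℝ) ^ ν * ((R.eval (q : ℤ) : ℤ) : ℝ) := by
      rw [← e3]
      have e5 : (M q : ℝ) ^ ν * (ε / ((β : ℝ) + 1) ^ (n - ν) * (q : ℝ) ^ ν) =
          ε / ((β : ℝ) + 1) ^ (n - ν) * (M q * q : ℕ) ^ ν := by
        push_cast
        rw [mul_pow]
        ring
      rw [e5]
      have e6 : (0 : ℝ) ≤ I (Multiset.replicate ν (eCls hy hn hi φ (B q)) +
        Multiset.replicate (n - ν) (hcls hy hi)) := Nat.cast_nonneg _
      nlinarith
    exact le_of_mul_le_mul_left e4 (by positivity))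
  filter_upwards [hpoly, eventually_ge_atTop 2] with q hq hq2
  have e1 := hRq q hq2
  have e3 : ((M 1 : ℝ) ^ ν * I (Multiset.replicate ν (eCls hy hn hi φ (B q)) +
      Multiset.replicate (n - ν) (hcls hy hi))) = (M q : ℝ) ^ ν * ((R.eval (q : ℤ) : ℤ) : ℝ) := by
    exact_mod_cast e1
  have hMq' : (0 : ℝ) < M q := by linarith [hMq q (by omega)]
  have hM1' : (0 : ℝ) < (M 1 : ℝ) ^ ν := by positivity
  rw [one_div, inv_mul_eq_div, div_le_iff₀ (by positivity)]
  have e4 := mul_le_mul_of_nonneg_left hq (show (0 : ℝ) ≤ (M q : ℝ) ^ ν by positivity)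
  push_cast
  rw [mul_pow]
  linarith

end

end Pool.Agent.N110
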