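import Pool.Agent.N110.Sec
import Pool.Agent.R887.Can
import Pool.Agent.R887.Pull

/-!
Images of spaces of functions under endomorphisms of the function field (dominant rational
self-maps), not necessarily invertible.
-/

set_option autoImplicit false
set_option linter.overlappingInstances false
set_option linter.unusedSectionVars false

open FF Module MvPolynomial Pool.Agent.W602.GT Pool.Agent.W603.LV
open Pool.Agent.Y172 Pool.Agent.Y191 Pool.Agent.R887 Pool.Agent.W619.PQ

namespace Pool.Agent.N110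

section

variable {K : Type} [Field K] [Algebra ℂ K] {N n : ℕ} {y : Fin (N + 1) → K}

/-- the field is finite over the image of an endomorphism -/
theorem fd_range (hess : Algebra.EssFiniteType ℂ K) (hn : Algebra.trdeg ℂ K = n)
    (φ : K →ₐ[ℂ] K) : FiniteDimensional φ.fieldRange K := by
  obtain ⟨x, E, hx, hE⟩ := exists_crd hn (k := ℂ) (K := K)
  have h1 : AlgebraicIndependent ℂ (fun i => φ (x i)) := by
    have := hx.1.map' (f := φ) φ.toRingHom.injective
    exact this
  have h2 : IsTranscendenceBasis ℂ (fun i => φ (x i)) := by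
    have h3 := h1.isTranscendenceBasis_of_lift_trdeg_le_of_finite (by
      rw [hn]
      simp)
    exact h3
  have h3 : FiniteDimensional (IntermediateField.adjoin ℂ (Set.range fun i => φ (x i))) K :=
    fd_basis h2
  have h4 : IntermediateField.adjoin ℂ (Set.range fun i => φ (x i)) ≤ φ.fieldRange := by
    rw [IntermediateField.adjoin_le_iff]
    rintro _ ⟨i, rfl⟩
    exact ⟨x i, rfl⟩
  let _ : Algebra (IntermediateField.adjoin ℂ (Set.range fun i => φ (x i))) φ.fieldRange :=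
    (IntermediateField.inclusion h4).toRingHom.toAlgebra
  have : IsScalarTower (IntermediateField.adjoin ℂ (Set.range fun i => φ (x i))) φ.fieldRange K :=
    IsScalarTower.of_algebraMap_eq fun _ => rfl
  exact FiniteDimensional.right (IntermediateField.adjoin ℂ (Set.range fun i => φ (x i))) _ K

/-- the place below -/
theorem below (hess : Algebra.EssFiniteType ℂ K) (hn : Algebra.trdeg ℂ K = n)
    (φ : K →ₐ[ℂ] K) (Q : Place ℂ K) : ∃ (P : Place ℂ K) (e : ℕ), LiesOver φ Q P e := by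
  have key : ∀ {K' : Type} [Field K'] [Algebra ℂ K'] (hess' : Algebra.EssFiniteType ℂ K')
      (hn' : Algebra.trdeg ℂ K' = n) (ψ : K →ₐ[ℂ] K') (Q : Place ℂ K'),
      ∃ (P : Place ℂ K) (e : ℕ), LiesOver ψ Q P e := by
    intro K' _ _ hess' hn' ψ Q
    let _ : Algebra K K' := ψ.toRingHom.toAlgebra
    have hst : IsScalarTower ℂ K K' :=
      IsScalarTower.of_algebraMap_eq fun c => (ψ.commutes c).symm
    have hfd : FiniteDimensional K K' := finite_map hn hn'
    exact ⟨bel K Q, ram K Q, over_bel K Q⟩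
  exact key hess hn φ Q

theorem bnd_emap (hess : Algebra.EssFiniteType ℂ K) (hn : Algebra.trdeg ℂ K = n)
    (φ : K →ₐ[ℂ] K) {S : Set K} {B : ℕ} {f : K} (h : Bnd ℂ S B f) :
    Bnd ℂ (φ '' S) B (φ f) := by
  intro Q
  obtain ⟨P, e, he, hP⟩ := below hess hn φ Q
  obtain ⟨s, hs, hs0, h1⟩ := h P
  refine ⟨φ s, ⟨s, hs, rfl⟩, by rwa [Ne, map_eq_zero], ?_⟩
  rw [hP, hP]
  have he0 : (0 : ℤ) ≤ e := Int.natCast_nonneg _
  have := mul_le_mul_of_nonneg_left h1 he0
  linarith

/-- the image of a space under an endomorphism: domination -/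
theorem emap_dom (hy : NormalModel y) {i : Fin (N + 1)} (hi : y i ≠ 0) (φ : K →ₐ[ℂ] K) :
    ∃ (β : ℕ) (h : K), h ≠ 0 ∧ ∀ v ∈ Submodule.span ℂ (affS y i),
      Bnd ℂ (affS y i) β (h * φ v) := by
  classical
  have hfr := hy.frac hi
  have h1 : ∀ l, ∃ a ∈ chart y i, ∃ b ∈ chart y i, b ≠ 0 ∧ φ (y l / y i) = a / b := by
    intro l
    obtain ⟨a, b, hb, hab⟩ := IsFractionRing.div_surjective (A := chart y i) (φ (y l / y i))
    refine ⟨a, a.2, b, b.2, ?_, hab.symm⟩
    intro h
    exact nonZeroDivisors.ne_zero hb (Subtype.ext h)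
  choose a ha b hb hb0 hab using h1
  obtain ⟨μ, hμ⟩ := exists_isMin (k := ℂ) (S := insert (1 : K) (Set.range fun l => y l / y i))
    ((Set.finite_range _).insert _) ⟨1, Set.mem_insert _ _, one_ne_zero⟩
  have hset : insert (1 : K) (Set.range fun l => y l / y i) = affS y i := by
    rw [Set.insert_eq_of_mem]
    · rfl
    · exact one_affS hi
  have hnum : ∀ l, (∏ j, b j) * φ (y l / y i) ∈ chart y i := by
    intro l
    rw [← Finset.mul_prod_erase Finset.univ b (Finset.mem_univ l), hab]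
    have e1 : b l * ∏ x ∈ Finset.univ.erase l, b x = (∏ x ∈ Finset.univ.erase l, b x) * b l :=
      mul_comm _ _
    rw [e1, mul_assoc, mul_div_cancel₀ _ (hb0 l)]
    exact (chart y i).mul_mem ((chart y i).prod_mem fun j _ => hb j) (ha l)
  have hD : ∀ l, ∃ D : ℕ, ∀ P : Place ℂ K, Ge P (D * μ P) ((∏ j, b j) * φ (y l / y i)) := by
    intro l
    have h2 := hnum l
    unfold chart at h2
    rw [Algebra.adjoin_range_eq_range_aeval] at h2
    obtain ⟨Q, hQ⟩ := h2
    obtain ⟨D, hD⟩ := ge_poly' hμ Q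
    exact ⟨D, fun P => by rw [← hQ]; exact hD P⟩
  choose D hD using hD
  rw [← hset]
  refine ⟨∑ l, D l, ∏ j, b j, Finset.prod_ne_zero_iff.2 fun j _ => hb0 j, fun v hv =>
    bnd_of_ge hμ (Set.mem_insert _ _) fun P => ?_⟩
  rw [hset] at hv
  induction hv using Submodule.span_induction with
  | mem x hx =>
    obtain ⟨l, rfl⟩ := hx
    refine (hD l P).mono ?_
    have h4 : (D l : ℤ) ≤ ((∑ l, D l : ℕ) : ℤ) := by
      exact_mod_cast Finset.single_le_sum (f := D) (fun _ _ => Nat.zero_le _) (Finset.mem_univ l)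
    exact mul_le_mul_of_nonpos_right h4 (hμ.nonpos (Set.mem_insert _ _) P)
  | zero => rw [map_zero, mul_zero]; exact Or.inl rfl
  | add x y _ _ h1 h2 => rw [map_add, mul_add]; exact h1.add h2
  | smul t x _ h1 =>
    have h2 := (Ge.const (P := P) t).mul h1
    rw [zero_add] at h2
    have e1 : (∏ j, b j) * φ (t • x) = algebraMap ℂ K t * ((∏ j, b j) * φ x) := by
      rw [Algebra.smul_def, map_mul, φ.commutes]
      ring
    rw [e1]
    exact h2

/-- the image of a space under an endomorphism -/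
noncomputable def eCls (hy : NormalModel y) (hn : Algebra.trdeg ℂ K = n) {i : Fin (N + 1)}
    (hi : y i ≠ 0) (φ : K →ₐ[ℂ] K) (A : Cls ℂ (affS y i)) : Cls ℂ (affS y i) where
  V := A.V.map φ.toLinearMap
  one := ⟨1, A.one, map_one φ⟩
  big := by
    have h1 : ((A.V.map φ.toLinearMap : Submodule ℂ K) : Set K) = φ '' (A.V : Set K) := by
      ext z
      constructor
      · rintro ⟨w, hw, rfl⟩
        exact ⟨w, hw, rfl⟩
      · rintro ⟨w, hw, rfl⟩
        exact ⟨w, hw, rfl⟩
    rw [h1]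
    have h2 := fd_range hy.ess hn φ
    constructor
    intro z
    refine isAlg_trans (A := φ.fieldRange) ?_ (Algebra.IsAlgebraic.isAlgebraic z)
    rintro _ ⟨x, rfl⟩
    exact alg_image φ (A.big.isAlgebraic x)
  dom := by
    obtain ⟨μ, hμ⟩ := exists_isMin (k := ℂ) (fin_affS (y := y) i)
      ⟨1, one_affS hi, one_ne_zero⟩
    obtain ⟨B, f, hf, hB⟩ := A.dom
    obtain ⟨β, h, hh, hβ⟩ := emap_dom hy hi φ
    refine ⟨B * β, h ^ B * φ f, mul_ne_zero (pow_ne_zero _ hh) (by rwa [Ne, map_eq_zero]), ?_⟩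
    rintro _ ⟨v, hv, rfl⟩
    refine bnd_of_ge hμ (one_affS hi) fun P => ?_
    change Ge P _ (h ^ B * φ f * φ v)
    by_cases hv0 : f * v = 0
    · left
      rw [mul_assoc, ← map_mul, hv0, map_zero, mul_zero]
    right
    obtain ⟨_, ⟨s, hs, rfl⟩, hs0, h1⟩ := bnd_emap hy.ess hn φ (hB v hv) P
    have h2 := hμ.ge (hβ s (Submodule.subset_span hs)) P
    have h3 := h2.resolve_left (mul_ne_zero hh hs0)
    rw [P.ord_mul hh hs0] at h3
    have hφv : φ (f * v) ≠ 0 := by rwa [Ne, map_eq_zero]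
    rw [mul_assoc, ← map_mul, P.ord_mul (pow_ne_zero _ hh) hφv, P.ord_pow]
    have h4 := mul_le_mul_of_nonneg_left h3 (show (0 : ℤ) ≤ B from Int.natCast_nonneg _)
    push_cast
    linarith

theorem eCls_mem {hy : NormalModel y} {hn : Algebra.trdeg ℂ K = n} {i : Fin (N + 1)}
    {hi : y i ≠ 0} {φ : K →ₐ[ℂ] K} {A : Cls ℂ (affS y i)} {v : K} (hv : v ∈ A.V) :
    φ v ∈ (eCls hy hn hi φ A).V :=
  ⟨v, hv, rfl⟩

theorem eCls_eCls {hy : NormalModel y} {hn : Algebra.trdeg ℂ K = n} {i : Fin (N + 1)}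
    {hi : y i ≠ 0} {φ ψ : K →ₐ[ℂ] K} {A : Cls ℂ (affS y i)} :
    eCls hy hn hi φ (eCls hy hn hi ψ A) = eCls hy hn hi (φ * ψ) A := by
  apply Cls.ext'
  ext z
  constructor
  · rintro ⟨_, ⟨w, hw, rfl⟩, rfl⟩
    exact ⟨w, hw, rfl⟩
  · rintro ⟨w, hw, rfl⟩
    exact ⟨ψ w, ⟨w, hw, rfl⟩, rfl⟩

theorem eCls_one {hy : NormalModel y} {hn : Algebra.trdeg ℂ K = n} {i : Fin (N + 1)}
    {hi : y i ≠ 0} {A : Cls ℂ (affS y i)} : eCls hy hn hi 1 A = A := by
  apply Cls.ext'
  ext z
  constructor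
  · rintro ⟨w, hw, rfl⟩
    exact hw
  · intro h
    exact ⟨z, h, rfl⟩

theorem eCls_mul {hy : NormalModel y} {hn : Algebra.trdeg ℂ K = n} {i : Fin (N + 1)}
    {hi : y i ≠ 0} {ψ : K →ₐ[ℂ] K} {hS : (affS y i).Finite} {h1 : (1 : K) ∈ affS y i}
    {A B : Cls ℂ (affS y i)} :
    eCls hy hn hi ψ (mulCls hS h1 A B) =
      mulCls hS h1 (eCls hy hn hi ψ A) (eCls hy hn hi ψ B) := by
  apply Cls.ext'
  exact Submodule.map_mul A.V B.V ψ

/-- the degree of the image -/
theorem dm_emap (φ : K →ₐ[ℂ] K) (W : Multiset K) :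
    dm ℂ (W.map φ) = mapDegree φ * dm ℂ W := by
  have h1 : gen ℂ (W.map φ) = (gen ℂ W).map φ := by
    unfold gen
    rw [IntermediateField.adjoin_map]
    congr 1
    ext z
    simp only [Multiset.mem_map, Set.mem_image]
    rfl
  have h2 : (gen ℂ W).map φ ≤ φ.fieldRange := by
    rintro _ ⟨x, -, rfl⟩
    exact ⟨x, rfl⟩
  have h3 := IntermediateField.relfinrank_mul_finrank_top h2
  have h4 : φ.fieldRange = (⊤ : IntermediateField ℂ K).map φ := by
    rw [← AlgHom.fieldRange_eq_map]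
  unfold dm mapDegree
  rw [h1, ← h3, h4, IntermediateField.relfinrank_map_map, IntermediateField.relfinrank_top_right,
    mul_comm]

theorem sel_emap {hy : NormalModel y} {hn : Algebra.trdeg ℂ K = n} {i : Fin (N + 1)}
    {hi : y i ≠ 0} (φ : K →ₐ[ℂ] K) {W : Multiset K} {s : Multiset (Cls ℂ (affS y i))}
    (h : Sel W s) : Sel (W.map φ) (s.map (eCls hy hn hi φ)) := by
  induction s using Multiset.induction_on generalizing W with
  | empty =>
    have e1 : W = 0 := Multiset.card_eq_zero.1 (by rw [h.card]; rfl)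
    subst e1
    exact Multiset.Rel.zero
  | cons V s ih =>
    obtain ⟨x, W', hx, hW', rfl⟩ := sel_cons_right h
    rw [Multiset.map_cons, Multiset.map_cons]
    exact sel_cons (eCls_mem hx) (ih hW')

theorem sel_emap' {hy : NormalModel y} {hn : Algebra.trdeg ℂ K = n} {i : Fin (N + 1)}
    {hi : y i ≠ 0} (φ : K →ₐ[ℂ] K) {W : Multiset K} {s : Multiset (Cls ℂ (affS y i))}
    (h : Sel W (s.map (eCls hy hn hi φ))) : ∃ W', Sel W' s ∧ W = W'.map φ := by
  induction s using Multiset.induction_on generalizing W with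
  | empty =>
    have e1 : W = 0 := Multiset.card_eq_zero.1 (by rw [h.card]; rfl)
    subst e1
    exact ⟨0, Multiset.Rel.zero, rfl⟩
  | cons V s ih =>
    rw [Multiset.map_cons] at h
    obtain ⟨_, W', ⟨x, hx, rfl⟩, hW', rfl⟩ := sel_cons_right h
    obtain ⟨W'', h1, rfl⟩ := ih hW'
    exact ⟨x ::ₘ W'', sel_cons hx h1, by rw [Multiset.map_cons]; rfl⟩

/-- **The projection formula.** -/
theorem I_emap (hy : NormalModel y) (hn : Algebra.trdeg ℂ K = n) {i : Fin (N + 1)} (hi : y i ≠ 0)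
    (φ : K →ₐ[ℂ] K) {s : Multiset (Cls ℂ (affS y i))} (hs : s.card = n) :
    I (s.map (eCls hy hn hi φ)) = mapDegree φ * I s := by
  have hs' : (s.map (eCls hy hn hi φ)).card = n := by rw [Multiset.card_map]; exact hs
  refine le_antisymm ?_ ?_
  · obtain ⟨W, hW, e⟩ := exists_max (ctx hy hn hi) hs'
    obtain ⟨W', hW', rfl⟩ := sel_emap' φ hW
    rw [← e, dm_emap]
    exact Nat.mul_le_mul_left _ (le_I (ctx hy hn hi) hs hW')
  · obtain ⟨W, hW, e⟩ := exists_max (ctx hy hn hi) hs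
    rw [← e, ← dm_emap]
    exact le_I (ctx hy hn hi) hs' (sel_emap φ hW)

theorem mapDegree_pos (hess : Algebra.EssFiniteType ℂ K) (hn : Algebra.trdeg ℂ K = n)
    (φ : K →ₐ[ℂ] K) : 0 < mapDegree φ := by
  have := fd_range hess hn φ
  exact Module.finrank_pos

end

end Pool.Agent.N110
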