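import Pool.Agent.N110.QAssem
import Pool.Agent.N110.JPlateau

/-!
**The plateau theorem** for semigroups of dominant rational self-maps, if `K_X + Δ` is nef.
-/

set_option autoImplicit false
set_option linter.overlappingInstances false
set_option linter.unusedSectionVars false

open FF Module MvPolynomial Pool.Agent.W602.GT Pool.Agent.W603.LV
open Pool.Agent.Y172 Pool.Agent.Y191 Pool.Agent.R887
open scoped ENNReal Topology

namespace Pool.Agent.N110

section

variable {K : Type} [Field K] [Algebra ℂ K] {N n : ℕ} {y : Fin (N + 1) → K}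

/-- the joint dynamical degrees of one map are its dynamical degrees -/
theorem selfJointDegree_singleton (φ : K →ₐ[ℂ] K) (p : ℕ) :
    selfJointDegree {φ} y n p =
      Filter.limsup (fun l : ℕ => selfDegree (φ ^ l) y n p ^ (1 / (l : ℝ))) Filter.atTop := by
  unfold selfJointDegree
  congr 1
  funext l
  congr 1
  refine le_antisymm (iSup_le fun w => iSup_le fun hw => iSup_le fun hwS => ?_) ?_
  · have e1 : w = List.replicate l φ := List.eq_replicate_iff.2 ⟨hw, hwS⟩
    rw [e1, List.prod_replicate]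
  · refine le_iSup_of_le (List.replicate l φ) (le_iSup_of_le (List.length_replicate)
      (le_iSup_of_le (fun ψ hψ => List.eq_of_mem_replicate hψ) ?_))
    rw [List.prod_replicate]

/-- **The plateau theorem**, for the largest `ν`. -/
theorem splateau_aux (hy : NormalModel y) (hn : Algebra.trdeg ℂ K = n) {Δ : Place ℂ K → ℚ}
    (hΔ : {P | IsPrimeDivisor y P ∧ Δ P ≠ 0}.Finite)
    (hnef : LogNef y n Δ)
    {S : Set (K →ₐ[ℂ] K)} (h1 : ∀ φ ∈ S, SelfPullLe φ y n Δ)
    {C₁ : ℕ} (hC₁ : ∀ φ ∈ S, selfDegree φ y n 1 ≤ C₁) {ν : ℕ} (hν : ν ≤ n)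
    (hnum : ¬ NumDimLt y n Δ ν) (hnum' : ν + 1 ≤ n → NumDimLt y n Δ (ν + 1)) :
    ∃ j, j + ν ≤ n ∧ ∀ a ≤ ν, ∀ p ≤ n, selfJointDegree S y n p ≤ selfJointDegree S y n (j + a) := by
  classical
  rcases Nat.eq_zero_or_pos n with rfl | hn0
  · refine ⟨0, by omega, fun a ha p hp => ?_⟩
    obtain rfl : a = 0 := by omega
    obtain rfl : p = 0 := by omega
    exact le_rfl
  obtain ⟨i, hi⟩ := hy.ne
  by_contra hcon
  push Not at hcon
  obtain ⟨d, hd⟩ : ∃ d : ℕ → ℕ → ℝ≥0∞, ∀ p l, d p l = ⨆ (w : List (K →ₐ[ℂ] K))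
      (_ : w.length = l) (_ : ∀ φ ∈ w, φ ∈ S), selfDegree w.prod y n p := ⟨_, fun _ _ => rfl⟩
  have hdyn : ∀ p, selfJointDegree S y n p =
      Filter.limsup (fun l : ℕ => d p l ^ (1 / (l : ℝ))) Filter.atTop := by
    intro p
    unfold selfJointDegree
    congr 1
    funext l
    rw [hd]
  obtain ⟨p0, hp0, hmax⟩ := Finset.exists_max_image (Finset.range (n + 1))
    (fun p => selfJointDegree S y n p) ⟨0, by simp⟩
  rw [Finset.mem_range] at hp0
  have hcon' : ∀ j, j + ν ≤ n → ∃ a ≤ ν, selfJointDegree S y n (j + a) < selfJointDegree S y n p0 := by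
    intro j hj
    obtain ⟨a, ha, p, hp, hlt⟩ := hcon j hj
    exact ⟨a, ha, hlt.trans_le (hmax p (Finset.mem_range.2 (by omega)))⟩
  choose a ha halt using hcon'
  obtain ⟨B, hB⟩ : ∃ B : ℝ≥0∞, B = (Finset.range (n + 1)).sup fun j =>
      if hj : j + ν ≤ n then selfJointDegree S y n (j + a j hj) else 0 := ⟨_, rfl⟩
  have hBlt : B < selfJointDegree S y n p0 := by
    rw [hB, Finset.sup_lt_iff]
    · intro j _
      split_ifs with hj
      · exact halt j hj
      · exact zero_le.trans_lt (halt 0 (by omega))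
    · exact zero_le.trans_lt (halt 0 (by omega))
  obtain ⟨L, hL1, hL2⟩ := ENNReal.lt_iff_exists_nnreal_btwn.1 hBlt
  obtain ⟨L', hL3, hL4⟩ := ENNReal.lt_iff_exists_nnreal_btwn.1 hL2
  have hL0 : (0 : ℝ) < L := by
    have : (0 : ℝ≥0∞) < L := zero_le.trans_lt hL1
    exact_mod_cast this
  have hLL' : (L : ℝ) < L' := by exact_mod_cast hL3
  obtain ⟨A, hA⟩ := growth_self hy hn hn0 hi hΔ hnef h1 (C₁ := C₁) (fun φ hφ => by
    have h3 := hC₁ φ hφ
    rw [selfDegree_eq hy hn hi φ (by omega : 1 ≤ n), Nat.cast_le, Multiset.replicate_one,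
      Multiset.singleton_add] at h3
    exact h3) hν hnum hnum' hL0 hLL' (by
    intro j hj
    have h3 : selfJointDegree S y n (j + a j hj) < ENNReal.ofReal L := by
      rw [ENNReal.ofReal_coe_nnreal]
      refine lt_of_le_of_lt ?_ hL1
      rw [hB]
      have h4 := Finset.le_sup (s := Finset.range (n + 1))
        (f := fun j => if hj : j + ν ≤ n then selfJointDegree S y n (j + a j hj) else 0)
        (Finset.mem_range.2 (by omega : j < n + 1))
      simp only [dif_pos hj] at h4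
      exact h4
    have ha' := ha j hj
    rw [hdyn] at h3
    obtain ⟨l0, hl0⟩ := ev_of_limsup hL0 h3
    refine ⟨a j hj, ha', 1, l0, fun w hw hwS => ?_⟩
    have h4 := hl0 w.length hw
    have h5 : selfDegree w.prod y n (j + a j hj) ≤ d (j + a j hj) w.length := by
      rw [hd]
      exact le_iSup_of_le w (le_iSup_of_le rfl (le_iSup_of_le hwS le_rfl))
    have h6 := h5.trans h4
    rw [selfDegree_eq hy hn hi w.prod (by omega)] at h6
    have h7 := (ENNReal.le_ofReal_iff_toReal_le (ENNReal.natCast_ne_top _) (by positivity)).1 h6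
    rw [one_mul]
    simpa using h7)
  have h3 : selfJointDegree S y n p0 ≤ ENNReal.ofReal L' := by
    rw [hdyn p0]
    refine limsup_of_bd (A := A) (hL0.trans hLL') fun l => ?_
    rw [hd]
    refine iSup_le fun w => iSup_le fun hw => iSup_le fun hwS => ?_
    rw [selfDegree_eq hy hn hi w.prod (by omega : p0 ≤ n), ← ENNReal.ofReal_natCast]
    refine ENNReal.ofReal_le_ofReal ?_
    rw [← hw]
    exact hA w hwS p0 (by omega)
  rw [ENNReal.ofReal_coe_nnreal] at h3
  exact absurd hL4 (not_lt.2 h3)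

/-- **The plateau theorem.** -/
theorem splateau (hy : NormalModel y) (hn : Algebra.trdeg ℂ K = n) {Δ : Place ℂ K → ℚ}
    (hΔ : {P | IsPrimeDivisor y P ∧ Δ P ≠ 0}.Finite)
    (hnef : LogNef y n Δ)
    {S : Set (K →ₐ[ℂ] K)} (h1 : ∀ φ ∈ S, SelfPullLe φ y n Δ)
    {C₁ : ℕ} (hC₁ : ∀ φ ∈ S, selfDegree φ y n 1 ≤ C₁) {ν : ℕ} (hν : ν ≤ n)
    (hnum : ¬ NumDimLt y n Δ ν) :
    ∃ j, j + ν ≤ n ∧ ∀ a ≤ ν, ∀ p ≤ n, selfJointDegree S y n p ≤ selfJointDegree S y n (j + a) := by
  classical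
  obtain ⟨ν', hν'⟩ : ∃ ν', ν' = Nat.findGreatest (fun k => ¬ NumDimLt y n Δ k) n := ⟨_, rfl⟩
  have e1 : ν ≤ ν' := by rw [hν']; exact Nat.le_findGreatest hν hnum
  have e2 : ν' ≤ n := by rw [hν']; exact Nat.findGreatest_le n
  have e3 : ¬ NumDimLt y n Δ ν' := by
    rw [hν']
    exact Nat.findGreatest_spec (P := fun k => ¬ NumDimLt y n Δ k) hν hnum
  have e4 : ν' + 1 ≤ n → NumDimLt y n Δ (ν' + 1) := by
    intro h
    have := Nat.findGreatest_is_greatest (P := fun k => ¬ NumDimLt y n Δ k) (n := n)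
      (k := ν' + 1) (by rw [← hν']; omega) h
    exact not_not.1 this
  obtain ⟨j, hj, h⟩ := splateau_aux hy hn hΔ hnef h1 hC₁ e2 e3 e4
  exact ⟨j, by omega, fun a ha p hp => h a (by omega) p hp⟩

end

end Pool.Agent.N110
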