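import Pool.Agent.N110.QNef

/-!
The relations between the intersection numbers of the systems of the multiples of
`q (K_X + Δ) + H`, and their growth.
-/

set_option autoImplicit false
set_option linter.overlappingInstances false
set_option linter.unusedSectionVars false

open FF Module MvPolynomial Pool.Agent.W602.GT Pool.Agent.W603.LV
open Pool.Agent.Y172 Pool.Agent.Y191 Pool.Agent.R887 Pool.Agent.W619.PQ

namespace Pool.Agent.N110

section

variable {K : Type} [Field K] [Algebra ℂ K] {N n : ℕ} {y : Fin (N + 1) → K}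

/-- the base point free system `B`, with `σ B` the space of the sections of
`M (q (K_X + Δ) + H)` -/
structure NefSys (y : Fin (N + 1) → K) (i : Fin (N + 1)) (n : ℕ) (c : Place ℂ K → ℤ)
    (Δ Hy : Place ℂ K → ℚ) (q M : ℕ) (σ : K) (B : Cls ℂ (affS y i)) : Prop where
  hM : 1 ≤ M
  hσ : σ ≠ 0
  mem : ∀ v, v ∈ B.V ↔ σ * v ∈ Lsp y c (M * q) ((M * q) • Δ + M • Hy)
  gen : ∀ Q, Divisorial n Q → ∃ g, GenAt y c (M * q) ((M * q) • Δ + M • Hy) Q g

theorem NefSys.ge (hy : NormalModel y) {i : Fin (N + 1)} {c : Place ℂ K → ℤ}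
    {Δ Hy : Place ℂ K → ℚ} {q M : ℕ} {σ : K} {B : Cls ℂ (affS y i)}
    (h : NefSys y i n c Δ Hy q M σ B) {Q : Place ℂ K} {g : K}
    (hg : GenAt y c (M * q) ((M * q) • Δ + M • Hy) Q g) :
    ∀ v ∈ B.V, Ge Q (Q.ord g - Q.ord σ) v := by
  intro v hv
  by_cases hv0 : v = 0
  · exact Or.inl hv0
  right
  have hσ := h.hσ
  have hmem := (h.mem v).1 hv
  have h1 := ord_le_of_through hy (Q := Q) (mul_ne_zero hσ hv0) hg.1 fun P hP hT => by
    have h1 := hg.2.2 P hP hT
    have h2 := (hmem P hP).resolve_left (mul_ne_zero hσ hv0)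
    have h3 : (P.ord g : ℚ) ≤ P.ord (σ * v) := by linarith
    exact_mod_cast h3
  rw [Q.ord_mul hσ hv0] at h1
  omega

theorem hcls_ge (hy : NormalModel y) {i : Fin (N + 1)} (hi : y i ≠ 0) {Q : Place ℂ K}
    {l : Fin (N + 1)} (hl : Centred y l Q) : ∀ v ∈ (hcls hy hi).V, Ge Q (Q.ord (y l / y i)) v := by
  intro v hv
  change v ∈ Submodule.span ℂ (affS y i) at hv
  induction hv using Submodule.span_induction with
  | mem x hx =>
    obtain ⟨k, rfl⟩ := hx
    change y k / y i = 0 ∨ Q.ord (y l / y i) ≤ Q.ord (y k / y i)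
    by_cases hk : y k = 0
    · left
      rw [hk, zero_div]
    right
    have h2 := (Q.reg_iff (div_ne_zero hk hl.1)).1 (hl.2 k)
    have h3 : y k / y i = (y k / y l) * (y l / y i) := by
      have := hl.1
      field_simp
    rw [h3, Q.ord_mul (div_ne_zero hk hl.1) (div_ne_zero hl.1 hi)]
    omega
  | zero => exact Or.inl rfl
  | add x y _ _ h1 h2 => exact h1.add h2
  | smul t x _ h1 =>
    rw [Algebra.smul_def]
    have h2 := (Ge.const (P := Q) t).mul h1
    rwa [zero_add] at h2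

/-- **The linear relation.** -/
theorem nef_rel (hy : NormalModel y) (hn : Algebra.trdeg ℂ K = n) {i : Fin (N + 1)}
    (hi : y i ≠ 0) {c : Place ℂ K → ℤ} {Δ Hy : Place ℂ K → ℚ}
    (hHP : ∀ P l, IsPrimeDivisor y P → Centred y l P → Hy P = P.ord (y i / y l))
    {q M M1 : ℕ} (hq : 2 ≤ q) {σ σ1 : K} {B B1 : Cls ℂ (affS y i)}
    (h : NefSys y i n c Δ Hy q M σ B) (h1 : NefSys y i n c Δ Hy 1 M1 σ1 B1)
    (φ : K →ₐ[ℂ] K) {s : Multiset (Cls ℂ (affS y i))} (hs : s.card + 1 = n) :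
    M1 * I (eCls hy hn hi φ B ::ₘ s) +
      M1 * M * (q - 1) * I (eCls hy hn hi φ (hcls hy hi) ::ₘ s) =
      M * q * I (eCls hy hn hi φ B1 ::ₘ s) := by
  have cx := ctx hy hn hi
  have hM := h.hM
  have hM1 := h1.hM
  have hσ := h.hσ
  have hσ1 := h1.hσ
  obtain ⟨a, ha⟩ : ∃ a, a = M1 * M * (q - 1) := ⟨_, rfl⟩
  obtain ⟨b, hb⟩ : ∃ b, b = M * q := ⟨_, rfl⟩
  have ha1 : 1 ≤ a := by
    rw [ha]
    exact Nat.mul_pos (Nat.mul_pos hM1 hM) (by omega)
  have hb1 : 1 ≤ b := by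
    rw [hb]
    exact Nat.mul_pos hM (by omega)
  obtain ⟨P1, hP1⟩ : ∃ P1, P1 = mulCls (fin_affS i) (one_affS hi)
    (pw (fin_affS i) (one_affS hi) B (M1 - 1))
    (pw (fin_affS i) (one_affS hi) (hcls hy hi) (a - 1)) := ⟨_, rfl⟩
  obtain ⟨P2, hP2⟩ : ∃ P2, P2 = pw (fin_affS i) (one_affS hi) B1 (b - 1) := ⟨_, rfl⟩
  obtain ⟨η, hη⟩ : ∃ η, η = σ ^ M1 / σ1 ^ b := ⟨_, rfl⟩
  have hη0 : η ≠ 0 := by
    rw [hη]
    exact div_ne_zero (pow_ne_zero _ hσ) (pow_ne_zero _ hσ1)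
  have hηord : ∀ Q : Place ℂ K, Q.ord η = M1 * Q.ord σ - b * Q.ord σ1 := by
    intro Q
    rw [hη, Q.ord_div (pow_ne_zero _ hσ) (pow_ne_zero _ hσ1), Q.ord_pow, Q.ord_pow]
  -- the orders of the generators
  have key : ∀ Q : Place ℂ K, ∀ g, GenAt y c (M * q) ((M * q) • Δ + M • Hy) Q g →
      ∀ g1, GenAt y c (M1 * 1) ((M1 * 1) • Δ + M1 • Hy) Q g1 → ∀ l, Centred y l Q →
      M1 * Q.ord g + a * Q.ord (y l / y i) = b * Q.ord g1 := by
    intro Q g hg g1 hg1 l hl
    have hli : y l / y i ≠ 0 := div_ne_zero hl.1 hi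
    have hf : g ^ M1 * (y l / y i) ^ a ≠ 0 := mul_ne_zero (pow_ne_zero _ hg.1) (pow_ne_zero _ hli)
    have hf1 : g1 ^ b ≠ 0 := pow_ne_zero _ hg1.1
    have hordf : ∀ Q : Place ℂ K, Q.ord (g ^ M1 * (y l / y i) ^ a) =
        M1 * Q.ord g + a * Q.ord (y l / y i) := by
      intro Q
      rw [Q.ord_mul (pow_ne_zero _ hg.1) (pow_ne_zero _ hli), Q.ord_pow, Q.ord_pow]
    have hordf1 : ∀ Q : Place ℂ K, Q.ord (g1 ^ b) = b * Q.ord g1 := fun Q => Q.ord_pow _ _
    have heq : ∀ P, IsPrimeDivisor y P → Through y P Q →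
        P.ord (g ^ M1 * (y l / y i) ^ a) = P.ord (g1 ^ b) := by
      intro P hP hT
      have e1 := hg.2.2 P hP hT
      have e2 := hg1.2.2 P hP hT
      have e3 := (ord_coord hy hi hHP hP hl.1).2 (hT.centred hl)
      rw [Pi.add_apply, Pi.smul_apply, Pi.smul_apply, nsmul_eq_mul, nsmul_eq_mul] at e1 e2
      rw [hordf, hordf1]
      have haq : (a : ℚ) = M1 * M * (q - 1) := by
        rw [ha]
        push_cast [Nat.cast_sub (by omega : 1 ≤ q)]
        ring
      have hbq : (b : ℚ) = M * q := by rw [hb]; push_cast; ring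
      have e4 : (M1 * P.ord g + a * P.ord (y l / y i) : ℚ) = b * P.ord g1 := by
        rw [← e3, haq, hbq]
        push_cast at e1 e2
        have e5 : (P.ord g : ℚ) = -(M * q * Δ P + M * Hy P) - M * q * c P := by linarith
        have e6 : (M1 : ℚ) * 1 * c P + P.ord g1 = -(M1 * 1 * Δ P + M1 * Hy P) := e2
        have e7 : (P.ord g1 : ℚ) = -(M1 * 1 * Δ P + M1 * Hy P) - M1 * 1 * c P := by linarith
        rw [e5, e7]
        ring
      exact_mod_cast e4
    have i1 := ord_le_of_through hy (Q := Q) hf hf1 fun P hP hT => (heq P hP hT).ge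
    have i2 := ord_le_of_through hy (Q := Q) hf1 hf fun P hP hT => (heq P hP hT).le
    rw [hordf, hordf1] at i1 i2
    omega
  have hM1' : ((M1 - 1 + 1 : ℕ) : ℤ) = M1 := by
    rw [show M1 - 1 + 1 = M1 by omega]
  have ha' : ((a - 1 + 1 : ℕ) : ℤ) = a := by
    rw [show a - 1 + 1 = a by omega]
  have hb' : ((b - 1 + 1 : ℕ) : ℤ) = b := by
    rw [show b - 1 + 1 = b by omega]
  -- the two comparisons
  have c1 : ∀ v ∈ P1.V, DBnd n ℂ (P2.V : Set K) 1 (η * v ^ 1) := by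
    intro v hv Q hQ
    by_cases hv0 : v = 0
    · refine ⟨1, P2.one, one_ne_zero, ?_⟩
      rw [hv0, zero_pow one_ne_zero, mul_zero, Q.ord_one, Q.ord_zero]
      simp
    obtain ⟨g, hg⟩ := h.gen Q hQ
    obtain ⟨g1, hg1⟩ := h1.gen Q hQ
    obtain ⟨l, hl⟩ := exists_centred hy Q
    have e1 := key Q g hg g1 hg1 l hl
    have hmem : g1 / σ1 ∈ B1.V := by
      rw [h1.mem, mul_div_cancel₀ _ hσ1]
      exact hg1.2.1
    refine ⟨(g1 / σ1) ^ b, ?_, pow_ne_zero _ (div_ne_zero hg1.1 hσ1), ?_⟩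
    · have := pw_mem (hS := fin_affS i) (h1 := one_affS hi) hmem (b - 1)
      rw [show b - 1 + 1 = b by omega] at this
      rw [hP2]
      exact this
    · rw [hP1] at hv
      have e2 := mul_ge (pw_ge (h.ge hy hg) (M1 - 1)) (pw_ge (hcls_ge hy hi hl) (a - 1)) v hv
      rw [hM1', ha'] at e2
      have e3 := e2.resolve_left hv0
      rw [Nat.cast_one, one_mul, pow_one, Q.ord_mul hη0 hv0, hηord, Q.ord_pow,
        Q.ord_div hg1.1 hσ1]
      linarith
  have c2 : ∀ v ∈ P2.V, DBnd n ℂ (P1.V : Set K) 1 (η⁻¹ * v ^ 1) := by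
    intro v hv Q hQ
    by_cases hv0 : v = 0
    · refine ⟨1, P1.one, one_ne_zero, ?_⟩
      rw [hv0, zero_pow one_ne_zero, mul_zero, Q.ord_one, Q.ord_zero]
      simp
    obtain ⟨g, hg⟩ := h.gen Q hQ
    obtain ⟨g1, hg1⟩ := h1.gen Q hQ
    obtain ⟨l, hl⟩ := exists_centred hy Q
    have hli : y l / y i ≠ 0 := div_ne_zero hl.1 hi
    have e1 := key Q g hg g1 hg1 l hl
    have hmem : g / σ ∈ B.V := by
      rw [h.mem, mul_div_cancel₀ _ hσ]
      exact hg.2.1
    refine ⟨(g / σ) ^ M1 * (y l / y i) ^ a, ?_,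
      mul_ne_zero (pow_ne_zero _ (div_ne_zero hg.1 hσ)) (pow_ne_zero _ hli), ?_⟩
    · have e2 := pw_mem (hS := fin_affS i) (h1 := one_affS hi) hmem (M1 - 1)
      have e3 := pw_mem (hS := fin_affS i) (h1 := one_affS hi) (V := hcls hy hi)
        (v := y l / y i) (Submodule.subset_span ⟨l, rfl⟩) (a - 1)
      rw [show M1 - 1 + 1 = M1 by omega] at e2
      rw [show a - 1 + 1 = a by omega] at e3
      rw [hP1]
      exact Submodule.mul_mem_mul e2 e3
    · rw [hP2] at hv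
      have e2 := pw_ge (h1.ge hy hg1) (b - 1) v hv
      rw [hb'] at e2
      have e3 := e2.resolve_left hv0
      rw [Nat.cast_one, one_mul, pow_one, Q.ord_mul (inv_ne_zero hη0) hv0, Q.ord_inv, hηord,
        Q.ord_mul (pow_ne_zero _ (div_ne_zero hg.1 hσ)) (pow_ne_zero _ hli), Q.ord_pow, Q.ord_pow,
        Q.ord_div hg.1 hσ]
      linarith
  have d1 := I_rat_emap hy hn hi φ (V := P1) (B := P2) (p := 1) (q := 1) le_rfl hη0 c1 hs
  have d2 := I_rat_emap hy hn hi φ (V := P2) (B := P1) (p := 1) (q := 1) le_rfl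
    (inv_ne_zero hη0) c2 hs
  have d3 : I (eCls hy hn hi φ P1 ::ₘ s) = I (eCls hy hn hi φ P2 ::ₘ s) := by omega
  rw [hP1, hP2, eCls_mul, eCls_pw, eCls_pw, eCls_pw, I_mulCls cx hs, I_pw cx _ hs, I_pw cx _ hs,
    I_pw cx _ hs, show M1 - 1 + 1 = M1 by omega, show a - 1 + 1 = a by omega,
    show b - 1 + 1 = b by omega] at d3
  rw [← ha, ← hb]
  exact d3

/-- several functions are replaced -/
theorem repl_many {S : Set K} (hn : Algebra.trdeg ℂ K = n) {B : Cls ℂ S} {p q : ℕ}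
    (hp : 1 ≤ p) {h : K} (hh : h ≠ 0) (h1 : DBnd n ℂ (B.V : Set K) q (h * 1 ^ p))
    (W : Multiset K) : ∀ U : Multiset K, (W + U).card = n →
    (∀ w ∈ W, DBnd n ℂ (B.V : Set K) q (h * w ^ p)) → ∃ W', Sel W' (Multiset.replicate W.card B) ∧
      p ^ W.card * dm ℂ (W + U) ≤ q ^ W.card * dm ℂ (W' + U) := by
  induction W using Multiset.induction_on with
  | empty =>
    intro U _ _
    exact ⟨0, Multiset.Rel.zero, by simp⟩
  | cons w W ih =>
    intro U hWU hw
    rw [Multiset.cons_add, Multiset.card_cons] at hWU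
    have e1 := dm_pow hn (z := w) hWU hp
    obtain ⟨v, hv, hle⟩ := repl_inf hn (S := (B.V : Set K)) B.one (B := q) (f₀ := h * 1 ^ p)
      (f₁ := h * w ^ p) (by rwa [one_pow, mul_one]) h1 (hw w (Multiset.mem_cons_self _ _)) hWU
    rw [mul_div_mul_left _ _ hh, one_pow, div_one] at hle
    rw [Submodule.span_eq] at hv
    obtain ⟨W', hW', hle'⟩ := ih (v ::ₘ U) (by rw [Multiset.add_cons, Multiset.card_cons]; exact hWU)
      fun w' hw' => hw w' (Multiset.mem_cons_of_mem hw')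
    rw [Multiset.add_cons, Multiset.add_cons] at hle'
    refine ⟨v ::ₘ W', ?_, ?_⟩
    · rw [Multiset.card_cons, Multiset.replicate_succ]
      exact sel_cons hv hW'
    · rw [Multiset.cons_add, Multiset.cons_add, Multiset.card_cons, pow_succ, pow_succ]
      calc p ^ W.card * p * dm ℂ (w ::ₘ (W + U)) = p ^ W.card * (p * dm ℂ (w ::ₘ (W + U))) := by
            ring
        _ ≤ p ^ W.card * (q * dm ℂ (v ::ₘ (W + U))) :=
          Nat.mul_le_mul_left _ (e1.trans hle)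
        _ = q * (p ^ W.card * dm ℂ (v ::ₘ (W + U))) := by ring
        _ ≤ q * (q ^ W.card * dm ℂ (v ::ₘ (W' + U))) := Nat.mul_le_mul_left _ hle'
        _ = q ^ W.card * q * dm ℂ (v ::ₘ (W' + U)) := by ring

/-- **The lower bound from the numerical dimension.** -/
theorem base_pos (hy : NormalModel y) (hn : Algebra.trdeg ℂ K = n) {i : Fin (N + 1)}
    (hi : y i ≠ 0) {x : Fin n → K} {E : Fin n → Derivation ℂ K K}
    (hfr : IsFrame E) {c : Place ℂ K → ℤ} (hc : IsDisc y E c) {Δ Hy : Place ℂ K → ℚ}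
    (hHy : Effective y Hy)
    (hHP : ∀ P l, IsPrimeDivisor y P → Centred y l P → Hy P = P.ord (y i / y l)) {ν : ℕ}
    (hν : ν ≤ n) (hnum : ¬ NumDimLt y n Δ ν) : ∃ ε : ℝ, 0 < ε ∧ ∀ (q M : ℕ) (σ : K)
      (B : Cls ℂ (affS y i)), 1 ≤ q → NefSys y i n c Δ Hy q M σ B →
      ε * (M * q : ℕ) ^ ν ≤ I (Multiset.replicate ν B + Multiset.replicate (n - ν)
        (hcls hy hi)) := by
  classical
  have cx := ctx hy hn hi
  unfold NumDimLt at hnum
  push Not at hnum
  obtain ⟨A0, hA0, ε, hε, hseq⟩ := hnum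
  obtain ⟨f, s, hf, hfs⟩ := dominate hy hA0 hi hHy hHP
  refine ⟨ε, hε, fun q M σ B hq h => ?_⟩
  have hM := h.hM
  have hσ := h.hσ
  have hq0 : (0 : ℝ) < q := by exact_mod_cast hq
  obtain ⟨m, b, hm, hb, u, hu, ω, E', hω, hω0, hlt⟩ := hseq (1 / (q * (s + 1)))
    (by positivity) 1
  have hbm : q * b * s ≤ m := by
    have h1 : (b : ℝ) * (q * (s + 1)) ≤ m := by
      have h2 : (1 / ((q : ℝ) * (s + 1))) * m = m / (q * (s + 1)) := by ring
      rw [h2, le_div_iff₀ (by positivity)] at hb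
      exact hb
    have h3 : (q * b * s : ℝ) ≤ m := by
      have h4 : (0 : ℝ) ≤ b := Nat.cast_nonneg _
      nlinarith [mul_nonneg h4 hq0.le]
    exact_mod_cast h3
  -- functions
  obtain ⟨g, hg⟩ : ∃ g : Fin (ν + 1) → K, g = fun j => ω j E := ⟨_, rfl⟩
  have hgm : ∀ j, g j ∈ Lsp y c m (m • Δ + b • A0) := fun j => by
    rw [hg]
    exact (isSection_iff hc (hω j).1).1 (hω j)
  have hg0 : g 0 ≠ 0 := by
    rw [hg]
    exact (ratio_frame hfr (hω 0).1 (hω 0).1 hω0).1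
  have e1 : (fun j : Fin ν => ω j.succ E' / ω 0 E') = fun j : Fin ν => g j.succ / g 0 := by
    funext j
    rw [hg]
    exact (ratio_frame hfr (hω 0).1 (hω j.succ).1 hω0).2
  rw [e1] at hlt
  obtain ⟨k, hk⟩ : ∃ k, k = M * q := ⟨_, rfl⟩
  have hk1 : 1 ≤ k := by rw [hk]; exact Nat.mul_pos hM hq
  obtain ⟨h', hh'⟩ : ∃ h', h' = (f ^ b * g 0) ^ k / σ ^ m := ⟨_, rfl⟩
  have hfg0 : f ^ b * g 0 ≠ 0 := mul_ne_zero (pow_ne_zero _ hf) hg0
  have hh0 : h' ≠ 0 := by
    rw [hh']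
    exact div_ne_zero (pow_ne_zero _ hfg0) (pow_ne_zero _ hσ)
  have hdb : ∀ j, DBnd n ℂ (B.V : Set K) m (h' * (g j / g 0) ^ k) := by
    intro j Q hQ
    by_cases hj : g j = 0
    · refine ⟨1, B.one, one_ne_zero, ?_⟩
      rw [hj, zero_div, zero_pow (by omega), mul_zero, Q.ord_one, Q.ord_zero]
      simp
    obtain ⟨g', hg'⟩ := h.gen Q hQ
    have hmem : g' / σ ∈ B.V := by
      rw [h.mem, mul_div_cancel₀ _ hσ]
      exact hg'.2.1
    refine ⟨g' / σ, hmem, div_ne_zero hg'.1 hσ, ?_⟩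
    have e2 : h' * (g j / g 0) ^ k = (f ^ b * g j) ^ k / σ ^ m := by
      rw [hh', div_mul_eq_mul_div, ← mul_pow]
      congr 2
      field_simp
    have hfj : f ^ b * g j ≠ 0 := mul_ne_zero (pow_ne_zero _ hf) hj
    have i1 := ord_le_of_through hy (Q := Q) (f := (f ^ b * g j) ^ k) (g := g' ^ m)
      (pow_ne_zero _ hfj) (pow_ne_zero _ hg'.1) fun P hP hT => by
        have i1 := hg'.2.2 P hP hT
        have i2 := (hgm j P hP).resolve_left hj
        have i3 := hfs P hP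
        have i4 := hHy.1 P hP
        rw [Pi.add_apply, Pi.smul_apply, Pi.smul_apply, nsmul_eq_mul, nsmul_eq_mul] at i1 i2
        rw [P.ord_pow, P.ord_pow, P.ord_mul (pow_ne_zero _ hf) hj, P.ord_pow]
        have hb0 : (0 : ℚ) ≤ b := Nat.cast_nonneg _
        have hk0 : (0 : ℚ) ≤ k := Nat.cast_nonneg _
        have hm0 : (0 : ℚ) ≤ m := Nat.cast_nonneg _
        have hM0 : (0 : ℚ) ≤ M := Nat.cast_nonneg _
        have hkq : (k : ℚ) = M * q := by rw [hk]; push_cast; ring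
        have i5 : (P.ord g' : ℚ) = -(M * q * Δ P + M * Hy P) - M * q * c P := by
          push_cast at i1
          linarith
        have i6 := mul_le_mul_of_nonneg_left i3 hb0
        have i7 : -(m * Δ P) - b * s * Hy P - m * c P ≤ (b * P.ord f + P.ord (g j) : ℚ) := by
          linarith
        have i8 := mul_le_mul_of_nonneg_left i7 hk0
        have i9 : (q * b * s : ℚ) ≤ m := by exact_mod_cast hbm
        have i10 := mul_le_mul_of_nonneg_right i9 (mul_nonneg hM0 i4)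
        have i11 : (m * P.ord g' : ℚ) ≤ k * (b * P.ord f + P.ord (g j)) := by
          refine le_trans ?_ i8
          rw [i5, hkq]
          nlinarith
        exact_mod_cast i11
    rw [e2, Q.ord_div (pow_ne_zero _ hfj) (pow_ne_zero _ hσ), Q.ord_pow σ, Q.ord_div hg'.1 hσ]
    rw [Q.ord_pow g'] at i1
    linarith
  obtain ⟨W', hW', hle⟩ := repl_many hn (B := B) hk1 hh0 (by
      have := hdb 0
      rwa [div_self hg0] at this) (toM fun j : Fin ν => g j.succ / g 0) (toM u)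
    (by rw [Multiset.card_add, toM_card, toM_card]; omega) (fun w hw => by
      obtain ⟨j, rfl⟩ := mem_toM.1 hw
      exact hdb j.succ)
  rw [toM_card] at hW' hle
  have hW'c : W'.card = ν := by rw [hW'.card, Multiset.card_replicate]
  obtain ⟨Q', hQ', hle'⟩ := replace_pencils' hy hn hi (toM u) W'
    (by rw [Multiset.card_add, toM_card, hW'c]; omega) (fun z hz => by
      obtain ⟨j, rfl⟩ := mem_toM.1 hz
      exact hu j)
  rw [toM_card] at hQ'
  have hcard : (Multiset.replicate ν B + Multiset.replicate (n - ν) (hcls hy hi)).card = n := by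
    rw [Multiset.card_add, Multiset.card_replicate, Multiset.card_replicate]
    omega
  have hle2 := le_I cx hcard (sel_add hW' hQ')
  have e3 : degreeOver u (fun j : Fin ν => g j.succ / g 0) =
      dm ℂ ((toM fun j : Fin ν => g j.succ / g 0) + toM u) :=
    (deg_dm (toM_set _) (toM_set _)).trans (congrArg (dm ℂ) (add_comm _ _))
  rw [e3] at hlt
  rw [add_comm W' Q'] at hle2
  rw [add_comm W' (toM u)] at hle
  have e4 : k ^ ν * dm ℂ ((toM fun j : Fin ν => g j.succ / g 0) + toM u) ≤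
      m ^ ν * I (Multiset.replicate ν B + Multiset.replicate (n - ν) (hcls hy hi)) :=
    hle.trans (Nat.mul_le_mul_left _ (hle'.trans hle2))
  have e5 : ((k : ℝ) ^ ν * dm ℂ ((toM fun j : Fin ν => g j.succ / g 0) + toM u)) ≤
      m ^ ν * I (Multiset.replicate ν B + Multiset.replicate (n - ν) (hcls hy hi)) := by
    exact_mod_cast e4
  have hm0 : (0 : ℝ) < m := by
    have : 0 < m := by omega
    exact_mod_cast this
  rw [← hk]
  have hk0 : (0 : ℝ) < k := by exact_mod_cast (by omega : 0 < k)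
  have e6 : (m : ℝ) ^ ν * (ε * k ^ ν) ≤ (m : ℝ) ^ ν *
      I (Multiset.replicate ν B + Multiset.replicate (n - ν) (hcls hy hi)) := by
    calc (m : ℝ) ^ ν * (ε * k ^ ν) = k ^ ν * (ε * m ^ ν) := by ring
      _ ≤ k ^ ν * dm ℂ ((toM fun j : Fin ν => g j.succ / g 0) + toM u) :=
        mul_le_mul_of_nonneg_left hlt.le (by positivity)
      _ ≤ _ := e5
  exact le_of_mul_le_mul_left e6 (by positivity)

end

end Pool.Agent.N110
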