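import Pool.Agent.N110.Grow

/-!
The main inequality for the growth of mixed products.
-/

set_option autoImplicit false

open Multiset Filter Topology

namespace Pool.Agent.N110

variable {α : Type*}

namespace Data

variable {n : ℕ} {t : Multiset α → ℝ} {f : Equiv.Perm α} {H : α} {m : ℕ → ℝ}
  {M : ℕ → ℕ → α} {D : ℕ → ℕ → ℕ → α} {ν : ℕ} {c β ε : ℝ}

/-- the lower bound for the powers of `D` -/
theorem low (h : Data n t f H m M D ν c β ε) {i l r q v : ℕ} (hi : i ≤ ν) (hlr : l ≤ r)
    (hv : 0 < v) : (v : ℝ) ^ (n - ν) * (ε * m q ^ ν) ≤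
      t (replicate (n - i) ((f ^ l : Equiv.Perm α) (D r q v)) + replicate i (M r q)) := by
  have hν := h.hν
  have hv' : (0 : ℝ) < v := by exact_mod_cast hv
  have hHD : Le n t (1 / v) H (D r q v) := by
    intro s hs
    have h1 := h.D_H r q v hv s hs
    rw [one_div, inv_mul_eq_div, le_div_iff₀ hv']
    linarith
  have h1 := hHD.rep (by positivity) (n - ν) (replicate ν (M 0 q))
    (by rw [card_replicate]; omega)
  have hMD : Le n t 1 (M 0 q) (D r q v) := by
    have := (h.mono' (Nat.zero_le r) q).trans zero_le_one (h.D_M r q v hv)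
    rwa [one_mul] at this
  have h2 := hMD.rep zero_le_one (ν - i) (replicate (n - ν) (D r q v) + replicate i (M 0 q))
    (by rw [card_add, card_replicate, card_replicate]; omega)
  have h3 := (h.f_pow l 0 q).rep zero_le_one i
    (replicate (n - i) ((f ^ l : Equiv.Perm α) (D r q v))) (by rw [card_replicate]; omega)
  have h4 := (h.mono' (r := 0 + l) (r' := r) (by omega) q).rep zero_le_one i
    (replicate (n - i) ((f ^ l : Equiv.Perm α) (D r q v))) (by rw [card_replicate]; omega)
  have h5 := h.inv_pow l (replicate (n - i) (D r q v) + replicate i (M 0 q))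
    (by rw [card_add, card_replicate, card_replicate]; omega)
  have h0 := h.eps q
  have e1 : replicate ν (M 0 q) + replicate (n - ν) H = replicate (n - ν) H +
      replicate ν (M 0 q) := add_comm _ _
  have e2 : replicate (n - ν) (D r q v) + replicate ν (M 0 q) = replicate (ν - i) (M 0 q) +
      (replicate (n - ν) (D r q v) + replicate i (M 0 q)) := by
    rw [add_left_comm, ← replicate_add]
    congr 2
    omega
  have e3 : replicate (ν - i) (D r q v) +
      (replicate (n - ν) (D r q v) + replicate i (M 0 q)) =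
      replicate (n - i) (D r q v) + replicate i (M 0 q) := by
    rw [← add_assoc, ← replicate_add]
    congr 2
    omega
  have e4 : (replicate (n - i) (D r q v) + replicate i (M 0 q)).map (f ^ l : Equiv.Perm α) =
      replicate i ((f ^ l : Equiv.Perm α) (M 0 q)) +
        replicate (n - i) ((f ^ l : Equiv.Perm α) (D r q v)) := by
    rw [Multiset.map_add, map_replicate, map_replicate, add_comm]
  rw [e1] at h0
  rw [e2] at h1
  rw [e3, one_pow, one_mul] at h2
  rw [e4] at h5
  rw [one_pow, one_mul] at h3 h4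
  have h6 : (1 / (v : ℝ)) ^ (n - ν) = 1 / (v : ℝ) ^ (n - ν) := by rw [one_div_pow]
  rw [h6, one_div, inv_mul_eq_div, le_div_iff₀ (by positivity)] at h1
  have e5 : replicate (n - i) ((f ^ l : Equiv.Perm α) (D r q v)) + replicate i (M r q) =
      replicate i (M r q) + replicate (n - i) ((f ^ l : Equiv.Perm α) (D r q v)) :=
    add_comm _ _
  rw [e5]
  calc (v : ℝ) ^ (n - ν) * (ε * m q ^ ν)
      ≤ (v : ℝ) ^ (n - ν) * t (replicate (n - ν) H + replicate ν (M 0 q)) :=
        mul_le_mul_of_nonneg_left h0 (by positivity)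
    _ = t (replicate (n - ν) H + replicate ν (M 0 q)) * (v : ℝ) ^ (n - ν) := mul_comm _ _
    _ ≤ _ := h1
    _ ≤ _ := h2
    _ = _ := h5.symm
    _ ≤ _ := h3
    _ ≤ _ := h4

/-- **The main inequality.** -/
theorem step (h : Data n t f H m M D ν c β ε) {i l k : ℕ} (hi : i < ν) {bl bk gl gk z : ℝ}
    (hz : 1 ≤ z) (hbl : 0 < bl) (hbk : 0 < bk) (hgl : 0 < gl) (hgk : 0 < gk)
    (Hbl : ∀ p, i + p ≤ n → Bd n t f H m M l i p bl)
    (Hbk : ∀ p, i + p ≤ n → Bd n t f H m M k i p bk)
    (Hgl : ∀ i' p, i < i' → i' ≤ ν → i' + p ≤ n → Bd n t f H m M l i' p gl)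
    (Hgk : ∀ i' p, i < i' → i' ≤ ν → i' + p ≤ n → Bd n t f H m M k i' p gk)
    (p : ℕ) (hp : i + p ≤ n) :
    Bd n t f H m M (l + k) i p
      (4 ^ (n * n + n) / ε * ((bk + z * gk) * (bl + z * gl) / z)) := by
  classical
  have hν := h.hν
  have hε := h.hε
  have hz0 : 0 < z := by linarith
  obtain ⟨x, hx1, hxz⟩ : ∃ x : ℝ, 1 ≤ x ∧ x ^ (ν - i) = z := by
    refine ⟨z ^ (((ν - i : ℕ) : ℝ)⁻¹), Real.one_le_rpow hz (by positivity), ?_⟩
    exact Real.rpow_inv_natCast_pow hz0.le (by omega)
  have hx0 : 0 < x := by linarith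
  have hgen : ∀ (j : ℕ) (b g : ℝ), 0 < b → 0 < g →
      (∀ p, i + p ≤ n → Bd n t f H m M j i p b) →
      (∀ i' p, i < i' → i' ≤ ν → i' + p ≤ n → Bd n t f H m M j i' p g) →
      ∀ a p, i + a + p ≤ n → Bd n t f H m M j (i + a) p ((b + z * g) / x ^ a) := by
    intro j b g hb hg H1 H2 a p hap
    rcases Nat.eq_zero_or_pos a with rfl | ha
    · refine h.bd_mono (H1 p (by omega)) ?_
      rw [pow_zero, div_one]
      have := mul_pos hz0 hg
      linarith
    · by_cases hia : i + a ≤ ν
      · refine h.bd_mono (H2 (i + a) p (by omega) hia hap) ?_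
        rw [le_div_iff₀ (by positivity)]
        have h1 : x ^ a ≤ z := by
          rw [← hxz]
          exact pow_le_pow_right₀ hx1 (by omega)
        have h2 := mul_le_mul_of_nonneg_left h1 hg.le
        linarith
      · exact h.bd_zero hap (by omega) (by positivity)
  intro r
  obtain ⟨R, hR⟩ : ∃ R, R = r + l := ⟨_, rfl⟩
  obtain ⟨g, hg⟩ : ∃ g, g = n - i - p := ⟨_, rfl⟩
  obtain ⟨S1, hS1⟩ : ∃ S1, S1 = bk + z * gk := ⟨_, rfl⟩
  obtain ⟨S2, hS2⟩ : ∃ S2, S2 = bl + z * gl := ⟨_, rfl⟩
  have hS1p : 0 < S1 := by rw [hS1]; positivity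
  have hS2p : 0 < S2 := by rw [hS2]; positivity
  have ev1 : ∀ᶠ q in atTop, ∀ a ∈ Finset.range (g + 1),
      t (replicate (i + a) (M (R + l) q) + (replicate p ((f ^ k : Equiv.Perm α) H) +
        replicate (n - (i + a) - p) H)) ≤ S1 / x ^ a * m q ^ (i + a) := by
    rw [Filter.eventually_all_finset]
    intro a ha
    rw [Finset.mem_range] at ha
    rw [hS1]
    exact hgen k bk gk hbk hgk Hbk Hgk a p (by omega) (R + l)
  have ev2 : ∀ᶠ q in atTop, ∀ a ∈ Finset.range (p + 1),
      t (replicate (i + a) (M (R + l) q) + (replicate (p - a) ((f ^ l : Equiv.Perm α) H) +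
        replicate (n - (i + a) - (p - a)) H)) ≤ S2 / x ^ a * m q ^ (i + a) := by
    rw [Filter.eventually_all_finset]
    intro a ha
    rw [Finset.mem_range] at ha
    rw [hS2]
    exact hgen l bl gl hbl hgl Hbl Hgl a (p - a) (by omega) (R + l)
  have ev3 : ∀ᶠ q in atTop, x ≤ m q := h.m_tend.eventually_ge_atTop x
  filter_upwards [ev1, ev2, ev3] with q h1 h2 h3
  have hm := h.m_pos q
  obtain ⟨mq, hmq⟩ : ∃ mq, mq = m q := ⟨_, rfl⟩
  rw [← hmq] at h1 h2 h3 hm ⊢
  obtain ⟨v, hv⟩ : ∃ v : ℕ, v = ⌈mq / x⌉₊ := ⟨_, rfl⟩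
  have hmx : 1 ≤ mq / x := by rwa [le_div_iff₀ hx0, one_mul]
  have hv1 : mq / x ≤ v := by rw [hv]; exact Nat.le_ceil _
  have hv2 : (v : ℝ) ≤ 2 * (mq / x) := by
    have := Nat.ceil_lt_add_one (show 0 ≤ mq / x by positivity)
    rw [← hv] at this
    linarith
  have hvp : (0 : ℝ) < v := by linarith
  have hvn : 0 < v := by exact_mod_cast hvp
  obtain ⟨D0, hD0⟩ : ∃ D0, D0 = D R q v := ⟨_, rfl⟩
  obtain ⟨F, hF⟩ : ∃ F : Equiv.Perm α, F = f ^ l := ⟨_, rfl⟩
  -- lower bound
  have hlow := h.low (i := i) (l := l) (r := R) (q := q) (v := v) hi.le (by omega) hvn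
  rw [← hD0, ← hF, ← hmq] at hlow
  -- the reverse inequality
  have hrkt := rkt h.pos h.ex (F D0) (replicate p ((f ^ (l + k) : Equiv.Perm α) H))
    (replicate g H) (replicate i (M R q)) (by simp only [card_replicate]; omega)
  simp only [card_replicate] at hrkt
  have epg : p + g = n - i := by omega
  rw [epg] at hrkt
  -- the first factor
  have f1 : t (replicate p ((f ^ (l + k) : Equiv.Perm α) H) + (replicate g (F D0) +
      replicate i (M R q))) ≤ 2 ^ g * (2 ^ g * (mq / x) ^ g * mq ^ i * S1) := by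
    have a1 := (h.f_pow_inv l R q).rep zero_le_one i
      (replicate p ((f ^ (l + k) : Equiv.Perm α) H) + replicate g (F D0))
      (by simp only [card_add, card_replicate]; omega)
    rw [one_pow, one_mul, ← hF] at a1
    have a2 := h.inv_pow l (replicate i (M (R + l) q) +
      (replicate p ((f ^ k : Equiv.Perm α) H) + replicate g D0))
      (by simp only [card_add, card_replicate]; omega)
    rw [Multiset.map_add, Multiset.map_add, map_replicate, map_replicate, map_replicate,
      ← hF] at a2
    have e1 : F ((f ^ k : Equiv.Perm α) H) = (f ^ (l + k) : Equiv.Perm α) H := by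
      rw [hF, pow_add]
      rfl
    rw [e1] at a2
    have e2 : replicate p ((f ^ (l + k) : Equiv.Perm α) H) + (replicate g (F D0) +
        replicate i (M R q)) = replicate i (M R q) +
        (replicate p ((f ^ (l + k) : Equiv.Perm α) H) + replicate g (F D0)) := by
      rw [← add_assoc, add_comm]
    rw [e2]
    refine a1.trans ?_
    rw [a2]
    have e3 : replicate i (M (R + l) q) +
      (replicate p ((f ^ k : Equiv.Perm α) H) + replicate g D0) =
      replicate g D0 + (replicate i (M (R + l) q) + replicate p ((f ^ k : Equiv.Perm α) H)) := by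
      rw [← add_assoc, add_comm]
    rw [e3, hD0]
    refine expand hvp (h.D_add R q v hvn) g _ _ (by simp only [card_add, card_replicate]; omega) ?_
    intro a ha
    have b1 := (h.mono R l q).rep zero_le_one a (replicate (g - a) H +
      (replicate i (M (R + l) q) + replicate p ((f ^ k : Equiv.Perm α) H)))
      (by simp only [card_add, card_replicate]; omega)
    rw [one_pow, one_mul] at b1
    have e4 : replicate a (M (R + l) q) + (replicate (g - a) H +
        (replicate i (M (R + l) q) + replicate p ((f ^ k : Equiv.Perm α) H))) =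
        replicate (i + a) (M (R + l) q) + (replicate p ((f ^ k : Equiv.Perm α) H) +
          replicate (n - (i + a) - p) H) := by
      have e5 : n - (i + a) - p = g - a := by omega
      rw [e5, replicate_add]
      abel
    rw [e4] at b1
    have b2 := b1.trans (h1 a (Finset.mem_range.2 (by omega)))
    have b3 : (v : ℝ) ^ (g - a) ≤ (2 * (mq / x)) ^ (g - a) :=
      pow_le_pow_left₀ hvp.le hv2 _
    have b4 : (v : ℝ) ^ (g - a) * t (replicate a (M R q) + (replicate (g - a) H +
        (replicate i (M (R + l) q) + replicate p ((f ^ k : Equiv.Perm α) H)))) ≤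
        (2 * (mq / x)) ^ (g - a) * (S1 / x ^ a * mq ^ (i + a)) := by
      refine mul_le_mul b3 b2 ?_ (by positivity)
      exact (h.pos _ (by simp only [card_add, card_replicate]; omega)).le
    refine b4.trans ?_
    have b5 : (2 * (mq / x)) ^ (g - a) * (S1 / x ^ a * mq ^ (i + a)) =
        2 ^ (g - a) * ((mq / x) ^ g * mq ^ i * S1) := by
      have b6 : (mq / x) ^ g = (mq / x) ^ (g - a) * (mq ^ a / x ^ a) := by
        rw [← div_pow, ← pow_add]
        congr 1
        omega
      rw [b6, mul_pow, pow_add]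
      field_simp
    rw [b5]
    have b7 : (2 : ℝ) ^ (g - a) ≤ 2 ^ g := pow_le_pow_right₀ (by norm_num) (by omega)
    have b8 := mul_le_mul_of_nonneg_right b7
      (show 0 ≤ (mq / x) ^ g * mq ^ i * S1 by positivity)
    linarith
  -- the second factor
  have f2 : t (replicate g H + (replicate p (F D0) + replicate i (M R q))) ≤
      2 ^ p * (2 ^ p * (mq / x) ^ p * mq ^ i * S2) := by
    have e3 : replicate g H + (replicate p (F D0) + replicate i (M R q)) =
        replicate p (F D0) + (replicate g H + replicate i (M R q)) := by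
      rw [add_left_comm]
    rw [e3]
    have hadd : ∀ s : Multiset α, s.card + 1 = n →
        t (F D0 ::ₘ s) ≤ t (F (M R q) ::ₘ s) + v * t (F H ::ₘ s) := by
      intro s hs
      obtain ⟨s', hs'⟩ : ∃ s', s' = s.map (F⁻¹ : Equiv.Perm α) := ⟨_, rfl⟩
      have e1 : s = s'.map F := by
        rw [hs', Multiset.map_map]
        have e2 : (F : α → α) ∘ ((F⁻¹ : Equiv.Perm α) : α → α) = id := by
          funext x
          simp
        rw [e2, Multiset.map_id]
      have hc' : s'.card + 1 = n := by rw [hs', card_map]; exact hs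
      have hD := h.D_add R q v hvn s' hc'
      rw [← hD0] at hD
      have i1 := h.inv_pow l (D0 ::ₘ s') (by rw [card_cons]; exact hc')
      have i2 := h.inv_pow l (M R q ::ₘ s') (by rw [card_cons]; exact hc')
      have i3 := h.inv_pow l (H ::ₘ s') (by rw [card_cons]; exact hc')
      rw [← hF, map_cons, ← e1] at i1 i2 i3
      rw [i1, i2, i3]
      exact hD
    refine expand hvp hadd p _ _ (by simp only [card_add, card_replicate]; omega) ?_
    intro a ha
    have b1 := (h.f_pow l R q).rep zero_le_one a (replicate (p - a) (F H) +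
      (replicate g H + replicate i (M R q)))
      (by simp only [card_add, card_replicate]; omega)
    have b1' := (h.mono R l q).rep zero_le_one i (replicate a (M (R + l) q) +
      (replicate (p - a) (F H) + replicate g H))
      (by simp only [card_add, card_replicate]; omega)
    rw [one_pow, one_mul] at b1 b1'
    rw [← hF] at b1
    have e4 : replicate a (M (R + l) q) + (replicate (p - a) (F H) +
        (replicate g H + replicate i (M R q))) =
        replicate i (M R q) + (replicate a (M (R + l) q) +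
      (replicate (p - a) (F H) + replicate g H)) := by abel
    have e5 : replicate i (M (R + l) q) + (replicate a (M (R + l) q) +
      (replicate (p - a) (F H) + replicate g H)) = replicate (i + a) (M (R + l) q) +
        (replicate (p - a) ((f ^ l : Equiv.Perm α) H) +
        replicate (n - (i + a) - (p - a)) H) := by
      have e6 : n - (i + a) - (p - a) = g := by omega
      rw [e6, replicate_add, hF]
      abel
    rw [e4] at b1
    rw [e5] at b1'
    have b2 := (b1.trans b1').trans (h2 a (Finset.mem_range.2 (by omega)))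
    have b3 : (v : ℝ) ^ (p - a) ≤ (2 * (mq / x)) ^ (p - a) :=
      pow_le_pow_left₀ hvp.le hv2 _
    have b4 : (v : ℝ) ^ (p - a) * t (replicate a (F (M R q)) + (replicate (p - a) (F H) +
        (replicate g H + replicate i (M R q)))) ≤
        (2 * (mq / x)) ^ (p - a) * (S2 / x ^ a * mq ^ (i + a)) := by
      refine mul_le_mul b3 b2 ?_ (by positivity)
      exact (h.pos _ (by simp only [card_add, card_replicate]; omega)).le
    refine b4.trans ?_
    have b5 : (2 * (mq / x)) ^ (p - a) * (S2 / x ^ a * mq ^ (i + a)) =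
        2 ^ (p - a) * ((mq / x) ^ p * mq ^ i * S2) := by
      have b6 : (mq / x) ^ p = (mq / x) ^ (p - a) * (mq ^ a / x ^ a) := by
        rw [← div_pow, ← pow_add]
        congr 1
        omega
      rw [b6, mul_pow, pow_add]
      field_simp
    rw [b5]
    have b7 : (2 : ℝ) ^ (p - a) ≤ 2 ^ p := pow_le_pow_right₀ (by norm_num) (by omega)
    have b8 := mul_le_mul_of_nonneg_right b7
      (show 0 ≤ (mq / x) ^ p * mq ^ i * S2 by positivity)
    linarith
  -- conclusion
  obtain ⟨T, hT⟩ : ∃ T, T = t (replicate p ((f ^ (l + k) : Equiv.Perm α) H) + (replicate g H +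
      replicate i (M R q))) := ⟨_, rfl⟩
  have hTp : 0 < T := by
    rw [hT]
    exact h.pos _ (by simp only [card_add, card_replicate]; omega)
  rw [← hT] at hrkt
  have hfin : t (replicate i (M r q) + (replicate p ((f ^ (l + k) : Equiv.Perm α) H) +
      replicate (n - i - p) H)) ≤ T := by
    have b1 := (h.mono' (r := r) (r' := R) (by omega) q).rep zero_le_one i
      (replicate p ((f ^ (l + k) : Equiv.Perm α) H) + replicate g H)
      (by simp only [card_add, card_replicate]; omega)
    rw [one_pow, one_mul] at b1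
    have e1 : replicate i (M R q) + (replicate p ((f ^ (l + k) : Equiv.Perm α) H) +
        replicate g H) = replicate p ((f ^ (l + k) : Equiv.Perm α) H) + (replicate g H +
        replicate i (M R q)) := by abel
    rw [e1, ← hT] at b1
    rwa [← hg]
  refine hfin.trans ?_
  have c1 : T * ((v : ℝ) ^ (n - ν) * (ε * mq ^ ν)) ≤ 4 ^ (n * g) *
      ((2 ^ g * (2 ^ g * (mq / x) ^ g * mq ^ i * S1)) *
        (2 ^ p * (2 ^ p * (mq / x) ^ p * mq ^ i * S2))) := by
    refine (mul_le_mul_of_nonneg_left hlow hTp.le).trans (hrkt.trans ?_)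
    refine mul_le_mul_of_nonneg_left ?_ (by positivity)
    refine mul_le_mul f1 f2 ?_ (by positivity)
    exact (h.pos _ (by simp only [card_add, card_replicate]; omega)).le
  have c2 : T * ((mq / x) ^ (n - ν) * (ε * mq ^ ν)) ≤ T * ((v : ℝ) ^ (n - ν) * (ε * mq ^ ν)) := by
    have := pow_le_pow_left₀ (show 0 ≤ mq / x by positivity) hv1 (n - ν)
    gcongr
  have c3 : (4 : ℝ) ^ (n * g) * ((2 ^ g * (2 ^ g * (mq / x) ^ g * mq ^ i * S1)) *
        (2 ^ p * (2 ^ p * (mq / x) ^ p * mq ^ i * S2))) ≤
      4 ^ (n * n + n) * ((mq / x) ^ (n - i) * mq ^ (i + i) * (S1 * S2)) := by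
    have d1 : (4 : ℝ) ^ (n * g) * ((2 ^ g * (2 ^ g * (mq / x) ^ g * mq ^ i * S1)) *
        (2 ^ p * (2 ^ p * (mq / x) ^ p * mq ^ i * S2))) =
        4 ^ (n * g + (g + p)) * ((mq / x) ^ (n - i) * mq ^ (i + i) * (S1 * S2)) := by
      have d2 : (4 : ℝ) ^ (n * g + (g + p)) = 4 ^ (n * g) * ((2 ^ g * 2 ^ g) * (2 ^ p * 2 ^ p)) := by
        rw [pow_add, pow_add, ← mul_pow, ← mul_pow]
        norm_num
      have d3 : (mq / x) ^ (n - i) = (mq / x) ^ g * (mq / x) ^ p := by
        rw [← pow_add]
        congr 1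
        omega
      rw [d2, d3, pow_add mq i i]
      ring
    rw [d1]
    refine mul_le_mul_of_nonneg_right (pow_le_pow_right₀ (by norm_num) ?_) (by positivity)
    have : n * g ≤ n * n := Nat.mul_le_mul_left _ (by omega)
    omega
  have c4 := c2.trans (c1.trans c3)
  -- division
  have e1 : (mq / x) ^ (n - i) = (mq / x) ^ (n - ν) * (mq ^ (ν - i) / z) := by
    rw [← hxz, ← div_pow, ← pow_add]
    congr 1
    omega
  have e2 : mq ^ (ν - i) * mq ^ (i + i) = mq ^ ν * mq ^ i := by
    rw [← pow_add, ← pow_add]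
    congr 1
    omega
  have c5 : ((mq / x) ^ (n - ν) * mq ^ ν) * (T * ε) ≤ ((mq / x) ^ (n - ν) * mq ^ ν) *
      (4 ^ (n * n + n) * (mq ^ i * (S1 * S2) / z)) := by
    calc ((mq / x) ^ (n - ν) * mq ^ ν) * (T * ε)
        = T * ((mq / x) ^ (n - ν) * (ε * mq ^ ν)) := by ring
      _ ≤ 4 ^ (n * n + n) * ((mq / x) ^ (n - i) * mq ^ (i + i) * (S1 * S2)) := c4
      _ = 4 ^ (n * n + n) * ((mq / x) ^ (n - ν) * (mq ^ (ν - i) * mq ^ (i + i)) *
            (S1 * S2) / z) := by
          rw [e1]
          ring
      _ = ((mq / x) ^ (n - ν) * mq ^ ν) * (4 ^ (n * n + n) * (mq ^ i * (S1 * S2) / z)) := by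
          rw [e2]
          ring
  have c6 := le_of_mul_le_mul_left c5 (by positivity)
  rw [← hS1, ← hS2]
  have c7 : (4 : ℝ) ^ (n * n + n) / ε * (S1 * S2 / z) * mq ^ i =
      (4 ^ (n * n + n) * (mq ^ i * (S1 * S2) / z)) / ε := by ring
  rw [c7, le_div_iff₀ hε]
  exact c6

end Data

end Pool.Agent.N110
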